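import Pool.Agent.W5h23.CP.Fin

/-!
# Almost sure convergence along all integers
-/

set_option autoImplicit false
set_option linter.unusedSectionVars false

open MeasureTheory ProbabilityTheory Function Finset Filter Topology

namespace Pool.Agent.W5h23.CP

/-- the average of `s` over `1, …, N` -/
noncomputable def Mn (s : ℕ → ℂ) (N : ℕ) : ℂ := (1 / (N : ℂ)) * ∑ n ∈ Icc 1 N, s n

/-- the scales -/
noncomputable def Nj (j : ℕ) : ℕ := ⌊Real.exp (Real.sqrt j)⌋₊

theorem Nj_pos (j : ℕ) : 1 ≤ Nj j := by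
  unfold Nj
  rw [Nat.one_le_floor_iff]
  exact Real.one_le_exp (Real.sqrt_nonneg _)

theorem tendsto_jN : Tendsto (fun N : ℕ => ⌊Real.log N ^ 2⌋₊) atTop atTop := by
  refine tendsto_nat_floor_atTop.comp ?_
  exact (tendsto_pow_atTop two_ne_zero).comp
    (Real.tendsto_log_atTop.comp tendsto_natCast_atTop_atTop)

/-- interpolation between the scales -/
theorem interp {s : ℕ → ℂ} (hs : ∀ n, ‖s n‖ ≤ 1)
    (h : Tendsto (fun j : ℕ => Mn s (Nj j)) atTop (𝓝 0)) :
    Tendsto (fun N : ℕ => Mn s N) atTop (𝓝 0) := by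
  rw [tendsto_zero_iff_norm_tendsto_zero]
  have h1 : Tendsto (fun N : ℕ => ‖Mn s (Nj ⌊Real.log N ^ 2⌋₊)‖) atTop (𝓝 0) :=
    (tendsto_zero_iff_norm_tendsto_zero.mp h).comp tendsto_jN
  have h2 : Tendsto (fun N : ℕ => Real.exp (1 / Real.sqrt ((⌊Real.log N ^ 2⌋₊ : ℝ) + 1)) - 1)
      atTop (𝓝 0) := by
    have h3 : Tendsto (fun N : ℕ => 1 / Real.sqrt ((⌊Real.log N ^ 2⌋₊ : ℝ) + 1)) atTop (𝓝 0) := by
      simp only [one_div]
      refine tendsto_inv_atTop_zero.comp ?_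
      refine Real.tendsto_sqrt_atTop.comp ?_
      exact tendsto_atTop_add_const_right _ _ (tendsto_natCast_atTop_atTop.comp tendsto_jN)
    have h4 := ((Real.continuous_exp.tendsto 0).comp h3).sub_const 1
    simpa using h4
  have h5 : Tendsto (fun N : ℕ => (1 : ℝ) / N) atTop (𝓝 0) := tendsto_one_div_atTop_nhds_zero_nat
  have h6 := (h1.add h2).add h5
  simp only [add_zero] at h6
  refine squeeze_zero' (Filter.Eventually.of_forall fun N => norm_nonneg _) ?_ h6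
  filter_upwards [eventually_ge_atTop 1] with N hN
  have hN0 : (0 : ℝ) < N := by exact_mod_cast hN
  set j := ⌊Real.log N ^ 2⌋₊ with hj
  set M := Nj j with hM
  have hlog : 0 ≤ Real.log N := Real.log_nonneg (by exact_mod_cast hN)
  have hj1 : (j : ℝ) ≤ Real.log N ^ 2 := Nat.floor_le (sq_nonneg _)
  have hj2 : Real.log N ^ 2 < j + 1 := Nat.lt_floor_add_one _
  have hs1 : Real.sqrt j ≤ Real.log N := by
    rw [Real.sqrt_le_left hlog]; exact hj1
  have hs2 : Real.log N ≤ Real.sqrt ((j : ℝ) + 1) := Real.le_sqrt_of_sq_le hj2.le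
  have he1 : Real.exp (Real.sqrt j) ≤ N := by
    rw [← Real.exp_log hN0]; exact Real.exp_le_exp.mpr hs1
  have he2 : (N : ℝ) ≤ Real.exp (Real.sqrt ((j : ℝ) + 1)) := by
    conv_lhs => rw [← Real.exp_log hN0]
    exact Real.exp_le_exp.mpr hs2
  have hMle : (M : ℝ) ≤ Real.exp (Real.sqrt j) := Nat.floor_le (Real.exp_pos _).le
  have hMge : Real.exp (Real.sqrt j) < M + 1 := Nat.lt_floor_add_one _
  have hMN : M ≤ N := by exact_mod_cast hMle.trans he1
  have hM1 : 1 ≤ M := Nj_pos j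
  have hM0 : (0 : ℝ) < M := by exact_mod_cast hM1
  have hdiff : Real.sqrt ((j : ℝ) + 1) - Real.sqrt j ≤ 1 / Real.sqrt ((j : ℝ) + 1) := by
    have ha : 0 < Real.sqrt ((j : ℝ) + 1) := Real.sqrt_pos.2 (by positivity)
    have hb : 0 ≤ Real.sqrt (j : ℝ) := Real.sqrt_nonneg _
    rw [le_div_iff₀ ha]
    have e1 : Real.sqrt ((j : ℝ) + 1) ^ 2 = j + 1 := Real.sq_sqrt (by positivity)
    have e2 : Real.sqrt (j : ℝ) ^ 2 = j := Real.sq_sqrt (by positivity)
    have e3 : Real.sqrt (j : ℝ) ≤ Real.sqrt ((j : ℝ) + 1) := Real.sqrt_le_sqrt (by linarith)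
    nlinarith
  have hNM : (N : ℝ) - M ≤ N * (Real.exp (1 / Real.sqrt ((j : ℝ) + 1)) - 1) + 1 := by
    have e1 : Real.exp (Real.sqrt ((j : ℝ) + 1)) =
        Real.exp (Real.sqrt j) * Real.exp (Real.sqrt ((j : ℝ) + 1) - Real.sqrt j) := by
      rw [← Real.exp_add]; congr 1; ring
    have e2 : Real.exp (Real.sqrt ((j : ℝ) + 1) - Real.sqrt j) ≤
        Real.exp (1 / Real.sqrt ((j : ℝ) + 1)) := Real.exp_le_exp.mpr hdiff
    have e3 : (1 : ℝ) ≤ Real.exp (1 / Real.sqrt ((j : ℝ) + 1)) :=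
      Real.one_le_exp (by positivity)
    have e4 : Real.exp (Real.sqrt ((j : ℝ) + 1)) - Real.exp (Real.sqrt j) ≤
        N * (Real.exp (1 / Real.sqrt ((j : ℝ) + 1)) - 1) := by
      rw [e1]
      calc Real.exp (Real.sqrt j) * Real.exp (Real.sqrt ((j : ℝ) + 1) - Real.sqrt j) -
            Real.exp (Real.sqrt j) =
            Real.exp (Real.sqrt j) * (Real.exp (Real.sqrt ((j : ℝ) + 1) - Real.sqrt j) - 1) := by
            ring
        _ ≤ Real.exp (Real.sqrt j) * (Real.exp (1 / Real.sqrt ((j : ℝ) + 1)) - 1) :=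
            mul_le_mul_of_nonneg_left (by linarith) (Real.exp_pos _).le
        _ ≤ _ := mul_le_mul_of_nonneg_right he1 (by linarith)
    linarith
  -- the sums
  have hsum : ‖∑ n ∈ Icc 1 N, s n‖ ≤ ‖∑ n ∈ Icc 1 M, s n‖ + ((N : ℝ) - M) := by
    have e1 : ∑ n ∈ Icc 1 N, s n = ∑ n ∈ Icc 1 M, s n + ∑ n ∈ Icc (M + 1) N, s n := by
      rw [← Finset.sum_union]
      · congr 1
        ext n
        simp only [Finset.mem_Icc, Finset.mem_union]
        omega
      · rw [Finset.disjoint_left]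
        intro n hn hn'
        rw [Finset.mem_Icc] at hn hn'
        omega
    rw [e1]
    refine (norm_add_le _ _).trans (add_le_add le_rfl ?_)
    refine (norm_sum_le _ _).trans ((Finset.sum_le_sum fun n _ => hs n).trans (le_of_eq ?_))
    rw [Finset.sum_const, Nat.card_Icc, nsmul_eq_mul, mul_one]
    rw [Nat.cast_sub (by omega)]
    push_cast
    ring
  have hT : ∀ K : ℕ, ‖Mn s K‖ = ‖∑ n ∈ Icc 1 K, s n‖ / K := by
    intro K
    unfold Mn
    rw [norm_mul, norm_div, norm_one, Complex.norm_natCast, one_div, ← div_eq_inv_mul]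
  rw [hT N, hT M]
  have e5 : ‖∑ n ∈ Icc 1 M, s n‖ / N ≤ ‖∑ n ∈ Icc 1 M, s n‖ / M :=
    div_le_div_of_nonneg_left (norm_nonneg _) hM0 (by exact_mod_cast hMN)
  calc ‖∑ n ∈ Icc 1 N, s n‖ / N ≤ (‖∑ n ∈ Icc 1 M, s n‖ +
        (N * (Real.exp (1 / Real.sqrt ((j : ℝ) + 1)) - 1) + 1)) / N :=
        div_le_div_of_nonneg_right (by linarith) hN0.le
    _ = ‖∑ n ∈ Icc 1 M, s n‖ / N + (Real.exp (1 / Real.sqrt ((j : ℝ) + 1)) - 1) + 1 / N := by
        field_simp
        ring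
    _ ≤ _ := by linarith

/-- moving the left end of the window -/
theorem Dw_window {a : ℕ → ℝ} (ha0 : ∀ p, 0 ≤ a p) (ha1 : ∀ p, a p ≤ 1) {L y K : ℝ} (hL : 0 < L)
    (hK : 0 ≤ K) (hy : y ≤ K * L) (Y : ℕ) : Dw a L Y ≤ Dw a y Y + K := by
  unfold Dw
  have h1 : (PP Y).filter (fun p : ℕ => L < (p : ℝ)) ⊆ (PP Y).filter (fun p : ℕ => y < (p : ℝ)) ∪
      (Icc 1 ⌊y⌋₊).filter (fun p : ℕ => L < (p : ℝ)) := by
    intro p hp
    rw [Finset.mem_filter] at hp
    rw [Finset.mem_union]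
    rcases lt_or_ge y (p : ℝ) with h2 | h2
    · exact Or.inl (Finset.mem_filter.mpr ⟨hp.1, h2⟩)
    · refine Or.inr (Finset.mem_filter.mpr ⟨Finset.mem_Icc.mpr ⟨?_, Nat.le_floor h2⟩, hp.2⟩)
      exact (Finset.mem_Icc.mp (Finset.mem_filter.mp hp.1).1).1
  have hnn : ∀ p : ℕ, 0 ≤ (1 - a p) / p := fun p =>
    div_nonneg (by linarith [ha1 p]) (Nat.cast_nonneg _)
  refine (Finset.sum_le_sum_of_subset_of_nonneg h1 fun p _ _ => hnn p).trans ?_
  have hun : ∀ s t : Finset ℕ, ∑ p ∈ s ∪ t, (1 - a p) / (p : ℝ) ≤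
      ∑ p ∈ s, (1 - a p) / (p : ℝ) + ∑ p ∈ t, (1 - a p) / (p : ℝ) := by
    intro s t
    rw [← Finset.sum_union_inter]
    have : 0 ≤ ∑ p ∈ s ∩ t, (1 - a p) / (p : ℝ) := Finset.sum_nonneg fun p _ => hnn p
    linarith
  refine (hun _ _).trans ?_
  refine add_le_add le_rfl ?_
  have h2 : ∀ p ∈ (Icc 1 ⌊y⌋₊).filter (fun p : ℕ => L < (p : ℝ)), (1 - a p) / p ≤ 1 / L := by
    intro p hp
    rw [Finset.mem_filter] at hp
    exact div_le_div₀ (by norm_num) (by linarith [ha0 p]) hL hp.2.le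
  refine (Finset.sum_le_sum h2).trans ?_
  rw [Finset.sum_const, nsmul_eq_mul]
  rcases le_or_gt y 0 with hy0 | hy0
  · rw [Nat.floor_of_nonpos hy0]
    simpa using hK
  have h3 : (((Icc 1 ⌊y⌋₊).filter (fun p : ℕ => L < (p : ℝ))).card : ℝ) ≤ y := by
    calc (((Icc 1 ⌊y⌋₊).filter (fun p : ℕ => L < (p : ℝ))).card : ℝ)
        ≤ ((Icc 1 ⌊y⌋₊).card : ℝ) := by exact_mod_cast Finset.card_filter_le _ _
      _ = ⌊y⌋₊ := by simp
      _ ≤ y := Nat.floor_le hy0.le
  calc (((Icc 1 ⌊y⌋₊).filter (fun p : ℕ => L < (p : ℝ))).card : ℝ) * (1 / L) ≤ K * L * (1 / L) :=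
        mul_le_mul_of_nonneg_right (h3.trans hy) (by positivity)
    _ = K := by field_simp

theorem loglog_Nj {j : ℕ} (hj : 16 ≤ j) : Real.log j / 4 ≤ Real.log (Real.log (Nj j)) := by
  have hj0 : (16 : ℝ) ≤ j := by exact_mod_cast hj
  have hjp : (0 : ℝ) < j := by linarith
  have hs4 : 4 ≤ Real.sqrt j := by
    refine Real.le_sqrt_of_sq_le ?_
    linarith
  have hss2 : 2 ≤ Real.sqrt (Real.sqrt j) := by
    refine Real.le_sqrt_of_sq_le ?_
    linarith
  have hN1 : (1 : ℝ) ≤ Nj j := by exact_mod_cast Nj_pos j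
  have h1 : Real.exp (Real.sqrt j) < Nj j + 1 := Nat.lt_floor_add_one _
  have h2 : Real.exp (Real.sqrt j - 1) ≤ Nj j := by
    have e1 : Real.exp (Real.sqrt j) = Real.exp (Real.sqrt j - 1) * Real.exp 1 := by
      rw [← Real.exp_add]; congr 1; ring
    have e2 : (2 : ℝ) ≤ Real.exp 1 := by
      have := Real.add_one_le_exp (1 : ℝ)
      linarith
    have e3 : (1 : ℝ) ≤ Real.exp (Real.sqrt j - 1) := Real.one_le_exp (by linarith)
    nlinarith
  have h3 : Real.sqrt j - 1 ≤ Real.log (Nj j) := by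
    rw [Real.le_log_iff_exp_le (by linarith)]; exact h2
  have h4 : Real.sqrt (Real.sqrt j) ≤ Real.log (Nj j) := by
    have e1 : Real.sqrt (Real.sqrt j) ^ 2 = Real.sqrt j := Real.sq_sqrt (Real.sqrt_nonneg _)
    nlinarith
  have h5 : Real.log (Real.sqrt (Real.sqrt j)) = Real.log j / 4 := by
    rw [Real.log_sqrt (Real.sqrt_nonneg _), Real.log_sqrt hjp.le]
    ring
  rw [← h5]
  exact Real.log_le_log (by linarith) h4

section

variable {Ω : Type} [MeasurableSpace Ω] {P : Measure Ω} [IsProbabilityMeasure P] {k : ℕ}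
  {F : Fin k → ℕ → Ω → ℂ}

/-- the size of the mean of `F i0` at `p` -/
noncomputable def mn (P : Measure Ω) (F : Fin k → ℕ → Ω → ℂ) (i0 : Fin k) (p : ℕ) : ℝ :=
  ‖∫ ω, F i0 p ω ∂P‖

theorem mn_nonneg (i0 : Fin k) (p : ℕ) : 0 ≤ mn P F i0 p := norm_nonneg _

theorem mn_le_one (hF : RandMult P F) (i0 : Fin k) (p : ℕ) : mn P F i0 p ≤ 1 := by
  refine (norm_integral_le_of_norm_le_const (C := 1)
    (Filter.Eventually.of_forall fun ω => hF.bdd i0 p ω)).trans ?_
  simp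

theorem tendsto_Nj : Tendsto Nj atTop atTop := by
  unfold Nj
  exact tendsto_nat_floor_atTop.comp (Real.tendsto_exp_atTop.comp
    (Real.tendsto_sqrt_atTop.comp tendsto_natCast_atTop_atTop))

/-- one `ε` along the scales -/
theorem ae_scales (hF : RandMult P F) {h : Fin k → ℕ} (hinj : Injective h) (i0 : Fin k)
    (hdiv : Tendsto (fun N : ℕ => Dw (mn P F i0) (Real.log (Real.log N)) N) atTop atTop)
    {g : ℕ → ℂ} (hg : ∀ n, ‖g n‖ ≤ 1) {ε : ℝ} (hε : 0 < ε) :
    ∀ᵐ ω ∂P, ∀ᶠ j : ℕ in atTop, ‖Mn (fun n => g n * ∏ i, F i (n + h i) ω) (Nj j)‖ < 2 * ε := by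
  obtain ⟨C, hC, hone⟩ := one_scale
  have hk : 0 < k := lt_of_le_of_lt (Nat.zero_le _) i0.2
  have hk0 : (0 : ℝ) < k := by exact_mod_cast hk
  obtain ⟨H, hH⟩ : ∃ H : ℕ, ∀ i, h i ≤ H :=
    ⟨(Finset.univ : Finset (Fin k)).sup h, fun i => Finset.le_sup (Finset.mem_univ i)⟩
  have hH0 : (0 : ℝ) ≤ H := Nat.cast_nonneg _
  set K : ℝ := 64 * k ^ 2 * (1 + H) ^ 2 / ε ^ 2 with hK
  have hK0 : 0 < K := by positivity
  set y : ℕ → ℕ := fun j => ⌈K * Real.log (j + 2)⌉₊ + H + 1 with hy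
  set A : ℕ → Set Ω := fun j => {ω | C * (1 + H) * Real.exp (-Dw (mn P F i0) (y j : ℕ) (Nj j)) + ε ≤
      ‖Mn (fun n => g n * ∏ i, F i (n + h i) ω) (Nj j)‖} with hA
  have hlog2 : ∀ j : ℕ, 0 ≤ Real.log ((j : ℝ) + 2) := fun j =>
    Real.log_nonneg (by have : (0 : ℝ) ≤ j := Nat.cast_nonneg _; linarith)
  have hPA : ∀ j, P.real (A j) ≤ 4 * (1 / ((j : ℝ) + 2) ^ 2) := by
    intro j
    have h1 := hone P hF hinj hH i0 hg (Nj j) (y j) (Nj_pos j) (by simp only [hy]; omega)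
      (by simp only [hy]; omega) hε.le
    refine le_trans h1 (mul_le_mul_of_nonneg_left ?_ (by norm_num))
    have hj2 : (0 : ℝ) < (j : ℝ) + 2 := by positivity
    have h2 : (1 : ℝ) / ((j : ℝ) + 2) ^ 2 = Real.exp (-(2 * Real.log ((j : ℝ) + 2))) := by
      rw [Real.exp_neg, two_mul, Real.exp_add, Real.exp_log hj2, one_div, sq]
    rw [h2, Real.exp_le_exp]
    refine neg_le_neg ?_
    have h3 : K * Real.log ((j : ℝ) + 2) ≤ (y j : ℝ) := by
      simp only [hy]
      push_cast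
      have := Nat.le_ceil (K * Real.log ((j : ℝ) + 2))
      linarith
    rw [le_div_iff₀ (by positivity)]
    have h4 : ε ^ 2 * (K * Real.log ((j : ℝ) + 2)) ≤ ε ^ 2 * (y j : ℝ) :=
      mul_le_mul_of_nonneg_left h3 (by positivity)
    have h5 : ε ^ 2 * (K * Real.log ((j : ℝ) + 2)) =
        2 * Real.log ((j : ℝ) + 2) * (32 * k ^ 2 * (1 + H) ^ 2) := by
      rw [hK]; field_simp; ring
    linarith
  have hsum : ∑' j, P (A j) ≠ ⊤ := by
    have h1 : ∀ j, P (A j) ≤ ENNReal.ofReal (4 * (1 / ((j : ℝ) + 2) ^ 2)) := by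
      intro j
      rw [← ENNReal.ofReal_toReal (measure_ne_top P (A j))]
      exact ENNReal.ofReal_le_ofReal (hPA j)
    refine ne_top_of_le_ne_top ?_ (ENNReal.tsum_le_tsum h1)
    have hs : Summable (fun j : ℕ => 4 * (1 / ((j : ℝ) + 2) ^ 2)) := by
      have h2 : Summable (fun n : ℕ => 1 / (n : ℝ) ^ 2) :=
        Real.summable_one_div_nat_pow.2 (by norm_num)
      have h3 := ((summable_nat_add_iff 2).mpr h2).mul_left 4
      refine h3.congr fun j => ?_
      push_cast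
      rfl
    exact hs.tsum_ofReal_ne_top
  have hbc := ae_eventually_notMem hsum
  -- the mean tends to zero
  have hmean : ∀ᶠ j : ℕ in atTop,
      C * (1 + H) * Real.exp (-Dw (mn P F i0) (y j : ℕ) (Nj j)) < ε := by
    set K' : ℝ := 4 * (2 * K + H + 2) with hK'
    have hK'0 : 0 < K' := by positivity
    have h1 : ∀ᶠ j : ℕ in atTop, Dw (mn P F i0) (Real.log (Real.log (Nj j))) (Nj j) - K' ≤
        Dw (mn P F i0) (y j : ℕ) (Nj j) := by
      filter_upwards [eventually_ge_atTop 16] with j hj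
      have hj16 : (16 : ℝ) ≤ j := by exact_mod_cast hj
      have hL := loglog_Nj hj
      have hlj : 1 ≤ Real.log j := by
        rw [Real.le_log_iff_exp_le (by linarith)]
        have := Real.exp_one_lt_d9
        linarith
      have hL0 : 0 < Real.log (Real.log (Nj j)) := by linarith
      have h2 : Real.log ((j : ℝ) + 2) ≤ 2 * Real.log j := by
        have e1 : 2 * Real.log (j : ℝ) = Real.log ((j : ℝ) ^ 2) := by
          rw [Real.log_pow]; norm_num
        rw [e1]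
        exact Real.log_le_log (by linarith) (by nlinarith)
      have h3 : ((y j : ℕ) : ℝ) ≤ K' * Real.log (Real.log (Nj j)) := by
        simp only [hy]
        push_cast
        have h4 := (Nat.ceil_lt_add_one (mul_nonneg hK0.le (hlog2 j))).le
        have h5 : K * Real.log ((j : ℝ) + 2) ≤ K * (2 * Real.log j) :=
          mul_le_mul_of_nonneg_left h2 hK0.le
        have h6 : (H + 2 : ℝ) ≤ (H + 2) * Real.log j := by nlinarith
        have h7 : K' * (Real.log j / 4) ≤ K' * Real.log (Real.log (Nj j)) :=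
          mul_le_mul_of_nonneg_left hL hK'0.le
        have h8 : K' * (Real.log j / 4) = K * (2 * Real.log j) + (H + 2) * Real.log j := by
          rw [hK']; ring
        linarith
      have := Dw_window (a := mn P F i0) (mn_nonneg i0) (mn_le_one hF i0) hL0 hK'0.le h3 (Nj j)
      linarith
    have h2 : Tendsto (fun j : ℕ => Dw (mn P F i0) (y j : ℕ) (Nj j)) atTop atTop := by
      refine tendsto_atTop_mono' atTop h1 ?_
      exact tendsto_atTop_add_const_right _ (-K') (hdiv.comp tendsto_Nj)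
    have h3 : Tendsto (fun j : ℕ => C * (1 + H) * Real.exp (-Dw (mn P F i0) (y j : ℕ) (Nj j)))
        atTop (𝓝 (C * (1 + H) * 0)) := by
      refine Tendsto.const_mul _ ?_
      exact Real.tendsto_exp_atBot.comp (tendsto_neg_atTop_atBot.comp h2)
    rw [mul_zero] at h3
    exact h3.eventually (gt_mem_nhds hε)
  filter_upwards [hbc] with ω hω
  filter_upwards [hω, hmean] with j hj hj'
  simp only [hA, Set.mem_setOf_eq, not_le] at hj
  linarith

/-- **Almost sure decay of correlations.** -/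
theorem almost_sure (hF : RandMult P F) {h : Fin k → ℕ} (hinj : Injective h) (i0 : Fin k)
    (hdiv : Tendsto (fun N : ℕ => Dw (mn P F i0) (Real.log (Real.log N)) N) atTop atTop)
    {g : ℕ → ℂ} (hg : ∀ n, ‖g n‖ ≤ 1) :
    ∀ᵐ ω ∂P, Tendsto (fun N : ℕ => Mn (fun n => g n * ∏ i, F i (n + h i) ω) N) atTop (𝓝 0) := by
  have h1 : ∀ᵐ ω ∂P, ∀ m : ℕ, ∀ᶠ j : ℕ in atTop,
      ‖Mn (fun n => g n * ∏ i, F i (n + h i) ω) (Nj j)‖ < 2 * (1 / ((m : ℝ) + 1)) := by
    rw [ae_all_iff]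
    intro m
    exact ae_scales hF hinj i0 hdiv hg (by positivity)
  filter_upwards [h1] with ω hω
  refine interp (fun n => ?_) ?_
  · rw [norm_mul, norm_prod]
    exact mul_le_one₀ (hg n) (Finset.prod_nonneg fun _ _ => norm_nonneg _)
      (Finset.prod_le_one (fun _ _ => norm_nonneg _) fun i _ => hF.bdd _ _ _)
  · rw [tendsto_zero_iff_norm_tendsto_zero]
    rw [Metric.tendsto_atTop]
    intro δ hδ
    obtain ⟨m, hm⟩ := exists_nat_one_div_lt (half_pos hδ)
    obtain ⟨J, hJ⟩ := eventually_atTop.mp (hω m)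
    refine ⟨J, fun j hj => ?_⟩
    have h2 := hJ j hj
    rw [Real.dist_eq, sub_zero, abs_of_nonneg (norm_nonneg _)]
    linarith

end

end Pool.Agent.W5h23.CP
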