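import Pool.Agent.W5h23.CP.Mcd

/-!
# Concentration of sums of products of local factors
-/

set_option autoImplicit false
set_option linter.unusedSectionVars false

open MeasureTheory ProbabilityTheory Function Finset

namespace Pool.Agent.W5h23.CP

variable {ι : Type} [Fintype ι] [DecidableEq ι] {E : ι → Type} [∀ i, MeasurableSpace (E i)]
  (ν : ∀ i, Measure (E i)) [∀ i, IsProbabilityMeasure (ν i)]
  {T : Type} [DecidableEq T]

/-- the mean of a local factor -/
noncomputable def Av (L : T → ∀ p : ι, E p → ℂ) (n : T) (p : ι) : ℂ := ∫ u, L n p u ∂(ν p)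

/-- the sum with the coordinates in `J` averaged out -/
noncomputable def Psi (s : Finset T) (w : T → ℂ) (L : T → ∀ p : ι, E p → ℂ) (J : Finset ι)
    (x : ∀ p, E p) : ℂ :=
  ∑ n ∈ s, w n * ∏ p, (if p ∈ J then Av ν L n p else L n p (x p))

variable {ν} {s : Finset T} {w : T → ℂ} {L : T → ∀ p : ι, E p → ℂ}

theorem norm_Av_le (hLb : ∀ n p u, ‖L n p u‖ ≤ 1) (n : T) (p : ι) : ‖Av ν L n p‖ ≤ 1 := by
  unfold Av
  refine (norm_integral_le_of_norm_le_const (C := 1)
    (Filter.Eventually.of_forall fun u => hLb n p u)).trans ?_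
  simp

theorem norm_fac_le (hLb : ∀ n p u, ‖L n p u‖ ≤ 1) (J : Finset ι) (x : ∀ p, E p) (n : T) (p : ι) :
    ‖(if p ∈ J then Av ν L n p else L n p (x p))‖ ≤ 1 := by
  split_ifs
  · exact norm_Av_le hLb n p
  · exact hLb _ _ _

theorem measurable_Psi (hLm : ∀ n p, Measurable (L n p)) (J : Finset ι) :
    Measurable (Psi ν s w L J) := by
  unfold Psi
  refine Finset.measurable_fun_sum _ fun n _ => Measurable.const_mul ?_ _
  refine Finset.measurable_fun_prod _ fun p _ => ?_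
  by_cases hp : p ∈ J
  · simp only [hp, if_true]; exact measurable_const
  · simp only [hp, if_false]; exact (hLm n p).comp (measurable_pi_apply p)

theorem norm_Psi_le (hLb : ∀ n p u, ‖L n p u‖ ≤ 1) (J : Finset ι) (x : ∀ p, E p) :
    ‖Psi ν s w L J x‖ ≤ ∑ n ∈ s, ‖w n‖ := by
  unfold Psi
  refine (norm_sum_le _ _).trans (Finset.sum_le_sum fun n _ => ?_)
  rw [norm_mul, norm_prod]
  have : ∏ p, ‖(if p ∈ J then Av ν L n p else L n p (x p))‖ ≤ 1 :=
    Finset.prod_le_one (fun _ _ => norm_nonneg _) fun p _ => norm_fac_le hLb J x n p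
  exact mul_le_of_le_one_right (norm_nonneg _) this

/-- the product at an updated point -/
theorem prod_update (J : Finset ι) {j : ι} (hj : j ∉ J) (x : ∀ p, E p) (u : E j) (n : T) :
    ∏ p, (if p ∈ J then Av ν L n p else L n p (update x j u p)) =
      L n j u * ∏ p ∈ univ.erase j, (if p ∈ J then Av ν L n p else L n p (x p)) := by
  rw [← Finset.mul_prod_erase univ _ (mem_univ j)]
  congr 1
  · rw [if_neg hj, update_self]
  · refine Finset.prod_congr rfl fun p hp => ?_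
    rw [update_of_ne (Finset.ne_of_mem_erase hp)]

theorem prod_insert' (J : Finset ι) {j : ι} (x : ∀ p, E p) (n : T) :
    ∏ p, (if p ∈ insert j J then Av ν L n p else L n p (x p)) =
      Av ν L n j * ∏ p ∈ univ.erase j, (if p ∈ J then Av ν L n p else L n p (x p)) := by
  rw [← Finset.mul_prod_erase univ _ (mem_univ j)]
  congr 1
  · rw [if_pos (Finset.mem_insert_self j J)]
  · refine Finset.prod_congr rfl fun p hp => ?_
    have := Finset.ne_of_mem_erase hp
    simp only [Finset.mem_insert, this, false_or]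

theorem Psi_insert (hLm : ∀ n p, Measurable (L n p)) (hLb : ∀ n p u, ‖L n p u‖ ≤ 1)
    (J : Finset ι) {j : ι} (hj : j ∉ J) (x : ∀ p, E p) :
    Psi ν s w L (insert j J) x = ∫ u, Psi ν s w L J (update x j u) ∂(ν j) := by
  unfold Psi
  have hint : ∀ n, Integrable (L n j) (ν j) := fun n =>
    Integrable.of_bound (hLm n j).aestronglyMeasurable 1
      (Filter.Eventually.of_forall fun u => hLb n j u)
  simp only [prod_update J hj, prod_insert']
  rw [integral_finset_sum]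
  · refine Finset.sum_congr rfl fun n _ => ?_
    rw [integral_const_mul, integral_mul_const]
    rfl
  · intro n _
    exact ((hint n).mul_const _).const_mul _

theorem Psi_diff (hLb : ∀ n p u, ‖L n p u‖ ≤ 1) {D : ι → Finset T}
    (hDs : ∀ p, D p ⊆ s) (hD : ∀ p, ∀ n ∈ s, n ∉ D p → ∀ u v, L n p u = L n p v)
    (J : Finset ι) {j : ι} (hj : j ∉ J) (x : ∀ p, E p) (u v : E j) :
    ‖Psi ν s w L J (update x j u) - Psi ν s w L J (update x j v)‖ ≤ 2 * ∑ n ∈ D j, ‖w n‖ := by
  unfold Psi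
  rw [← Finset.sum_sub_distrib]
  simp only [prod_update J hj]
  have h1 : ∀ n, w n * (L n j u * ∏ p ∈ univ.erase j,
      (if p ∈ J then Av ν L n p else L n p (x p))) - w n * (L n j v * ∏ p ∈ univ.erase j,
      (if p ∈ J then Av ν L n p else L n p (x p))) = w n * ((L n j u - L n j v) *
      ∏ p ∈ univ.erase j, (if p ∈ J then Av ν L n p else L n p (x p))) := fun n => by ring
  simp only [h1]
  rw [← Finset.sum_subset (hDs j)]
  · refine (norm_sum_le _ _).trans ?_
    rw [Finset.mul_sum]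
    refine Finset.sum_le_sum fun n _ => ?_
    rw [norm_mul, norm_mul, norm_prod]
    have h2 : ∏ p ∈ univ.erase j, ‖(if p ∈ J then Av ν L n p else L n p (x p))‖ ≤ 1 :=
      Finset.prod_le_one (fun _ _ => norm_nonneg _) fun p _ => norm_fac_le hLb J x n p
    have h3 : ‖L n j u - L n j v‖ ≤ 2 := by
      refine (norm_sub_le _ _).trans ?_
      linarith [hLb n j u, hLb n j v]
    have h4 : 0 ≤ ∏ p ∈ univ.erase j, ‖(if p ∈ J then Av ν L n p else L n p (x p))‖ :=
      Finset.prod_nonneg fun _ _ => norm_nonneg _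
    have h5 : ‖L n j u - L n j v‖ * ∏ p ∈ univ.erase j,
        ‖(if p ∈ J then Av ν L n p else L n p (x p))‖ ≤ 2 * 1 :=
      mul_le_mul h3 h2 h4 (by norm_num)
    calc _ ≤ ‖w n‖ * (2 * 1) := mul_le_mul_of_nonneg_left h5 (norm_nonneg _)
      _ = 2 * ‖w n‖ := by ring
  · intro n hn hnD
    rw [hD j n hn hnD u v, sub_self, zero_mul, mul_zero]

theorem fam (hLm : ∀ n p, Measurable (L n p)) (hLb : ∀ n p u, ‖L n p u‖ ≤ 1) {D : ι → Finset T}
    (hDs : ∀ p, D p ⊆ s) (hD : ∀ p, ∀ n ∈ s, n ∉ D p → ∀ u v, L n p u = L n p v) (w : T → ℂ) :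
    Fam ν (fun J x => (Psi ν s w L J x).re) (fun p => 2 * ∑ n ∈ D p, ‖w n‖) where
  meas J := Complex.measurable_re.comp (measurable_Psi hLm J)
  bdd := ⟨∑ n ∈ s, ‖w n‖, fun J x => (Complex.abs_re_le_norm _).trans (norm_Psi_le hLb J x)⟩
  avg J j hj x := by
    rw [Psi_insert hLm hLb J hj]
    have hint : Integrable (fun u => Psi ν s w L J (update x j u)) (ν j) :=
      Integrable.of_bound ((measurable_Psi hLm J).comp (measurable_update x)).aestronglyMeasurable
        (∑ n ∈ s, ‖w n‖) (Filter.Eventually.of_forall fun u => norm_Psi_le hLb J _)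
    exact (integral_re hint).symm
  diff J j hj x u v := by
    rw [← Complex.sub_re]
    exact (Complex.abs_re_le_norm _).trans (Psi_diff hLb hDs hD J hj x u v)

theorem Psi_smul (a : ℂ) (J : Finset ι) (x : ∀ p, E p) :
    Psi ν s (fun n => a * w n) L J x = a * Psi ν s w L J x := by
  unfold Psi
  rw [Finset.mul_sum]
  exact Finset.sum_congr rfl fun n _ => by ring

theorem tail_dir (hLm : ∀ n p, Measurable (L n p)) (hLb : ∀ n p u, ‖L n p u‖ ≤ 1)
    {D : ι → Finset T}
    (hDs : ∀ p, D p ⊆ s) (hD : ∀ p, ∀ n ∈ s, n ∉ D p → ∀ u v, L n p u = L n p v) (J : Finset ι)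
    {V t : ℝ} (hV : 0 < V) (hJ : ∑ p ∈ J, (2 * ∑ n ∈ D p, ‖w n‖) ^ 2 ≤ V) (ht : 0 ≤ t)
    {a : ℂ} (ha : ‖a‖ = 1) :
    (Measure.pi ν).real {x | t ≤ (a * (Psi ν s w L ∅ x - Psi ν s w L J x)).re} ≤
      Real.exp (-(t ^ 2) / (2 * V)) := by
  have h1 := (fam (ν := ν) hLm hLb hDs hD (fun n => a * w n)).tail J (V := V) (t := t) hV
    (by simpa [ha] using hJ) ht
  refine le_trans (le_of_eq ?_) h1
  congr 1
  ext x
  simp only [Set.mem_setOf_eq, Psi_smul, mul_sub, Complex.sub_re]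

theorem norm_Psi_J_le (hLb : ∀ n p u, ‖L n p u‖ ≤ 1) (J : Finset ι) (x : ∀ p, E p) :
    ‖Psi ν s w L J x‖ ≤ ∑ n ∈ s, ‖w n‖ * ∏ p ∈ J, ‖Av ν L n p‖ := by
  unfold Psi
  refine (norm_sum_le _ _).trans (Finset.sum_le_sum fun n _ => ?_)
  rw [norm_mul, norm_prod]
  refine mul_le_mul_of_nonneg_left ?_ (norm_nonneg _)
  rw [← Finset.prod_mul_prod_compl J]
  have h1 : ∏ p ∈ J, ‖(if p ∈ J then Av ν L n p else L n p (x p))‖ = ∏ p ∈ J, ‖Av ν L n p‖ :=
    Finset.prod_congr rfl fun p hp => by rw [if_pos hp]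
  rw [h1]
  refine mul_le_of_le_one_right (Finset.prod_nonneg fun _ _ => norm_nonneg _) ?_
  exact Finset.prod_le_one (fun _ _ => norm_nonneg _) fun p _ => norm_fac_le hLb J x n p

/-- The concentration inequality for sums of products of local factors. -/
theorem abs_tail (hLm : ∀ n p, Measurable (L n p)) (hLb : ∀ n p u, ‖L n p u‖ ≤ 1)
    {D : ι → Finset T}
    (hDs : ∀ p, D p ⊆ s) (hD : ∀ p, ∀ n ∈ s, n ∉ D p → ∀ u v, L n p u = L n p v) (J : Finset ι)
    {V t : ℝ} (hV : 0 < V) (hJ : ∑ p ∈ J, (2 * ∑ n ∈ D p, ‖w n‖) ^ 2 ≤ V) (ht : 0 ≤ t) :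
    (Measure.pi ν).real {x | (∑ n ∈ s, ‖w n‖ * ∏ p ∈ J, ‖Av ν L n p‖) + 2 * t ≤
      ‖∑ n ∈ s, w n * ∏ p, L n p (x p)‖} ≤ 4 * Real.exp (-(t ^ 2) / (2 * V)) := by
  set A : ℂ → Set (∀ p, E p) := fun a =>
    {x | t ≤ (a * (Psi ν s w L ∅ x - Psi ν s w L J x)).re} with hA
  have hsub : {x | (∑ n ∈ s, ‖w n‖ * ∏ p ∈ J, ‖Av ν L n p‖) + 2 * t ≤
      ‖∑ n ∈ s, w n * ∏ p, L n p (x p)‖} ⊆ (A 1 ∪ A (-1)) ∪ (A Complex.I ∪ A (-Complex.I)) := by
    intro x hx
    by_contra hcon
    simp only [hA, Set.mem_union, Set.mem_setOf_eq, not_or, not_le] at hcon hx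
    obtain ⟨⟨h1, h2⟩, h3, h4⟩ := hcon
    set z := Psi ν s w L ∅ x - Psi ν s w L J x with hz
    rw [one_mul] at h1
    rw [neg_mul, one_mul, Complex.neg_re] at h2
    rw [Complex.I_mul_re] at h3
    rw [neg_mul, Complex.neg_re, Complex.I_mul_re] at h4
    have h5 : |z.re| < t := abs_lt.mpr ⟨by linarith, h1⟩
    have h6 : |z.im| < t := abs_lt.mpr ⟨by linarith, by linarith⟩
    have h7 : ‖z‖ < 2 * t := by
      have := Complex.norm_le_abs_re_add_abs_im z
      linarith
    have h8 : Psi ν s w L ∅ x = ∑ n ∈ s, w n * ∏ p, L n p (x p) := by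
      unfold Psi
      simp
    have h9 := norm_Psi_J_le (ν := ν) (s := s) (w := w) hLb J x
    have h10 : ‖Psi ν s w L ∅ x‖ ≤ ‖z‖ + ‖Psi ν s w L J x‖ := by
      have : Psi ν s w L ∅ x = z + Psi ν s w L J x := by rw [hz]; ring
      rw [this]
      exact norm_add_le _ _
    rw [h8] at h10
    linarith
  have hb : ∀ a : ℂ, ‖a‖ = 1 → (Measure.pi ν).real (A a) ≤ Real.exp (-(t ^ 2) / (2 * V)) :=
    fun a ha => tail_dir hLm hLb hDs hD J hV hJ ht ha
  calc _ ≤ (Measure.pi ν).real ((A 1 ∪ A (-1)) ∪ (A Complex.I ∪ A (-Complex.I))) :=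
        measureReal_mono hsub
    _ ≤ (Measure.pi ν).real (A 1 ∪ A (-1)) + (Measure.pi ν).real (A Complex.I ∪ A (-Complex.I)) :=
        measureReal_union_le _ _
    _ ≤ ((Measure.pi ν).real (A 1) + (Measure.pi ν).real (A (-1))) +
        ((Measure.pi ν).real (A Complex.I) + (Measure.pi ν).real (A (-Complex.I))) :=
        add_le_add (measureReal_union_le _ _) (measureReal_union_le _ _)
    _ ≤ 4 * Real.exp (-(t ^ 2) / (2 * V)) := by
        have h1 := hb 1 (by simp)
        have h2 := hb (-1) (by simp)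
        have h3 := hb Complex.I (by simp)
        have h4 := hb (-Complex.I) (by simp)
        linarith

end Pool.Agent.W5h23.CP
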