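import Pool.Agent.W5h23.CP.Abs

/-!
# Concentration of correlations of random multiplicative functions
-/

set_option autoImplicit false
set_option linter.unusedSectionVars false

open MeasureTheory ProbabilityTheory Function Finset

namespace Pool.Agent.W5h23.CP

/-- `F 0, …, F (k-1)` are random multiplicative functions with values in the unit disc, on the
probability space `P`, whose values at the powers of different primes are independent. (The
functions `F i` may be deterministic, and they may depend on each other in any way.) -/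
structure RandMult {Ω : Type} [MeasurableSpace Ω] (P : Measure Ω) {k : ℕ}
    (F : Fin k → ℕ → Ω → ℂ) : Prop where
  meas : ∀ i n, Measurable (F i n)
  bdd : ∀ i n ω, ‖F i n ω‖ ≤ 1
  one : ∀ i ω, F i 1 ω = 1
  mul : ∀ i ω m n, Nat.Coprime m n → F i (m * n) ω = F i m ω * F i n ω
  indep : iIndepFun (fun (p : Nat.Primes) (ω : Ω) (q : Fin k × ℕ) =>
    F q.1 ((p : ℕ) ^ (q.2 + 1)) ω) P

/-- primes up to `N` -/
abbrev PP (N : ℕ) : Finset ℕ := (Finset.Icc 1 N).filter Nat.Prime

/-- the product of `a p` over the primes `p > y` that divide `m` exactly once -/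
noncomputable def GG (a : ℕ → ℝ) (y m : ℕ) : ℝ :=
  ∏ p ∈ m.primeFactors.filter (fun p => y < p ∧ ¬ p ^ 2 ∣ m), a p

/-- retraction to the unit disc -/
noncomputable def clip (z : ℂ) : ℂ := if ‖z‖ ≤ 1 then z else 0

theorem norm_clip_le (z : ℂ) : ‖clip z‖ ≤ 1 := by
  unfold clip
  split_ifs with h
  · exact h
  · simp

theorem clip_of_le {z : ℂ} (h : ‖z‖ ≤ 1) : clip z = z := if_pos h

theorem measurable_clip : Measurable clip := by
  unfold clip
  exact Measurable.ite (measurableSet_le measurable_norm measurable_const) measurable_id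
    measurable_const

/-- local factor at `p` of the correlation at `n` -/
noncomputable def Loc {k : ℕ} (h : Fin k → ℕ) (n p : ℕ) (u : Fin k × ℕ → ℂ) : ℂ :=
  ∏ i, if (n + h i).factorization p = 0 then 1 else clip (u (i, (n + h i).factorization p - 1))

theorem norm_Loc_le {k : ℕ} (h : Fin k → ℕ) (n p : ℕ) (u : Fin k × ℕ → ℂ) :
    ‖Loc h n p u‖ ≤ 1 := by
  unfold Loc
  rw [norm_prod]
  refine Finset.prod_le_one (fun _ _ => norm_nonneg _) fun i _ => ?_
  split_ifs
  · simp
  · exact norm_clip_le _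

theorem measurable_Loc {k : ℕ} (h : Fin k → ℕ) (n p : ℕ) : Measurable (Loc h n p) := by
  unfold Loc
  refine Finset.measurable_fun_prod _ fun i _ => ?_
  by_cases hi : (n + h i).factorization p = 0
  · simp only [hi, if_true]; exact measurable_const
  · simp only [hi, if_false]
    exact measurable_clip.comp (measurable_pi_apply _)

/-- a multiplicative function as a product over primes -/
theorem mult_eq_prod {f : ℕ → ℂ} (h1 : f 1 = 1)
    (hm : ∀ m n, Nat.Coprime m n → f (m * n) = f m * f n) {m M : ℕ} (hm0 : m ≠ 0) (hmM : m ≤ M) :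
    f m = ∏ p ∈ PP M, f (p ^ m.factorization p) := by
  rw [Nat.multiplicative_factorization f (fun x y hxy => hm x y hxy) h1 hm0, Finsupp.prod]
  refine Finset.prod_subset ?_ ?_
  · intro p hp
    rw [Nat.support_factorization, Nat.mem_primeFactors] at hp
    rw [Finset.mem_filter, Finset.mem_Icc]
    exact ⟨⟨hp.1.one_lt.le, (Nat.le_of_dvd (Nat.pos_of_ne_zero hm0) hp.2.1).trans hmM⟩, hp.1⟩
  · intro p _ hp
    rw [Finsupp.notMem_support_iff] at hp
    rw [hp, pow_zero, h1]

section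

variable {Ω : Type} [MeasurableSpace Ω] {P : Measure Ω} [IsProbabilityMeasure P] {k : ℕ}
  {F : Fin k → ℕ → Ω → ℂ}

/-- the values at the powers of `p` -/
def Zp (F : Fin k → ℕ → Ω → ℂ) (p : ℕ) (ω : Ω) (q : Fin k × ℕ) : ℂ := F q.1 (p ^ (q.2 + 1)) ω

theorem measurable_Zp (hF : RandMult P F) (p : ℕ) : Measurable (Zp F p) :=
  measurable_pi_lambda _ fun _ => hF.meas _ _

theorem Loc_Zp (hF : RandMult P F) (h : Fin k → ℕ) (n p : ℕ) (ω : Ω) :
    Loc h n p (Zp F p ω) = ∏ i, F i (p ^ (n + h i).factorization p) ω := by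
  unfold Loc Zp
  refine Finset.prod_congr rfl fun i _ => ?_
  split_ifs with hi
  · rw [hi, pow_zero, hF.one]
  · rw [clip_of_le (hF.bdd _ _ _)]
    simp only
    rw [Nat.sub_add_cancel (Nat.pos_of_ne_zero hi)]

theorem prod_eq (hF : RandMult P F) (h : Fin k → ℕ) {H : ℕ} (hH : ∀ i, h i ≤ H) {n N : ℕ}
    (hn : n ∈ Icc 1 N) (ω : Ω) :
    ∏ i, F i (n + h i) ω = ∏ p : ↥(PP (N + H)), Loc h n p (Zp F p ω) := by
  obtain ⟨hn1, hn2⟩ := Finset.mem_Icc.mp hn
  have h1 : ∀ i, F i (n + h i) ω =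
      ∏ p ∈ PP (N + H), F i (p ^ (n + h i).factorization p) ω := fun i =>
    mult_eq_prod (f := fun m => F i m ω) (hF.one i ω) (hF.mul i ω) (by omega)
      (by have := hH i; omega)
  simp only [h1, Loc_Zp hF]
  rw [Finset.prod_comm]
  rw [← Finset.prod_coe_sort (PP (N + H))
    (fun p => ∏ i, F i (p ^ (n + h i).factorization p) ω)]

/-- the joint law of the values at the powers of the primes in a finite set -/
theorem map_pi (hF : RandMult P F) (M : ℕ) :
    P.map (fun ω (p : ↥(PP M)) => Zp F p ω) =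
      Measure.pi fun p : ↥(PP M) => P.map (Zp F p) := by
  have hinj : Injective (fun p : ↥(PP M) => (⟨p.1, (Finset.mem_filter.mp p.2).2⟩ : Nat.Primes)) := by
    intro p q hpq
    have := congrArg Subtype.val hpq
    exact Subtype.ext this
  have h1 : iIndepFun (fun (p : ↥(PP M)) => Zp F p) P := hF.indep.precomp hinj
  have h2 : ∀ p : ↥(PP M), AEMeasurable (Zp F (p : ℕ)) P := fun p =>
    (measurable_Zp hF p).aemeasurable
  exact (iIndepFun_iff_map_fun_eq_pi_map h2).mp h1

/-- the mean of the local factor at a large prime dividing `n + h i0` exactly -/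
theorem mean_loc (hF : RandMult P F) {h : Fin k → ℕ} (hinj : Injective h) {H : ℕ}
    (hH : ∀ i, h i ≤ H) (i0 : Fin k) {n p : ℕ} (hn : n ≠ 0) (hp : p.Prime) (hpH : H < p)
    (hd : p ∣ n + h i0) (hd2 : ¬ p ^ 2 ∣ n + h i0) :
    ∫ u, Loc h n p u ∂(P.map (Zp F p)) = ∫ ω, F i0 p ω ∂P := by
  rw [integral_map (measurable_Zp hF p).aemeasurable (measurable_Loc h n p).aestronglyMeasurable]
  refine integral_congr_ae (Filter.Eventually.of_forall fun ω => ?_)
  simp only
  rw [Loc_Zp hF]
  have hne : n + h i0 ≠ 0 := by omega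
  have h0 : (n + h i0).factorization p = 1 := by
    have h1 : 1 ≤ (n + h i0).factorization p := (hp.dvd_iff_one_le_factorization hne).mp hd
    have h2 : ¬ 2 ≤ (n + h i0).factorization p := fun h3 =>
      hd2 ((hp.pow_dvd_iff_le_factorization hne).mpr h3)
    omega
  rw [Finset.prod_eq_single i0]
  · rw [h0, pow_one]
  · intro i _ hi
    have h3 : ¬ p ∣ n + h i := by
      intro h4
      have h5 : h i ≠ h i0 := fun h6 => hi (hinj h6)
      have h7 := hH i
      have h8 := hH i0
      rcases Nat.lt_or_gt_of_ne h5 with h9 | h9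
      · have h10 : p ∣ (n + h i0) - (n + h i) := Nat.dvd_sub hd h4
        have := Nat.le_of_dvd (by omega) h10
        omega
      · have h10 : p ∣ (n + h i) - (n + h i0) := Nat.dvd_sub h4 hd
        have := Nat.le_of_dvd (by omega) h10
        omega
    rw [Nat.factorization_eq_zero_of_not_dvd h3, pow_zero, hF.one]
  · intro h; exact absurd (Finset.mem_univ i0) h

/-- **The concentration inequality for correlations of random multiplicative functions.** -/
theorem core (hF : RandMult P F) {h : Fin k → ℕ} (hinj : Injective h) {H : ℕ}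
    (hH : ∀ i, h i ≤ H) (i0 : Fin k) (g : ℕ → ℂ) (N y : ℕ) (hy : H ≤ y) {V t : ℝ} (hV : 0 < V)
    (ht : 0 ≤ t)
    (hc : ∑ p ∈ (PP (N + H)).filter (fun p => y < p),
      (2 * ∑ n ∈ (Icc 1 N).filter (fun n => ∃ i, p ∣ n + h i), ‖g n‖) ^ 2 ≤ V) :
    P.real {ω | (∑ n ∈ Icc 1 N, ‖g n‖ * GG (fun p => ‖∫ ω, F i0 p ω ∂P‖) y (n + h i0)) + 2 * t ≤
      ‖∑ n ∈ Icc 1 N, g n * ∏ i, F i (n + h i) ω‖} ≤ 4 * Real.exp (-(t ^ 2) / (2 * V)) := by
  classical
  have hprob : ∀ p : ↥(PP (N + H)), IsProbabilityMeasure (P.map (Zp F (p : ℕ))) := fun p =>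
    Measure.isProbabilityMeasure_map (measurable_Zp hF p).aemeasurable
  set J : Finset ↥(PP (N + H)) := univ.filter (fun p => y < (p : ℕ)) with hJ
  set D : ↥(PP (N + H)) → Finset ℕ := fun p => (Icc 1 N).filter (fun n => ∃ i, (p : ℕ) ∣ n + h i)
    with hD
  have hJV : ∑ p ∈ J, (2 * ∑ n ∈ D p, ‖g n‖) ^ 2 ≤ V := by
    refine le_trans (le_of_eq ?_) hc
    rw [hJ, Finset.sum_filter, Finset.sum_filter]
    rw [← Finset.sum_coe_sort (PP (N + H)) (fun p => if y < p then
      (2 * ∑ n ∈ (Icc 1 N).filter (fun n => ∃ i, p ∣ n + h i), ‖g n‖) ^ 2 else 0)]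
  have key := abs_tail (ν := fun p : ↥(PP (N + H)) => P.map (Zp F (p : ℕ))) (s := Icc 1 N)
    (w := g) (L := fun n p => Loc h n (p : ℕ)) (fun n p => measurable_Loc h n p)
    (fun n p u => norm_Loc_le h n p u) (D := D) (fun p => Finset.filter_subset _ _)
    (fun p n hn hnD u v => by
      have h1 : ∀ i, ¬ (p : ℕ) ∣ n + h i := by
        intro i hi
        exact hnD (Finset.mem_filter.mpr ⟨hn, i, hi⟩)
      unfold Loc
      refine Finset.prod_congr rfl fun i _ => ?_
      rw [if_pos (Nat.factorization_eq_zero_of_not_dvd (h1 i)),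
        if_pos (Nat.factorization_eq_zero_of_not_dvd (h1 i))]) J hV hJV ht
  set Z : Ω → ∀ p : ↥(PP (N + H)), (Fin k × ℕ → ℂ) := fun ω p => Zp F (p : ℕ) ω with hZ
  have hZm : Measurable Z := measurable_pi_lambda _ fun p => measurable_Zp hF p
  have hmap : P.map Z = Measure.pi fun p : ↥(PP (N + H)) => P.map (Zp F (p : ℕ)) := map_pi hF _
  rw [← hmap] at key
  refine le_trans ?_ key
  have hms : MeasurableSet {x : ∀ p : ↥(PP (N + H)), (Fin k × ℕ → ℂ) |
      (∑ n ∈ Icc 1 N, ‖g n‖ * ∏ p ∈ J, ‖Av (fun p : ↥(PP (N + H)) => P.map (Zp F (p : ℕ)))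
        (fun n p => Loc h n (p : ℕ)) n p‖) + 2 * t ≤
      ‖∑ n ∈ Icc 1 N, g n * ∏ p : ↥(PP (N + H)), Loc h n (p : ℕ) (x p)‖} := by
    refine measurableSet_le measurable_const (Measurable.norm ?_)
    refine Finset.measurable_fun_sum _ fun n _ => Measurable.const_mul ?_ _
    exact Finset.measurable_fun_prod _ fun p _ => (measurable_Loc h n p).comp (measurable_pi_apply p)
  rw [map_measureReal_apply hZm hms]
  refine measureReal_mono ?_
  intro ω hω
  simp only [Set.mem_preimage, Set.mem_setOf_eq] at hω ⊢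
  have e1 : ∑ n ∈ Icc 1 N, g n * ∏ i, F i (n + h i) ω =
      ∑ n ∈ Icc 1 N, g n * ∏ p : ↥(PP (N + H)), Loc h n (p : ℕ) (Z ω p) := by
    refine Finset.sum_congr rfl fun n hn => ?_
    rw [prod_eq hF h hH hn ω]
  rw [e1] at hω
  refine le_trans ?_ hω
  refine add_le_add ?_ le_rfl
  refine Finset.sum_le_sum fun n hn => mul_le_mul_of_nonneg_left ?_ (norm_nonneg _)
  obtain ⟨hn1, hn2⟩ := Finset.mem_Icc.mp hn
  have hne : n + h i0 ≠ 0 := by omega
  -- compare the two products
  have e2 : ∏ p ∈ J, ‖Av (fun p : ↥(PP (N + H)) => P.map (Zp F (p : ℕ)))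
        (fun n p => Loc h n (p : ℕ)) n p‖ =
      ∏ p ∈ (PP (N + H)).filter (fun p => y < p), ‖∫ u, Loc h n p u ∂(P.map (Zp F p))‖ := by
    rw [hJ, Finset.prod_filter, Finset.prod_filter]
    rw [← Finset.prod_coe_sort (PP (N + H)) (fun p => if y < p then
      ‖∫ u, Loc h n p u ∂(P.map (Zp F p))‖ else 1)]
    rfl
  rw [e2]
  unfold GG
  have hsub : (n + h i0).primeFactors.filter (fun p => y < p ∧ ¬ p ^ 2 ∣ n + h i0) ⊆
      (PP (N + H)).filter (fun p => y < p) := by
    intro p hp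
    rw [Finset.mem_filter, Nat.mem_primeFactors] at hp
    rw [Finset.mem_filter, Finset.mem_filter, Finset.mem_Icc]
    have h3 := Nat.le_of_dvd (Nat.pos_of_ne_zero hne) hp.1.2.1
    have h4 := hH i0
    exact ⟨⟨⟨hp.1.1.one_lt.le, by omega⟩, hp.1.1⟩, hp.2.1⟩
  rw [← Finset.prod_sdiff hsub]
  have e3 : ∏ p ∈ (n + h i0).primeFactors.filter (fun p => y < p ∧ ¬ p ^ 2 ∣ n + h i0),
      ‖∫ u, Loc h n p u ∂(P.map (Zp F p))‖ =
      ∏ p ∈ (n + h i0).primeFactors.filter (fun p => y < p ∧ ¬ p ^ 2 ∣ n + h i0),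
      ‖∫ ω, F i0 p ω ∂P‖ := by
    refine Finset.prod_congr rfl fun p hp => ?_
    rw [Finset.mem_filter, Nat.mem_primeFactors] at hp
    rw [mean_loc hF hinj hH i0 (by omega) hp.1.1 (by omega) hp.1.2.1 hp.2.2]
  rw [e3]
  refine mul_le_of_le_one_left (Finset.prod_nonneg fun _ _ => norm_nonneg _) ?_
  refine Finset.prod_le_one (fun _ _ => norm_nonneg _) fun p _ => ?_
  have hprob' : IsProbabilityMeasure (P.map (Zp F p)) :=
    Measure.isProbabilityMeasure_map (measurable_Zp hF p).aemeasurable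
  refine (norm_integral_le_of_norm_le_const (C := 1)
    (Filter.Eventually.of_forall fun u => norm_Loc_le h n p u)).trans ?_
  simp

end

end Pool.Agent.W5h23.CP
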