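import Pool.Agent.W5h23.CP.Core

/-!
# Concentration of correlations of random multiplicative functions along general sequences
-/

set_option autoImplicit false
set_option linter.unusedSectionVars false

open MeasureTheory ProbabilityTheory Function Finset

namespace Pool.Agent.W5h23.CP

/-- local factor at `p` of the correlation at `n` along the sequences `u i` -/
noncomputable def LocU {k : ℕ} (u : Fin k → ℕ → ℕ) (n p : ℕ) (v : Fin k × ℕ → ℂ) : ℂ :=
  ∏ i, if (u i n).factorization p = 0 then 1 else clip (v (i, (u i n).factorization p - 1))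

theorem norm_LocU_le {k : ℕ} (u : Fin k → ℕ → ℕ) (n p : ℕ) (v : Fin k × ℕ → ℂ) :
    ‖LocU u n p v‖ ≤ 1 := by
  unfold LocU
  rw [norm_prod]
  refine Finset.prod_le_one (fun _ _ => norm_nonneg _) fun i _ => ?_
  split_ifs
  · simp
  · exact norm_clip_le _

theorem measurable_LocU {k : ℕ} (u : Fin k → ℕ → ℕ) (n p : ℕ) : Measurable (LocU u n p) := by
  unfold LocU
  refine Finset.measurable_fun_prod _ fun i _ => ?_
  by_cases hi : (u i n).factorization p = 0
  · simp only [hi, if_true]; exact measurable_const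
  · simp only [hi, if_false]
    exact measurable_clip.comp (measurable_pi_apply _)

section

variable {Ω : Type} [MeasurableSpace Ω] {P : Measure Ω} [IsProbabilityMeasure P] {k : ℕ}
  {F : Fin k → ℕ → Ω → ℂ}

theorem LocU_Zp (hF : RandMult P F) (u : Fin k → ℕ → ℕ) (n p : ℕ) (ω : Ω) :
    LocU u n p (Zp F p ω) = ∏ i, F i (p ^ (u i n).factorization p) ω := by
  unfold LocU Zp
  refine Finset.prod_congr rfl fun i _ => ?_
  split_ifs with hi
  · rw [hi, pow_zero, hF.one]
  · rw [clip_of_le (hF.bdd _ _ _)]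
    simp only
    rw [Nat.sub_add_cancel (Nat.pos_of_ne_zero hi)]

theorem prodU_eq (hF : RandMult P F) (u : Fin k → ℕ → ℕ) {M n : ℕ}
    (hn : ∀ i, u i n ≠ 0 ∧ u i n ≤ M) (ω : Ω) :
    ∏ i, F i (u i n) ω = ∏ p : ↥(PP M), LocU u n p (Zp F p ω) := by
  have h1 : ∀ i, F i (u i n) ω =
      ∏ p ∈ PP M, F i (p ^ (u i n).factorization p) ω := fun i =>
    mult_eq_prod (f := fun m => F i m ω) (hF.one i ω) (hF.mul i ω) (hn i).1 (hn i).2
  simp only [h1, LocU_Zp hF]
  rw [Finset.prod_comm]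
  rw [← Finset.prod_coe_sort (PP M)
    (fun p => ∏ i, F i (p ^ (u i n).factorization p) ω)]

/-- the mean of the local factor at a large prime dividing `u i0 n` exactly, and no other -/
theorem meanU_loc (hF : RandMult P F) {u : Fin k → ℕ → ℕ} (i0 : Fin k) {n p : ℕ}
    (hn : u i0 n ≠ 0) (hp : p.Prime)
    (hd : p ∣ u i0 n) (hd2 : ¬ p ^ 2 ∣ u i0 n) (hsep : ∀ i, i ≠ i0 → ¬ p ∣ u i n) :
    ∫ v, LocU u n p v ∂(P.map (Zp F p)) = ∫ ω, F i0 p ω ∂P := by
  rw [integral_map (measurable_Zp hF p).aemeasurable (measurable_LocU u n p).aestronglyMeasurable]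
  refine integral_congr_ae (Filter.Eventually.of_forall fun ω => ?_)
  simp only
  rw [LocU_Zp hF]
  have h0 : (u i0 n).factorization p = 1 := by
    have h1 : 1 ≤ (u i0 n).factorization p := (hp.dvd_iff_one_le_factorization hn).mp hd
    have h2 : ¬ 2 ≤ (u i0 n).factorization p := fun h3 =>
      hd2 ((hp.pow_dvd_iff_le_factorization hn).mpr h3)
    omega
  rw [Finset.prod_eq_single i0]
  · rw [h0, pow_one]
  · intro i _ hi
    rw [Nat.factorization_eq_zero_of_not_dvd (hsep i hi), pow_zero, hF.one]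
  · intro h; exact absurd (Finset.mem_univ i0) h

/-- **The concentration inequality for correlations of random multiplicative functions along
general sequences.** -/
theorem coreU (hF : RandMult P F) (u : Fin k → ℕ → ℕ) (s : Finset ℕ) {M : ℕ}
    (hu : ∀ n ∈ s, ∀ i, u i n ≠ 0 ∧ u i n ≤ M) (i0 : Fin k) (g : ℕ → ℂ) (y : ℕ)
    (hsep : ∀ n ∈ s, ∀ p : ℕ, p.Prime → y < p → p ∣ u i0 n → ∀ i, i ≠ i0 → ¬ p ∣ u i n)
    {V t : ℝ} (hV : 0 < V) (ht : 0 ≤ t)
    (hc : ∑ p ∈ (PP M).filter (fun p : ℕ => y < p),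
      (2 * ∑ n ∈ s.filter (fun n => ∃ i, p ∣ u i n), ‖g n‖) ^ 2 ≤ V) :
    P.real {ω | (∑ n ∈ s, ‖g n‖ * GG (fun p => ‖∫ ω, F i0 p ω ∂P‖) y (u i0 n)) + 2 * t ≤
      ‖∑ n ∈ s, g n * ∏ i, F i (u i n) ω‖} ≤ 4 * Real.exp (-(t ^ 2) / (2 * V)) := by
  classical
  have hprob : ∀ p : ↥(PP M), IsProbabilityMeasure (P.map (Zp F (p : ℕ))) := fun p =>
    Measure.isProbabilityMeasure_map (measurable_Zp hF p).aemeasurable
  set J : Finset ↥(PP M) := univ.filter (fun p => y < (p : ℕ)) with hJ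
  set D : ↥(PP M) → Finset ℕ := fun p => s.filter (fun n => ∃ i, (p : ℕ) ∣ u i n)
    with hD
  have hJV : ∑ p ∈ J, (2 * ∑ n ∈ D p, ‖g n‖) ^ 2 ≤ V := by
    refine le_trans (le_of_eq ?_) hc
    rw [hJ, Finset.sum_filter, Finset.sum_filter]
    rw [← Finset.sum_coe_sort (PP M) (fun p => if y < p then
      (2 * ∑ n ∈ s.filter (fun n => ∃ i, p ∣ u i n), ‖g n‖) ^ 2 else 0)]
  have key := abs_tail (ν := fun p : ↥(PP M) => P.map (Zp F (p : ℕ))) (s := s)
    (w := g) (L := fun n p => LocU u n (p : ℕ)) (fun n p => measurable_LocU u n p)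
    (fun n p v => norm_LocU_le u n p v) (D := D) (fun p => Finset.filter_subset _ _)
    (fun p n hn hnD v v' => by
      have h1 : ∀ i, ¬ (p : ℕ) ∣ u i n := by
        intro i hi
        exact hnD (Finset.mem_filter.mpr ⟨hn, i, hi⟩)
      unfold LocU
      refine Finset.prod_congr rfl fun i _ => ?_
      rw [if_pos (Nat.factorization_eq_zero_of_not_dvd (h1 i)),
        if_pos (Nat.factorization_eq_zero_of_not_dvd (h1 i))]) J hV hJV ht
  set Z : Ω → ∀ p : ↥(PP M), (Fin k × ℕ → ℂ) := fun ω p => Zp F (p : ℕ) ω with hZ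
  have hZm : Measurable Z := measurable_pi_lambda _ fun p => measurable_Zp hF p
  have hmap : P.map Z = Measure.pi fun p : ↥(PP M) => P.map (Zp F (p : ℕ)) := map_pi hF _
  rw [← hmap] at key
  refine le_trans ?_ key
  have hms : MeasurableSet {x : ∀ p : ↥(PP M), (Fin k × ℕ → ℂ) |
      (∑ n ∈ s, ‖g n‖ * ∏ p ∈ J, ‖Av (fun p : ↥(PP M) => P.map (Zp F (p : ℕ)))
        (fun n p => LocU u n (p : ℕ)) n p‖) + 2 * t ≤
      ‖∑ n ∈ s, g n * ∏ p : ↥(PP M), LocU u n (p : ℕ) (x p)‖} := by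
    refine measurableSet_le measurable_const (Measurable.norm ?_)
    refine Finset.measurable_fun_sum _ fun n _ => Measurable.const_mul ?_ _
    exact Finset.measurable_fun_prod _ fun p _ => (measurable_LocU u n p).comp (measurable_pi_apply p)
  rw [map_measureReal_apply hZm hms]
  refine measureReal_mono ?_
  intro ω hω
  simp only [Set.mem_preimage, Set.mem_setOf_eq] at hω ⊢
  have e1 : ∑ n ∈ s, g n * ∏ i, F i (u i n) ω =
      ∑ n ∈ s, g n * ∏ p : ↥(PP M), LocU u n (p : ℕ) (Z ω p) := by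
    refine Finset.sum_congr rfl fun n hn => ?_
    rw [prodU_eq hF u (hu n hn) ω]
  rw [e1] at hω
  refine le_trans ?_ hω
  refine add_le_add ?_ le_rfl
  refine Finset.sum_le_sum fun n hn => mul_le_mul_of_nonneg_left ?_ (norm_nonneg _)
  have hne : u i0 n ≠ 0 := (hu n hn i0).1
  -- compare the two products
  have e2 : ∏ p ∈ J, ‖Av (fun p : ↥(PP M) => P.map (Zp F (p : ℕ)))
        (fun n p => LocU u n (p : ℕ)) n p‖ =
      ∏ p ∈ (PP M).filter (fun p : ℕ => y < p), ‖∫ v, LocU u n p v ∂(P.map (Zp F p))‖ := by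
    rw [hJ, Finset.prod_filter, Finset.prod_filter]
    rw [← Finset.prod_coe_sort (PP M) (fun p => if y < p then
      ‖∫ v, LocU u n p v ∂(P.map (Zp F p))‖ else 1)]
    rfl
  rw [e2]
  unfold GG
  have hsub : (u i0 n).primeFactors.filter (fun p => y < p ∧ ¬ p ^ 2 ∣ u i0 n) ⊆
      (PP M).filter (fun p : ℕ => y < p) := by
    intro p hp
    rw [Finset.mem_filter, Nat.mem_primeFactors] at hp
    rw [Finset.mem_filter, Finset.mem_filter, Finset.mem_Icc]
    have h3 := Nat.le_of_dvd (Nat.pos_of_ne_zero hne) hp.1.2.1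
    exact ⟨⟨⟨hp.1.1.one_lt.le, h3.trans (hu n hn i0).2⟩, hp.1.1⟩, hp.2.1⟩
  rw [← Finset.prod_sdiff hsub]
  have e3 : ∏ p ∈ (u i0 n).primeFactors.filter (fun p => y < p ∧ ¬ p ^ 2 ∣ u i0 n),
      ‖∫ v, LocU u n p v ∂(P.map (Zp F p))‖ =
      ∏ p ∈ (u i0 n).primeFactors.filter (fun p => y < p ∧ ¬ p ^ 2 ∣ u i0 n),
      ‖∫ ω, F i0 p ω ∂P‖ := by
    refine Finset.prod_congr rfl fun p hp => ?_
    rw [Finset.mem_filter, Nat.mem_primeFactors] at hp
    rw [meanU_loc hF i0 hne hp.1.1 hp.1.2.1 hp.2.2 (hsep n hn p hp.1.1 hp.2.1 hp.1.2.1)]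
  rw [e3]
  refine mul_le_of_le_one_left (Finset.prod_nonneg fun _ _ => norm_nonneg _) ?_
  refine Finset.prod_le_one (fun _ _ => norm_nonneg _) fun p _ => ?_
  have hprob' : IsProbabilityMeasure (P.map (Zp F p)) :=
    Measure.isProbabilityMeasure_map (measurable_Zp hF p).aemeasurable
  refine (norm_integral_le_of_norm_le_const (C := 1)
    (Filter.Eventually.of_forall fun v => norm_LocU_le u n p v)).trans ?_
  simp

end

end Pool.Agent.W5h23.CP
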