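import Pool.Agent.W5h23.CP.AS

/-!
# Uniformity over shifts and over finite families of weights
-/

set_option autoImplicit false
set_option linter.unusedSectionVars false

open MeasureTheory ProbabilityTheory Function Finset Filter Topology

namespace Pool.Agent.W5h23.CP

/-- one scale, uniformly over the shifts `≤ H` and a finite set of weights -/
theorem one_scale_family : ∃ C : ℝ, 0 < C ∧ ∀ {Ω : Type} [MeasurableSpace Ω] (P : Measure Ω)
    [IsProbabilityMeasure P] {k : ℕ} {F : Fin k → ℕ → Ω → ℂ} (_ : RandMult P F) (i0 : Fin k)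
    (𝒢 : Finset (ℕ → ℂ)) (_ : ∀ g ∈ 𝒢, ∀ n, ‖g n‖ ≤ 1) (N y H : ℕ) (_ : 1 ≤ N) (_ : 1 ≤ y)
    (_ : H ≤ N) (_ : H ≤ y) {ε : ℝ} (_ : 0 ≤ ε),
    P.real {ω | ∃ h : Fin k → ℕ, Injective h ∧ (∀ i, h i ≤ H) ∧ ∃ g ∈ 𝒢,
      C * Real.exp (-Dw (mn P F i0) y N) + ε ≤
      ‖Mn (fun n => g n * ∏ i, F i (n + h i) ω) N‖} ≤
      4 * ((H : ℝ) + 1) ^ k * (𝒢.card : ℝ) * Real.exp (-(ε ^ 2 * y / (128 * k ^ 2))) := by
  obtain ⟨C, hC, hone⟩ := one_scale2
  refine ⟨C, hC, ?_⟩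
  intro Ω _ P _ k F hF i0 𝒢 hg N y H hN hy hHN hHy ε hε
  classical
  set 𝓗 : Finset (Fin k → ℕ) := (Fintype.piFinset fun _ : Fin k => Finset.range (H + 1)).filter
    (fun h => Injective h) with h𝓗
  have hcard : (𝓗.card : ℝ) ≤ ((H : ℝ) + 1) ^ k := by
    have h1 : 𝓗.card ≤ (Fintype.piFinset fun _ : Fin k => Finset.range (H + 1)).card :=
      Finset.card_filter_le _ _
    rw [Fintype.card_piFinset, Finset.prod_const, Finset.card_range, Finset.card_univ,
      Fintype.card_fin] at h1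
    exact_mod_cast h1
  set B : (Fin k → ℕ) → (ℕ → ℂ) → Set Ω := fun h g =>
    {ω | C * Real.exp (-Dw (mn P F i0) y N) + ε ≤
      ‖Mn (fun n => g n * ∏ i, F i (n + h i) ω) N‖} with hB
  have e : {ω | ∃ h : Fin k → ℕ, Injective h ∧ (∀ i, h i ≤ H) ∧ ∃ g ∈ 𝒢,
      C * Real.exp (-Dw (mn P F i0) y N) + ε ≤
      ‖Mn (fun n => g n * ∏ i, F i (n + h i) ω) N‖} ⊆
      ⋃ q ∈ 𝓗 ×ˢ 𝒢, B q.1 q.2 := by
    rintro ω ⟨h, hinj, hH, g, hg', hω⟩
    simp only [Set.mem_iUnion, exists_prop]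
    refine ⟨(h, g), Finset.mem_product.mpr ⟨?_, hg'⟩, hω⟩
    rw [h𝓗, Finset.mem_filter, Fintype.mem_piFinset]
    exact ⟨fun i => Finset.mem_range.mpr (Nat.lt_succ_of_le (hH i)), hinj⟩
  refine (measureReal_mono e (measure_ne_top P _)).trans
    ((measureReal_biUnion_finset_le _ _).trans ?_)
  calc ∑ q ∈ 𝓗 ×ˢ 𝒢, P.real (B q.1 q.2)
      ≤ ∑ _q ∈ 𝓗 ×ˢ 𝒢, 4 * Real.exp (-(ε ^ 2 * y / (128 * k ^ 2))) := by
        refine Finset.sum_le_sum fun q hq => ?_
        obtain ⟨h1, h2⟩ := Finset.mem_product.mp hq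
        rw [h𝓗, Finset.mem_filter, Fintype.mem_piFinset] at h1
        exact hone P hF h1.2 (H := H) (fun i => by
          have := Finset.mem_range.mp (h1.1 i); omega) i0 (hg q.2 h2) N y hN hy hHN hHy hε
    _ = 4 * (𝓗.card : ℝ) * (𝒢.card : ℝ) * Real.exp (-(ε ^ 2 * y / (128 * k ^ 2))) := by
        rw [Finset.sum_const, nsmul_eq_mul, Finset.card_product]; push_cast; ring
    _ ≤ _ := by
        refine mul_le_mul_of_nonneg_right ?_ (Real.exp_pos _).le
        refine mul_le_mul_of_nonneg_right ?_ (Nat.cast_nonneg _)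
        exact mul_le_mul_of_nonneg_left hcard (by norm_num)

section

variable {Ω : Type} [MeasurableSpace Ω] {P : Measure Ω} [IsProbabilityMeasure P] {k : ℕ}
  {F : Fin k → ℕ → Ω → ℂ}

theorem family_eps (hF : RandMult P F) (i0 : Fin k)
    {w : ℕ → ℝ} (hw : ∀ᶠ N : ℕ in atTop, Real.log N ≤ w N)
    (hdiv : Tendsto (fun N : ℕ => Dw (mn P F i0) (w N) N) atTop atTop)
    {𝒢 : ℕ → Finset (ℕ → ℂ)} (hcard : ∀ᶠ N : ℕ in atTop, ((𝒢 N).card : ℝ) ≤ Real.exp (w N))
    (hg : ∀ N, ∀ g ∈ 𝒢 N, ∀ n, ‖g n‖ ≤ 1) {ε : ℝ} (hε : 0 < ε) :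
    ∀ᵐ ω ∂P, ∀ᶠ N : ℕ in atTop, ∀ h : Fin k → ℕ, Injective h → (∀ i, (h i : ℝ) ≤ w N) →
      ∀ g ∈ 𝒢 N, ‖Mn (fun n => g n * ∏ i, F i (n + h i) ω) N‖ < 2 * ε := by
  obtain ⟨C, hC, hone⟩ := one_scale_family
  have hk : 0 < k := lt_of_le_of_lt (Nat.zero_le _) i0.2
  have hk0 : (0 : ℝ) < k := by exact_mod_cast hk
  set K : ℝ := 128 * k ^ 2 * (k + 3) / ε ^ 2 + 1 with hK
  have hK0 : 0 < K := by positivity
  set y : ℕ → ℕ := fun N => ⌈K * w N⌉₊ with hy
  have hwN : ∀ᶠ N : ℕ in atTop, w N ≤ N := by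
    filter_upwards [hdiv.eventually_gt_atTop 0] with N hN
    by_contra hcon
    push Not at hcon
    have h1 : Dw (mn P F i0) (w N) N = 0 := by
      unfold Dw
      rw [Finset.filter_false_of_mem, Finset.sum_empty]
      intro p hp hlt
      have h2 := (Finset.mem_Icc.mp (Finset.mem_filter.mp hp).1).2
      have h3 : (p : ℝ) ≤ N := by exact_mod_cast h2
      linarith
    linarith
  set A : ℕ → Set Ω := fun N => {ω | ∃ h : Fin k → ℕ, Injective h ∧ (∀ i, h i ≤ ⌊w N⌋₊) ∧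
    ∃ g ∈ 𝒢 N, C * Real.exp (-Dw (mn P F i0) (y N : ℕ) N) + ε ≤
      ‖Mn (fun n => g n * ∏ i, F i (n + h i) ω) N‖} with hA
  obtain ⟨N0, hN0⟩ := eventually_atTop.mp
    (hw.and (hcard.and ((eventually_ge_atTop 3).and hwN)))
  have hPA : ∀ N, P.real (A (N + N0)) ≤ 4 * (1 / ((N + N0 : ℕ) : ℝ) ^ 2) := by
    intro N
    obtain ⟨h1w, h1c, h13, h1N⟩ := hN0 (N + N0) (Nat.le_add_left _ _)
    set M := N + N0 with hM
    have hM3 : (3 : ℝ) ≤ M := by exact_mod_cast h13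
    have hM0 : (0 : ℝ) < M := by linarith
    have hlN : 1 ≤ Real.log M := by
      rw [Real.le_log_iff_exp_le (by linarith)]
      have := Real.exp_one_lt_d9
      linarith
    have hw1 : 1 ≤ w M := hlN.trans h1w
    have h3 : K * w M ≤ (y M : ℝ) := by
      simp only [hy]
      exact Nat.le_ceil _
    have hwy : w M ≤ (y M : ℝ) := by
      have : w M ≤ K * w M := by
        have hK1 : 1 ≤ K := by
          rw [hK]
          have : 0 < 128 * (k : ℝ) ^ 2 * (k + 3) / ε ^ 2 := by positivity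
          linarith
        nlinarith
      linarith
    have hfl : ((⌊w M⌋₊ : ℕ) : ℝ) ≤ w M := Nat.floor_le (by linarith)
    have h1 := hone P hF i0 (𝒢 M) (hg M) M (y M) ⌊w M⌋₊ (by omega)
      (by
        have : (1 : ℝ) ≤ y M := by linarith
        exact_mod_cast this)
      (by exact_mod_cast hfl.trans h1N) (by exact_mod_cast hfl.trans hwy) hε.le
    refine le_trans h1 ?_
    have h2 : (1 : ℝ) / (M : ℝ) ^ 2 = Real.exp (-(2 * Real.log M)) := by
      rw [Real.exp_neg, two_mul, Real.exp_add, Real.exp_log hM0, one_div, sq]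
    have h4 : (k + 3) * w M ≤ ε ^ 2 * (y M : ℝ) / (128 * k ^ 2) := by
      rw [le_div_iff₀ (by positivity)]
      have h5 : ε ^ 2 * (K * w M) ≤ ε ^ 2 * (y M : ℝ) :=
        mul_le_mul_of_nonneg_left h3 (by positivity)
      have h6 : ε ^ 2 * (K * w M) = (k + 3) * w M * (128 * k ^ 2) + ε ^ 2 * w M := by
        rw [hK]; field_simp
      have h7 : 0 ≤ ε ^ 2 * w M := by positivity
      linarith
    have h5 : ((⌊w M⌋₊ : ℝ) + 1) ^ k ≤ Real.exp (k * w M) := by
      have h6 : (⌊w M⌋₊ : ℝ) + 1 ≤ Real.exp (w M) := by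
        have := Real.add_one_le_exp (w M)
        linarith
      calc ((⌊w M⌋₊ : ℝ) + 1) ^ k ≤ Real.exp (w M) ^ k :=
            pow_le_pow_left₀ (by positivity) h6 k
        _ = Real.exp (k * w M) := by rw [← Real.exp_nat_mul]
    rw [h2]
    calc 4 * ((⌊w M⌋₊ : ℝ) + 1) ^ k * ((𝒢 M).card : ℝ) *
          Real.exp (-(ε ^ 2 * (y M : ℝ) / (128 * k ^ 2)))
        ≤ 4 * Real.exp (k * w M) * Real.exp (w M) * Real.exp (-((k + 3) * w M)) := by
          refine mul_le_mul ?_ (Real.exp_le_exp.mpr (neg_le_neg h4))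
            (Real.exp_pos _).le (by positivity)
          refine mul_le_mul ?_ h1c (Nat.cast_nonneg _) (by positivity)
          exact mul_le_mul_of_nonneg_left h5 (by norm_num)
      _ = 4 * Real.exp (-(2 * w M)) := by
          rw [mul_assoc, mul_assoc, ← Real.exp_add, ← Real.exp_add]; congr 2; ring
      _ ≤ 4 * Real.exp (-(2 * Real.log M)) := by
          refine mul_le_mul_of_nonneg_left (Real.exp_le_exp.mpr ?_) (by norm_num)
          linarith
  have hsum : ∑' N, P (A (N + N0)) ≠ ⊤ := by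
    have h1 : ∀ N, P (A (N + N0)) ≤ ENNReal.ofReal (4 * (1 / ((N + N0 : ℕ) : ℝ) ^ 2)) := by
      intro N
      rw [← ENNReal.ofReal_toReal (measure_ne_top P (A (N + N0)))]
      exact ENNReal.ofReal_le_ofReal (hPA N)
    refine ne_top_of_le_ne_top ?_ (ENNReal.tsum_le_tsum h1)
    have hs : Summable (fun N : ℕ => 4 * (1 / ((N + N0 : ℕ) : ℝ) ^ 2)) := by
      have h2 : Summable (fun n : ℕ => 1 / (n : ℝ) ^ 2) :=
        Real.summable_one_div_nat_pow.2 (by norm_num)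
      exact ((summable_nat_add_iff N0).mpr h2).mul_left 4
    exact hs.tsum_ofReal_ne_top
  have hbc := ae_eventually_notMem hsum
  have hmean : ∀ᶠ N : ℕ in atTop,
      C * Real.exp (-Dw (mn P F i0) (y N : ℕ) N) < ε := by
    set K' : ℝ := K + 1 with hK'
    have hK'0 : 0 < K' := by positivity
    have h1 : ∀ᶠ N : ℕ in atTop, Dw (mn P F i0) (w N) N - K' ≤
        Dw (mn P F i0) (y N : ℕ) N := by
      filter_upwards [hw, eventually_ge_atTop 3] with N hwN hN3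
      have hN3' : (3 : ℝ) ≤ N := by exact_mod_cast hN3
      have hlN : 1 ≤ Real.log N := by
        rw [Real.le_log_iff_exp_le (by linarith)]
        have := Real.exp_one_lt_d9
        linarith
      have hw1 : 1 ≤ w N := hlN.trans hwN
      have h3 : ((y N : ℕ) : ℝ) ≤ K' * w N := by
        simp only [hy]
        have h4 := (Nat.ceil_lt_add_one (mul_nonneg hK0.le (by linarith : 0 ≤ w N))).le
        have h8 : K' * w N = K * w N + w N := by
          rw [hK']; ring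
        linarith
      have := Dw_window (a := mn P F i0) (mn_nonneg i0) (mn_le_one hF i0) (by linarith : 0 < w N)
        hK'0.le h3 N
      linarith
    have h2 : Tendsto (fun N : ℕ => Dw (mn P F i0) (y N : ℕ) N) atTop atTop := by
      refine tendsto_atTop_mono' atTop h1 ?_
      exact tendsto_atTop_add_const_right _ (-K') hdiv
    have h3 : Tendsto (fun N : ℕ => C * Real.exp (-Dw (mn P F i0) (y N : ℕ) N))
        atTop (𝓝 (C * 0)) := by
      refine Tendsto.const_mul _ ?_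
      exact Real.tendsto_exp_atBot.comp (tendsto_neg_atTop_atBot.comp h2)
    rw [mul_zero] at h3
    exact h3.eventually (gt_mem_nhds hε)
  filter_upwards [hbc] with ω hω
  have hω' : ∀ᶠ N : ℕ in atTop, ω ∉ A N := by
    obtain ⟨N1, hN1⟩ := eventually_atTop.mp hω
    refine eventually_atTop.mpr ⟨N1 + N0, fun N hN => ?_⟩
    have := hN1 (N - N0) (by omega)
    rwa [Nat.sub_add_cancel (by omega)] at this
  filter_upwards [hω', hmean] with N hN hN' h hinj hh g hg'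
  by_contra hcon
  refine hN ?_
  simp only [hA, Set.mem_setOf_eq]
  exact ⟨h, hinj, fun i => Nat.le_floor (hh i), g, hg', by linarith [not_lt.mp hcon]⟩

/-- **Almost sure decay, uniformly over shifts and finite families of weights.** -/
theorem families (hF : RandMult P F) (i0 : Fin k)
    {w : ℕ → ℝ} (hw : ∀ᶠ N : ℕ in atTop, Real.log N ≤ w N)
    (hdiv : Tendsto (fun N : ℕ => Dw (mn P F i0) (w N) N) atTop atTop)
    {𝒢 : ℕ → Finset (ℕ → ℂ)} (hcard : ∀ᶠ N : ℕ in atTop, ((𝒢 N).card : ℝ) ≤ Real.exp (w N))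
    (hg : ∀ N, ∀ g ∈ 𝒢 N, ∀ n, ‖g n‖ ≤ 1) :
    ∀ᵐ ω ∂P, ∀ ε : ℝ, 0 < ε → ∀ᶠ N : ℕ in atTop, ∀ h : Fin k → ℕ, Injective h →
      (∀ i, (h i : ℝ) ≤ w N) → ∀ g ∈ 𝒢 N,
      ‖Mn (fun n => g n * ∏ i, F i (n + h i) ω) N‖ ≤ ε := by
  have h1 : ∀ᵐ ω ∂P, ∀ m : ℕ, ∀ᶠ N : ℕ in atTop, ∀ h : Fin k → ℕ, Injective h →
      (∀ i, (h i : ℝ) ≤ w N) → ∀ g ∈ 𝒢 N,
      ‖Mn (fun n => g n * ∏ i, F i (n + h i) ω) N‖ < 2 * (1 / ((m : ℝ) + 1)) := by
    rw [ae_all_iff]
    intro m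
    exact family_eps hF i0 hw hdiv hcard hg (by positivity)
  filter_upwards [h1] with ω hω ε hε
  obtain ⟨m, hm⟩ := exists_nat_one_div_lt (half_pos hε)
  filter_upwards [hω m] with N hN h hinj hh g hg'
  have := hN h hinj hh g hg'
  linarith

end

end Pool.Agent.W5h23.CP
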