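import Mathlib
import Pool.Agent.Helper256.KM.Mertens

/-!
# An upper bound for the mean of a multiplicative function with values in `[0, 1]`
-/

set_option autoImplicit false

open Finset

namespace Pool.Agent.W5h23.CP

/-- multiplicative functions with values in `[0, 1]` -/
structure Mult01 (G : ℕ → ℝ) : Prop where
  nonneg : ∀ n, 0 ≤ G n
  le_one : ∀ n, G n ≤ 1
  one : G 1 = 1
  mul : ∀ m n, Nat.Coprime m n → G (m * n) = G m * G n

/-- the logarithm on prime powers -/
noncomputable def lam (d : ℕ) : ℝ := by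
  classical exact if IsPrimePow d then Real.log d else 0

theorem lam_nonneg (d : ℕ) : 0 ≤ lam d := by
  unfold lam
  split_ifs
  · exact Real.log_natCast_nonneg d
  · exact le_rfl

theorem exists_lam : ∃ C : ℝ, 0 < C ∧ ∀ z : ℕ, ∑ d ∈ Ioc 0 z, lam d ≤ C * z := by
  have hl2 : 0 < Real.log 2 := Real.log_pos (by norm_num)
  refine ⟨Real.log 4 + 32 / Real.log 2, by positivity, fun z => ?_⟩
  rcases Nat.eq_zero_or_pos z with rfl | hz
  · simp
  have hz1 : (1 : ℝ) ≤ z := by exact_mod_cast hz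
  have hz0 : (0 : ℝ) < z := by linarith
  have hlz : 0 ≤ Real.log z := Real.log_nonneg hz1
  have h1 : ∑ d ∈ Ioc 0 z, lam d ≤ ∑ d ∈ (Ioc 0 z).filter Nat.Prime, Real.log d +
      Real.log z / Real.log 2 * ∑ d ∈ (Ioc 0 z).filter (fun d => ¬ d.Prime),
        ArithmeticFunction.vonMangoldt d := by
    rw [← Finset.sum_filter_add_sum_filter_not (Ioc 0 z) Nat.Prime, Finset.mul_sum]
    refine add_le_add (Finset.sum_le_sum fun d _ => ?_) (Finset.sum_le_sum fun d hd => ?_)
    · unfold lam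
      split_ifs
      · exact le_rfl
      · exact Real.log_natCast_nonneg d
    · rw [Finset.mem_filter, Finset.mem_Ioc] at hd
      unfold lam
      have hnn : 0 ≤ Real.log z / Real.log 2 * ArithmeticFunction.vonMangoldt d :=
        mul_nonneg (div_nonneg hlz hl2.le) ArithmeticFunction.vonMangoldt_nonneg
      split_ifs with hpp
      · have h2 : Real.log 2 ≤ ArithmeticFunction.vonMangoldt d := by
          rw [ArithmeticFunction.vonMangoldt_apply, if_pos hpp]
          exact Real.log_le_log (by norm_num) (by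
            exact_mod_cast (Nat.minFac_prime hpp.ne_one).two_le)
        have h3 : Real.log d ≤ Real.log z :=
          Real.log_le_log (by exact_mod_cast hd.1.1) (by exact_mod_cast hd.1.2)
        calc Real.log d ≤ Real.log z := h3
          _ = Real.log z / Real.log 2 * Real.log 2 := by field_simp
          _ ≤ _ := mul_le_mul_of_nonneg_left h2 (div_nonneg hlz hl2.le)
      · exact hnn
  have h2 : ∑ d ∈ (Ioc 0 z).filter Nat.Prime, Real.log d ≤ Real.log 4 * z := by
    have := Chebyshev.theta_le_log4_mul_x (x := (z : ℝ)) hz0.le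
    rwa [Chebyshev.theta, Nat.floor_natCast] at this
  have h3 : ∑ d ∈ (Ioc 0 z).filter (fun d => ¬ d.Prime), ArithmeticFunction.vonMangoldt d ≤
      2 * Real.sqrt z * Real.log z := by
    have h4 := Chebyshev.psi_sub_theta_le (x := (z : ℝ)) hz1
    rwa [Chebyshev.psi_sub_theta_eq_sum_not_prime, Nat.floor_natCast] at h4
  have h5 : Real.log z ≤ 4 * Real.sqrt (Real.sqrt z) := by
    have hs : 0 < Real.sqrt (Real.sqrt z) := Real.sqrt_pos.2 (Real.sqrt_pos.2 hz0)
    have h6 : Real.log (Real.sqrt (Real.sqrt z)) ≤ Real.sqrt (Real.sqrt z) - 1 :=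
      Real.log_le_sub_one_of_pos hs
    rw [Real.log_sqrt (Real.sqrt_nonneg _), Real.log_sqrt hz0.le] at h6
    linarith
  have h7 : Real.log z ^ 2 ≤ 16 * Real.sqrt z := by
    have h8 : Real.log z ^ 2 ≤ (4 * Real.sqrt (Real.sqrt z)) ^ 2 := pow_le_pow_left₀ hlz h5 2
    rw [mul_pow, Real.sq_sqrt (Real.sqrt_nonneg _)] at h8
    linarith
  have h9 : Real.log z / Real.log 2 * (2 * Real.sqrt z * Real.log z) ≤ 32 / Real.log 2 * z := by
    have h10 : Real.log z / Real.log 2 * (2 * Real.sqrt z * Real.log z) =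
        2 / Real.log 2 * (Real.sqrt z * Real.log z ^ 2) := by ring
    rw [h10]
    have h11 : Real.sqrt z * Real.log z ^ 2 ≤ Real.sqrt z * (16 * Real.sqrt z) :=
      mul_le_mul_of_nonneg_left h7 (Real.sqrt_nonneg _)
    have h12 : Real.sqrt z * (16 * Real.sqrt z) = 16 * z := by
      have := Real.mul_self_sqrt hz0.le
      linear_combination 16 * this
    rw [h12] at h11
    calc 2 / Real.log 2 * (Real.sqrt z * Real.log z ^ 2) ≤ 2 / Real.log 2 * (16 * z) :=
          mul_le_mul_of_nonneg_left h11 (by positivity)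
      _ = 32 / Real.log 2 * z := by ring
  calc ∑ d ∈ Ioc 0 z, lam d ≤ Real.log 4 * z + Real.log z / Real.log 2 *
        (2 * Real.sqrt z * Real.log z) := by
        refine h1.trans (add_le_add h2 (mul_le_mul_of_nonneg_left h3 (div_nonneg hlz hl2.le)))
    _ ≤ Real.log 4 * z + 32 / Real.log 2 * z := by linarith
    _ = _ := by ring

variable {G : ℕ → ℝ}

theorem mul_log_le (hG : Mult01 G) {m : ℕ} (hm : m ≠ 0) :
    G m * Real.log m ≤ ∑ n ∈ m.divisors, lam (m / n) * G n := by
  rw [← Nat.sum_div_divisors]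
  have e1 : ∑ d ∈ m.divisors, lam (m / (m / d)) * G (m / d) =
      ∑ d ∈ m.divisors, lam d * G (m / d) := by
    refine Finset.sum_congr rfl fun d hd => ?_
    rw [Nat.div_div_self (Nat.dvd_of_mem_divisors hd) hm]
  rw [e1]
  have h1 : Real.log m = ∑ p ∈ m.primeFactors, Real.log ((p ^ m.factorization p : ℕ) : ℝ) := by
    conv_lhs => rw [← Nat.prod_factorization_pow_eq_self hm]
    rw [Finsupp.prod, Nat.support_factorization]
    push_cast
    rw [Real.log_prod]
    intro p hp
    have := (Nat.prime_of_mem_primeFactors hp).pos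
    positivity
  rw [h1, Finset.mul_sum]
  have hinj : Set.InjOn (fun p => p ^ m.factorization p) (m.primeFactors : Set ℕ) := by
    intro p hp q hq hpq
    have hp' := Nat.prime_of_mem_primeFactors (Finset.mem_coe.mp hp)
    have hq' := Nat.prime_of_mem_primeFactors (Finset.mem_coe.mp hq)
    have h2 : m.factorization p ≠ 0 := by
      have := (hp'.dvd_iff_one_le_factorization hm).mp
        (Nat.dvd_of_mem_primeFactors (Finset.mem_coe.mp hp))
      omega
    have h3 : p ∣ q ^ m.factorization q := by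
      have : p ∣ p ^ m.factorization p := dvd_pow_self p h2
      have e : p ^ m.factorization p = q ^ m.factorization q := hpq
      rwa [e] at this
    exact (Nat.prime_dvd_prime_iff_eq hp' hq').mp (hp'.dvd_of_dvd_pow h3)
  have h2 : ∑ p ∈ m.primeFactors, G m * Real.log ((p ^ m.factorization p : ℕ) : ℝ) ≤
      ∑ p ∈ m.primeFactors, lam (p ^ m.factorization p) * G (m / p ^ m.factorization p) := by
    refine Finset.sum_le_sum fun p hp => ?_
    have hp' := Nat.prime_of_mem_primeFactors hp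
    have h3 : m.factorization p ≠ 0 := by
      have := (hp'.dvd_iff_one_le_factorization hm).mp (Nat.dvd_of_mem_primeFactors hp)
      omega
    have hpp : IsPrimePow (p ^ m.factorization p) := hp'.isPrimePow.pow h3
    have h4 : lam (p ^ m.factorization p) = Real.log ((p ^ m.factorization p : ℕ) : ℝ) := by
      unfold lam
      rw [if_pos hpp]
    have h5 : m = p ^ m.factorization p * (m / p ^ m.factorization p) :=
      (Nat.ordProj_mul_ordCompl_eq_self m p).symm
    have h6 : G m = G (p ^ m.factorization p) * G (m / p ^ m.factorization p) := by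
      conv_lhs => rw [h5]
      exact hG.mul _ _ (Nat.Coprime.pow_left _ (Nat.coprime_ordCompl hp' hm))
    rw [h4, h6]
    have h7 : G (p ^ m.factorization p) * G (m / p ^ m.factorization p) ≤
        G (m / p ^ m.factorization p) := mul_le_of_le_one_left (hG.nonneg _) (hG.le_one _)
    rw [mul_comm (Real.log _)]
    exact mul_le_mul_of_nonneg_right h7 (Real.log_natCast_nonneg _)
  refine h2.trans ?_
  rw [← Finset.sum_image (f := fun d => lam d * G (m / d)) hinj]
  refine Finset.sum_le_sum_of_subset_of_nonneg ?_ fun d _ _ =>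
    mul_nonneg (lam_nonneg d) (hG.nonneg _)
  intro d hd
  obtain ⟨p, hp, rfl⟩ := Finset.mem_image.mp hd
  rw [Nat.mem_divisors]
  exact ⟨Nat.ordProj_dvd m p, hm⟩

theorem sum_log (hG : Mult01 G) {C : ℝ} (hC : ∀ z : ℕ, ∑ d ∈ Ioc 0 z, lam d ≤ C * z)
    (hC0 : 0 < C) (Y : ℕ) : ∑ m ∈ Icc 1 Y, G m * Real.log m ≤ C * Y * ∑ m ∈ Icc 1 Y, G m / m := by
  have h1 : ∀ m ∈ Icc 1 Y, G m * Real.log m ≤ ∑ n ∈ m.divisors, lam (m / n) * G n := by
    intro m hm
    have hm0 : m ≠ 0 := by have := (Finset.mem_Icc.mp hm).1; omega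
    exact mul_log_le hG hm0
  refine (Finset.sum_le_sum h1).trans ?_
  have h2 : ∑ m ∈ Icc 1 Y, ∑ n ∈ m.divisors, lam (m / n) * G n =
      ∑ n ∈ Icc 1 Y, ∑ m ∈ (Icc 1 Y).filter (fun m => n ∣ m), lam (m / n) * G n := by
    apply Finset.sum_comm'
    intro m n
    simp only [Finset.mem_Icc, Nat.mem_divisors, Finset.mem_filter]
    constructor
    · rintro ⟨⟨h1, h2⟩, h3, h4⟩
      have := Nat.le_of_dvd (by omega) h3
      have h5 : 0 < n := Nat.pos_of_dvd_of_pos h3 (by omega)
      exact ⟨⟨⟨h1, h2⟩, h3⟩, by omega, by omega⟩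
    · rintro ⟨⟨⟨h1, h2⟩, h3⟩, h4, h5⟩
      exact ⟨⟨h1, h2⟩, h3, by omega⟩
  rw [h2, Finset.mul_sum]
  refine Finset.sum_le_sum fun n hn => ?_
  have hn1 : 1 ≤ n := (Finset.mem_Icc.mp hn).1
  have hn0 : (0 : ℝ) < n := by exact_mod_cast hn1
  rw [← Finset.sum_mul]
  have h3 : ∑ m ∈ (Icc 1 Y).filter (fun m => n ∣ m), lam (m / n) =
      ∑ d ∈ Ioc 0 (Y / n), lam d := by
    apply Finset.sum_nbij' (fun m => m / n) (fun d => d * n)
    · intro m hm
      simp only [Finset.mem_filter, Finset.mem_Icc] at hm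
      obtain ⟨⟨h1, h2⟩, h3⟩ := hm
      simp only [Finset.mem_Ioc]
      exact ⟨Nat.div_pos (Nat.le_of_dvd (by omega) h3) (by omega), Nat.div_le_div_right h2⟩
    · intro d hd
      simp only [Finset.mem_Ioc] at hd
      simp only [Finset.mem_filter, Finset.mem_Icc]
      refine ⟨⟨Nat.mul_pos hd.1 (by omega), ?_⟩, Dvd.intro_left _ rfl⟩
      exact (Nat.le_div_iff_mul_le (by omega)).mp hd.2
    · intro m hm
      simp only [Finset.mem_filter] at hm
      exact Nat.div_mul_cancel hm.2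
    · intro d _
      exact Nat.mul_div_cancel _ (by omega)
    · intro m _; rfl
  have h4 : ∑ d ∈ Ioc 0 (Y / n), lam d ≤ C * (Y / n) :=
    (hC _).trans (mul_le_mul_of_nonneg_left Nat.cast_div_le hC0.le)
  rw [h3]
  calc (∑ d ∈ Ioc 0 (Y / n), lam d) * G n
      ≤ C * (Y / n) * G n := mul_le_mul_of_nonneg_right h4 (hG.nonneg n)
    _ = C * Y * (G n / n) := by ring

theorem sum_all (hG : Mult01 G) {C : ℝ} (hC : ∀ z : ℕ, ∑ d ∈ Ioc 0 z, lam d ≤ C * z)
    (hC0 : 0 < C) (Y : ℕ) (hY : 1 ≤ Y) : (∑ m ∈ Icc 1 Y, G m) * Real.log Y ≤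
    (C + 1) * Y * ∑ m ∈ Icc 1 Y, G m / m := by
  have h1 : (∑ m ∈ Icc 1 Y, G m) * Real.log Y ≤
      ∑ m ∈ Icc 1 Y, G m * Real.log m + Y * ∑ m ∈ Icc 1 Y, G m / m := by
    rw [Finset.sum_mul, Finset.mul_sum, ← Finset.sum_add_distrib]
    refine Finset.sum_le_sum fun m hm => ?_
    obtain ⟨hm1, hm2⟩ := Finset.mem_Icc.mp hm
    have hm0 : (0 : ℝ) < m := by exact_mod_cast hm1
    have hY0 : (0 : ℝ) < Y := by exact_mod_cast hY
    have h2 : Real.log Y - Real.log m ≤ Y / m := by
      rw [← Real.log_div hY0.ne' hm0.ne']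
      have := Real.log_le_sub_one_of_pos (show (0 : ℝ) < Y / m by positivity)
      linarith
    have h3 := mul_le_mul_of_nonneg_left h2 (hG.nonneg m)
    have h4 : (Y : ℝ) * (G m / m) = G m * (Y / m) := by ring
    rw [h4]
    nlinarith
  have h2 := sum_log hG hC hC0 Y
  linarith

/-- the Euler product bound -/
theorem euler (hG : Mult01 G) (Y : ℕ) : ∑ m ∈ Icc 1 Y, G m / m ≤
    ∏ p ∈ (Y + 1).primesBelow, (1 + G p / p + 2 / (p : ℝ) ^ 2) := by
  set f : ℕ → ℝ := fun m => G m / m with hf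
  have hf1 : f 1 = 1 := by simp [hf, hG.one]
  have hmul : ∀ {m n : ℕ}, Nat.Coprime m n → f (m * n) = f m * f n := by
    intro m n h
    simp only [hf]
    rw [hG.mul m n h]; push_cast; ring
  have hfpos : ∀ m, 0 ≤ f m := fun m => div_nonneg (hG.nonneg m) (Nat.cast_nonneg _)
  have hle : ∀ m, f m ≤ 1 / m := fun m => by
    simp only [hf]
    exact div_le_div_of_nonneg_right (hG.le_one m) (Nat.cast_nonneg _)
  have hle' : ∀ p n : ℕ, f (p ^ n) ≤ (1 / p : ℝ) ^ n := fun p n => by
    refine (hle _).trans (le_of_eq ?_)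
    push_cast; rw [one_div_pow]
  have hgeo : ∀ {p : ℕ}, p.Prime → Summable (fun n : ℕ => (1 / p : ℝ) ^ n) := fun {p} hp =>
    summable_geometric_of_lt_one (by positivity) (by
      rw [div_lt_one (by exact_mod_cast hp.pos)]; exact_mod_cast hp.one_lt)
  have hsum : ∀ {p : ℕ}, p.Prime → Summable (fun n : ℕ => ‖f (p ^ n)‖) := fun {p} hp => by
    refine Summable.of_nonneg_of_le (fun n => norm_nonneg _) (fun n => ?_) (hgeo hp)
    rw [Real.norm_of_nonneg (hfpos _)]
    exact hle' p n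
  obtain ⟨hs, hh⟩ := EulerProduct.summable_and_hasSum_smoothNumbers_prod_primesBelow_tsum
    hf1 hmul hsum (Y + 1)
  have hprod : ∏ p ∈ (Y + 1).primesBelow, ∑' n : ℕ, f (p ^ n) ≤
      ∏ p ∈ (Y + 1).primesBelow, (1 + G p / p + 2 / (p : ℝ) ^ 2) := by
    refine Finset.prod_le_prod (fun p _ => tsum_nonneg fun n => hfpos _) (fun p hp => ?_)
    have hpp : p.Prime := Nat.prime_of_mem_primesBelow hp
    have hp2 : (2 : ℝ) ≤ p := by exact_mod_cast hpp.two_le
    have hsp : Summable (fun n : ℕ => f (p ^ n)) := (hsum hpp).of_norm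
    rw [hsp.tsum_eq_zero_add, ((summable_nat_add_iff 1).mpr hsp).tsum_eq_zero_add]
    have h2 : ∑' n : ℕ, f (p ^ (n + 1 + 1)) ≤ 2 / (p : ℝ) ^ 2 := by
      have hs2 : Summable (fun n : ℕ => f (p ^ (n + 1 + 1))) :=
        (summable_nat_add_iff (f := fun n : ℕ => f (p ^ (n + 1))) 1).mpr
          ((summable_nat_add_iff (f := fun n : ℕ => f (p ^ n)) 1).mpr hsp)
      have hg := hgeo hpp
      have h3 : ∑' n : ℕ, f (p ^ (n + 1 + 1)) ≤ ∑' n : ℕ, (1 / p : ℝ) ^ 2 * (1 / p : ℝ) ^ n := by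
        refine hs2.tsum_le_tsum (fun n => ?_) (hg.mul_left _)
        refine (hle' p _).trans (le_of_eq ?_)
        ring
      refine h3.trans ?_
      rw [tsum_mul_left, tsum_geometric_of_lt_one (by positivity) (by
        rw [div_lt_one (by linarith)]; linarith)]
      have h4 : (1 - 1 / (p : ℝ))⁻¹ ≤ 2 := by
        rw [inv_le_comm₀ (by
          have : 1 / (p : ℝ) ≤ 1 / 2 := one_div_le_one_div_of_le (by norm_num) hp2
          linarith) (by norm_num)]
        have : 1 / (p : ℝ) ≤ 1 / 2 := one_div_le_one_div_of_le (by norm_num) hp2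
        norm_num at this ⊢
        linarith
      calc (1 / (p : ℝ)) ^ 2 * (1 - 1 / (p : ℝ))⁻¹ ≤ (1 / (p : ℝ)) ^ 2 * 2 :=
            mul_le_mul_of_nonneg_left h4 (by positivity)
        _ = 2 / (p : ℝ) ^ 2 := by rw [one_div_pow]; ring
    have e0 : f (p ^ 0) = 1 := by rw [pow_zero]; exact hf1
    have e1 : f (p ^ (0 + 1)) = G p / p := by
      rw [zero_add, pow_one]
    rw [e0, e1]
    linarith
  refine le_trans ?_ hprod
  rw [← hh.tsum_eq]
  have hsm : Summable (fun m : (Y + 1).smoothNumbers => f m) := hh.summable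
  have hinj : ∀ m ∈ Icc 1 Y, m ∈ (Y + 1).smoothNumbers := fun m hm => by
    obtain ⟨h1, h2⟩ := Finset.mem_Icc.mp hm
    exact Nat.mem_smoothNumbers_of_lt (by omega) (by omega)
  let S : Finset (Y + 1).smoothNumbers := (Icc 1 Y).subtype (fun m => m ∈ (Y + 1).smoothNumbers)
  have hS : ∑ m ∈ S, f m = ∑ m ∈ Icc 1 Y, f m := by
    rw [Finset.sum_subtype_of_mem f hinj]
  rw [← hS]
  exact hsm.sum_le_tsum S (fun m _ => hfpos _)

/-- the defect of `G` at the primes up to `Y` -/
noncomputable def Df (G : ℕ → ℝ) (Y : ℕ) : ℝ :=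
  ∑ p ∈ (Icc 1 Y).filter Nat.Prime, (1 - G p) / p

theorem sum_hp (Y : ℕ) : ∑ p ∈ (Y + 1).primesBelow, G p / p =
    ∑ p ∈ (Icc 1 Y).filter Nat.Prime, (1 : ℝ) / p - Df G Y := by
  have h0 : (Y + 1).primesBelow = (Icc 1 Y).filter Nat.Prime := by
    ext p
    simp only [Nat.mem_primesBelow, Finset.mem_filter, Finset.mem_Icc]
    constructor
    · rintro ⟨h1, h2⟩
      exact ⟨⟨h2.one_lt.le, by omega⟩, h2⟩
    · rintro ⟨⟨h1, h2⟩, h3⟩
      exact ⟨by omega, h3⟩
  unfold Df
  rw [h0, ← Finset.sum_sub_distrib]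
  refine Finset.sum_congr rfl fun p _ => ?_
  ring

theorem sum_harm (hG : Mult01 G) (Y : ℕ) : ∑ m ∈ Icc 1 Y, G m / m ≤
    Real.exp (∑ p ∈ (Icc 1 Y).filter Nat.Prime, (1 : ℝ) / p - Df G Y +
      2 * ∑' n : ℕ, 1 / (n : ℝ) ^ 2) := by
  refine (euler hG Y).trans ?_
  have h1 : ∏ p ∈ (Y + 1).primesBelow, (1 + G p / p + 2 / (p : ℝ) ^ 2) ≤
      ∏ p ∈ (Y + 1).primesBelow, Real.exp (G p / p + 2 / (p : ℝ) ^ 2) := by
    refine Finset.prod_le_prod (fun p _ => ?_) (fun p _ => ?_)
    · have := hG.nonneg p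
      positivity
    · have := Real.add_one_le_exp (G p / p + 2 / (p : ℝ) ^ 2)
      linarith
  refine h1.trans ?_
  rw [← Real.exp_sum, Real.exp_le_exp, Finset.sum_add_distrib, sum_hp]
  have hs : Summable (fun n : ℕ => 1 / (n : ℝ) ^ 2) := Real.summable_one_div_nat_pow.2 (by norm_num)
  have h2 : ∑ p ∈ (Y + 1).primesBelow, 2 / (p : ℝ) ^ 2 ≤ 2 * ∑' n : ℕ, 1 / (n : ℝ) ^ 2 := by
    have h3 := hs.sum_le_tsum (Y + 1).primesBelow (fun n _ => by positivity)
    have h4 : ∑ p ∈ (Y + 1).primesBelow, 2 / (p : ℝ) ^ 2 =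
        2 * ∑ p ∈ (Y + 1).primesBelow, 1 / (p : ℝ) ^ 2 := by
      rw [Finset.mul_sum]
      exact Finset.sum_congr rfl fun p _ => by ring
    rw [h4]
    linarith
  linarith

/-- **Upper bound for the mean of a multiplicative function with values in `[0, 1]`.** -/
theorem mean_mult : ∃ C : ℝ, 0 < C ∧ ∀ G : ℕ → ℝ, Mult01 G → ∀ Y : ℕ,
    ∑ m ∈ Icc 1 Y, G m ≤ C * Y * Real.exp (-Df G Y) := by
  obtain ⟨C1, hC1, hlam⟩ := exists_lam
  obtain ⟨C2, hC2⟩ := Pool.Agent.Helper256.KM.mertens_inv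
  set K : ℝ := 2 * ∑' n : ℕ, 1 / (n : ℝ) ^ 2 with hK
  set A : ℝ := C1 + 1 with hA
  have hA0 : 0 < A := by positivity
  refine ⟨A * Real.exp (C2 + K) + 3, by positivity, fun G hG Y => ?_⟩
  have hE : 0 < Real.exp (-Df G Y) := Real.exp_pos _
  rcases Nat.lt_or_ge Y 3 with h3 | h3
  · have hD : Df G Y ≤ 1 / 2 := by
      unfold Df
      have hsub : (Icc 1 Y).filter Nat.Prime ⊆ {2} := by
        intro q hq
        rw [Finset.mem_filter, Finset.mem_Icc] at hq
        have := hq.2.two_le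
        rw [Finset.mem_singleton]; omega
      refine (Finset.sum_le_sum_of_subset_of_nonneg hsub (fun i _ _ =>
        div_nonneg (by linarith [hG.le_one i]) (Nat.cast_nonneg _))).trans ?_
      rw [Finset.sum_singleton]
      have := hG.nonneg 2
      push_cast
      linarith
    have hexp : (1 / 2 : ℝ) ≤ Real.exp (-Df G Y) := by
      have h5 := Real.add_one_le_exp (-Df G Y)
      linarith
    have h5 : ∑ m ∈ Icc 1 Y, G m ≤ Y := by
      refine (Finset.sum_le_sum fun m _ => hG.le_one m).trans (le_of_eq ?_)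
      simp
    have h7 : 0 < A * Real.exp (C2 + K) := by positivity
    have hY0 : (0 : ℝ) ≤ Y := Nat.cast_nonneg _
    have h8 : (Y : ℝ) ≤ 3 * Y * Real.exp (-Df G Y) := by nlinarith
    refine h5.trans (h8.trans ?_)
    refine mul_le_mul_of_nonneg_right ?_ hE.le
    exact mul_le_mul_of_nonneg_right (by linarith) hY0
  · have hY0 : (0 : ℝ) < Y := by exact_mod_cast (by omega : 0 < Y)
    have hlog : 0 < Real.log Y := Real.log_pos (by exact_mod_cast (by omega : 1 < Y))
    have hM := (abs_le.mp (hC2 Y h3)).2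
    have hall := sum_all hG hlam hC1 Y (by omega)
    have hharm := sum_harm hG Y
    rw [← hK] at hharm
    have h5 : ∑ m ∈ Icc 1 Y, G m / m ≤
        Real.exp (C2 + K) * Real.log Y * Real.exp (-Df G Y) := by
      refine hharm.trans ?_
      have h6 : Real.exp (C2 + K) * Real.log Y * Real.exp (-Df G Y) =
          Real.exp (C2 + K + Real.log (Real.log Y) + -Df G Y) := by
        rw [Real.exp_add (C2 + K + Real.log (Real.log Y)), Real.exp_add (C2 + K) (Real.log _),
          Real.exp_log hlog]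
      rw [h6, Real.exp_le_exp]
      linarith
    have h6 : (∑ m ∈ Icc 1 Y, G m) * Real.log Y ≤
        (A * Y * (Real.exp (C2 + K) * Real.exp (-Df G Y))) * Real.log Y := by
      refine hall.trans ?_
      calc A * Y * ∑ m ∈ Icc 1 Y, G m / m
          ≤ A * Y * (Real.exp (C2 + K) * Real.log Y * Real.exp (-Df G Y)) :=
            mul_le_mul_of_nonneg_left h5 (by positivity)
        _ = _ := by ring
    have h7 := le_of_mul_le_mul_right h6 hlog
    refine h7.trans ?_
    calc A * Y * (Real.exp (C2 + K) * Real.exp (-Df G Y))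
        = A * Real.exp (C2 + K) * Y * Real.exp (-Df G Y) := by ring
      _ ≤ (A * Real.exp (C2 + K) + 3) * Y * Real.exp (-Df G Y) := by
          refine mul_le_mul_of_nonneg_right ?_ hE.le
          refine mul_le_mul_of_nonneg_right ?_ hY0.le
          linarith

end Pool.Agent.W5h23.CP
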