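import Pool.Agent.W5h23.CP.Core
import Pool.Agent.W5h23.CP.Mean

/-!
# The finite form: correlations at one scale
-/

set_option autoImplicit false
set_option linter.unusedSectionVars false

open MeasureTheory ProbabilityTheory Function Finset

namespace Pool.Agent.W5h23.CP

/-- the defect of `a` at the primes in `(y, Y]` -/
noncomputable def Dw (a : ℕ → ℝ) (y : ℝ) (Y : ℕ) : ℝ :=
  ∑ p ∈ (PP Y).filter (fun p : ℕ => y < (p : ℝ)), (1 - a p) / p

theorem GG_prime {a : ℕ → ℝ} {y p : ℕ} (hp : p.Prime) : GG a y p = if y < p then a p else 1 := by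
  unfold GG
  have h2 : ¬ p ^ 2 ∣ p := by
    intro h
    have h1 := Nat.le_of_dvd hp.pos h
    have h3 := hp.two_le
    nlinarith
  rw [hp.primeFactors, Finset.filter_singleton]
  by_cases h : y < p <;> simp [h2, h]

theorem GG_mul {a : ℕ → ℝ} {y m n : ℕ} (h : Nat.Coprime m n) :
    GG a y (m * n) = GG a y m * GG a y n := by
  unfold GG
  rw [Nat.Coprime.primeFactors_mul h, Finset.filter_union, Finset.prod_union]
  · congr 1
    · refine Finset.prod_congr ?_ fun _ _ => rfl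
      apply Finset.filter_congr
      intro q hq
      have hqp := Nat.prime_of_mem_primeFactors hq
      have hqm := Nat.dvd_of_mem_primeFactors hq
      have hcop : Nat.Coprime (q ^ 2) n := (Nat.Coprime.coprime_dvd_left hqm h).pow_left 2
      rw [hcop.dvd_mul_right]
    · refine Finset.prod_congr ?_ fun _ _ => rfl
      apply Finset.filter_congr
      intro q hq
      have hqp := Nat.prime_of_mem_primeFactors hq
      have hqm := Nat.dvd_of_mem_primeFactors hq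
      have hcop : Nat.Coprime (q ^ 2) m := (Nat.Coprime.coprime_dvd_left hqm h.symm).pow_left 2
      rw [hcop.dvd_mul_left]
  · exact Finset.disjoint_filter_filter h.disjoint_primeFactors

theorem mult01_GG {a : ℕ → ℝ} (ha0 : ∀ p, 0 ≤ a p) (ha1 : ∀ p, a p ≤ 1) (y : ℕ) :
    Mult01 (GG a y) where
  nonneg n := Finset.prod_nonneg fun p _ => ha0 p
  le_one n := Finset.prod_le_one (fun p _ => ha0 p) fun p _ => ha1 p
  one := by simp [GG]
  mul m n h := GG_mul h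

theorem Df_GG {a : ℕ → ℝ} (y Y : ℕ) : Df (GG a y) Y = Dw a y Y := by
  unfold Df Dw
  rw [Finset.sum_filter (s := PP Y)]
  refine Finset.sum_congr rfl fun p hp => ?_
  rw [GG_prime (Finset.mem_filter.mp hp).2]
  by_cases h : y < p
  · rw [if_pos h, if_pos (by exact_mod_cast h)]
  · rw [if_neg h, if_neg (by exact_mod_cast h)]
    simp

theorem Dw_mono {a : ℕ → ℝ} (ha1 : ∀ p, a p ≤ 1) (y : ℝ) {Y Y' : ℕ} (h : Y ≤ Y') :
    Dw a y Y ≤ Dw a y Y' := by
  unfold Dw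
  refine Finset.sum_le_sum_of_subset_of_nonneg ?_ fun p _ _ =>
    div_nonneg (by linarith [ha1 p]) (Nat.cast_nonneg _)
  intro p hp
  simp only [Finset.mem_filter, Finset.mem_Icc] at hp ⊢
  exact ⟨⟨⟨hp.1.1.1, hp.1.1.2.trans h⟩, hp.1.2⟩, hp.2⟩

/-- the mean bound for the shifted function -/
theorem mean_shift : ∃ C : ℝ, 0 < C ∧ ∀ a : ℕ → ℝ, (∀ p, 0 ≤ a p) → (∀ p, a p ≤ 1) →
    ∀ y N s : ℕ, ∑ n ∈ Icc 1 N, GG a y (n + s) ≤
      C * (N + s) * Real.exp (-Dw a y N) := by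
  obtain ⟨C, hC, h⟩ := mean_mult
  refine ⟨C, hC, fun a ha0 ha1 y N s => ?_⟩
  have hG := mult01_GG ha0 ha1 y
  have h1 : ∑ n ∈ Icc 1 N, GG a y (n + s) ≤ ∑ m ∈ Icc 1 (N + s), GG a y m := by
    have e : ∑ n ∈ Icc 1 N, GG a y (n + s) = ∑ m ∈ (Icc 1 N).image (· + s), GG a y m := by
      rw [Finset.sum_image]
      intro x _ x' _ hxx
      exact Nat.add_right_cancel hxx
    rw [e]
    refine Finset.sum_le_sum_of_subset_of_nonneg ?_ fun m _ _ => hG.nonneg m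
    intro m hm
    obtain ⟨n, hn, rfl⟩ := Finset.mem_image.mp hm
    rw [Finset.mem_Icc] at hn ⊢
    omega
  refine h1.trans ((h _ hG _).trans ?_)
  rw [Df_GG]
  push_cast
  refine mul_le_mul_of_nonneg_left (Real.exp_le_exp.mpr ?_) (by positivity)
  exact neg_le_neg (Dw_mono ha1 y (Nat.le_add_right N s))

theorem sum_inv_sq_le (y : ℕ) (hy : 1 ≤ y) (s : Finset ℕ) (hs : ∀ p ∈ s, y < p) :
    ∑ p ∈ s, (1 : ℝ) / (p : ℝ) ^ 2 ≤ 1 / y := by
  have h1 : ∀ M : ℕ, y ≤ M → ∑ p ∈ Ioc y M, (1 : ℝ) / (p : ℝ) ^ 2 ≤ 1 / y - 1 / M := by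
    intro M hM
    induction M, hM using Nat.le_induction with
    | base => simp
    | succ M hM ih =>
      have hM0 : (0 : ℝ) < M := by exact_mod_cast (by omega : 0 < M)
      have e : Ioc y (M + 1) = insert (M + 1) (Ioc y M) := by
        ext p
        simp only [Finset.mem_Ioc, Finset.mem_insert]
        omega
      rw [e, Finset.sum_insert (by simp)]
      have h2 : (1 : ℝ) / ((M + 1 : ℕ) : ℝ) ^ 2 ≤ 1 / M - 1 / ((M + 1 : ℕ) : ℝ) := by
        push_cast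
        rw [div_sub_div _ _ hM0.ne' (by positivity), div_le_div_iff₀ (by positivity) (by positivity)]
        nlinarith
      linarith
  obtain ⟨M, hM⟩ : ∃ M : ℕ, ∀ p ∈ s, p ≤ M := ⟨s.sup id, fun p hp => Finset.le_sup (f := id) hp⟩
  refine (Finset.sum_le_sum_of_subset_of_nonneg (t := Ioc y (max M y)) ?_
    fun _ _ _ => by positivity).trans ((h1 _ (le_max_right _ _)).trans ?_)
  · intro p hp
    rw [Finset.mem_Ioc]
    exact ⟨hs p hp, (hM p hp).trans (le_max_left _ _)⟩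
  · have : (0 : ℝ) ≤ 1 / ((max M y : ℕ) : ℝ) := by positivity
    linarith

/-- the number of `n ≤ N` such that `p` divides one of the `n + h i` -/
theorem card_div_le {k : ℕ} {h : Fin k → ℕ} {H : ℕ} (hH : ∀ i, h i ≤ H) (N p : ℕ) :
    (((Icc 1 N).filter (fun n => ∃ i, p ∣ n + h i)).card : ℝ) ≤ k * ((N + H : ℝ) / p) := by
  classical
  have h1 : (Icc 1 N).filter (fun n => ∃ i, p ∣ n + h i) ⊆
      (Finset.univ : Finset (Fin k)).biUnion
        (fun i => (Icc 1 N).filter (fun n => p ∣ n + h i)) := by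
    intro n hn
    rw [Finset.mem_filter] at hn
    obtain ⟨hn1, i, hi⟩ := hn
    rw [Finset.mem_biUnion]
    exact ⟨i, Finset.mem_univ i, Finset.mem_filter.mpr ⟨hn1, hi⟩⟩
  have h2 : ∀ i : Fin k, (((Icc 1 N).filter (fun n => p ∣ n + h i)).card : ℝ) ≤
      (N + H : ℝ) / p := by
    intro i
    have h3 : ((Icc 1 N).filter (fun n => p ∣ n + h i)).card ≤
        ((Ioc 0 (N + H)).filter (fun m => p ∣ m)).card := by
      refine Finset.card_le_card_of_injOn (fun n => n + h i) ?_ ?_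
      · intro n hn
        simp only [Finset.coe_filter, Finset.mem_Icc, Finset.mem_Ioc, Set.mem_setOf_eq] at hn ⊢
        have := hH i
        exact ⟨⟨by omega, by omega⟩, hn.2⟩
      · intro n _ n' _ hnn
        exact Nat.add_right_cancel hnn
    rw [Nat.Ioc_filter_dvd_card_eq_div] at h3
    calc (((Icc 1 N).filter (fun n => p ∣ n + h i)).card : ℝ) ≤ (((N + H) / p : ℕ) : ℝ) := by
          exact_mod_cast h3
      _ ≤ ((N + H : ℕ) : ℝ) / p := Nat.cast_div_le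
      _ = (N + H : ℝ) / p := by push_cast; rfl
  calc (((Icc 1 N).filter (fun n => ∃ i, p ∣ n + h i)).card : ℝ)
      ≤ (((Finset.univ : Finset (Fin k)).biUnion
        (fun i => (Icc 1 N).filter (fun n => p ∣ n + h i))).card : ℝ) := by
          exact_mod_cast Finset.card_le_card h1
    _ ≤ ∑ i : Fin k, (((Icc 1 N).filter (fun n => p ∣ n + h i)).card : ℝ) := by
          exact_mod_cast Finset.card_biUnion_le
    _ ≤ ∑ _i : Fin k, (N + H : ℝ) / p := Finset.sum_le_sum fun i _ => h2 i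
    _ = k * ((N + H : ℝ) / p) := by simp

/-- the variance bound for bounded weights -/
theorem var_le {k : ℕ} {h : Fin k → ℕ} {H : ℕ} (hH : ∀ i, h i ≤ H) {g : ℕ → ℂ}
    (hg : ∀ n, ‖g n‖ ≤ 1) (N y : ℕ) (hy : 1 ≤ y) :
    ∑ p ∈ (PP (N + H)).filter (fun p : ℕ => y < p),
      (2 * ∑ n ∈ (Icc 1 N).filter (fun n => ∃ i, p ∣ n + h i), ‖g n‖) ^ 2 ≤
      4 * (k : ℝ) ^ 2 * ((N : ℝ) + H) ^ 2 / y := by
  have h1 : ∀ p ∈ (PP (N + H)).filter (fun p => y < p),
      (2 * ∑ n ∈ (Icc 1 N).filter (fun n => ∃ i, p ∣ n + h i), ‖g n‖) ^ 2 ≤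
      4 * k ^ 2 * (N + H : ℝ) ^ 2 * (1 / (p : ℝ) ^ 2) := by
    intro p _
    have h2 : ∑ n ∈ (Icc 1 N).filter (fun n => ∃ i, p ∣ n + h i), ‖g n‖ ≤
        k * ((N + H : ℝ) / p) := by
      refine (Finset.sum_le_sum fun n _ => hg n).trans ?_
      rw [Finset.sum_const, nsmul_eq_mul, mul_one]
      exact card_div_le hH N p
    have h3 : 0 ≤ ∑ n ∈ (Icc 1 N).filter (fun n => ∃ i, p ∣ n + h i), ‖g n‖ :=
      Finset.sum_nonneg fun _ _ => norm_nonneg _
    calc (2 * ∑ n ∈ (Icc 1 N).filter (fun n => ∃ i, p ∣ n + h i), ‖g n‖) ^ 2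
        ≤ (2 * (k * ((N + H : ℝ) / p))) ^ 2 :=
          pow_le_pow_left₀ (by positivity) (by linarith) 2
      _ = 4 * k ^ 2 * (N + H : ℝ) ^ 2 * (1 / (p : ℝ) ^ 2) := by
          rw [mul_pow, mul_pow, div_pow]; ring
  refine (Finset.sum_le_sum h1).trans ?_
  rw [← Finset.mul_sum]
  have h4 := sum_inv_sq_le y hy ((PP (N + H)).filter (fun p => y < p))
    (fun p hp => (Finset.mem_filter.mp hp).2)
  calc 4 * k ^ 2 * (N + H : ℝ) ^ 2 *
        ∑ p ∈ (PP (N + H)).filter (fun p => y < p), 1 / (p : ℝ) ^ 2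
      ≤ 4 * k ^ 2 * (N + H : ℝ) ^ 2 * (1 / y) := mul_le_mul_of_nonneg_left h4 (by positivity)
    _ = _ := by ring

/-- **One scale.** With an absolute constant `C`, the probability that the correlation exceeds
`ε + C (1 + H) exp (-∑_{y < p ≤ N} (1 - |E F(p)|)/p)` is at most
`4 exp (- ε² y / (32 k² (1 + H)²))`. -/
theorem one_scale : ∃ C : ℝ, 0 < C ∧ ∀ {Ω : Type} [MeasurableSpace Ω] (P : Measure Ω)
    [IsProbabilityMeasure P] {k : ℕ} {F : Fin k → ℕ → Ω → ℂ} (_ : RandMult P F)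
    {h : Fin k → ℕ} (_ : Injective h) {H : ℕ} (_ : ∀ i, h i ≤ H) (i0 : Fin k) {g : ℕ → ℂ}
    (_ : ∀ n, ‖g n‖ ≤ 1) (N y : ℕ) (_ : 1 ≤ N) (_ : 1 ≤ y) (_ : H ≤ y) {ε : ℝ} (_ : 0 ≤ ε),
    P.real {ω | C * (1 + H) * Real.exp (-Dw (fun p => ‖∫ ω, F i0 p ω ∂P‖) y N) + ε ≤
      ‖(1 / (N : ℂ)) * ∑ n ∈ Icc 1 N, g n * ∏ i, F i (n + h i) ω‖} ≤
      4 * Real.exp (-(ε ^ 2 * y / (32 * k ^ 2 * (1 + H) ^ 2))) := by
  obtain ⟨C, hC, hmean⟩ := mean_shift
  refine ⟨C, hC, ?_⟩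
  intro Ω _ P _ k F hF h hinj H hH i0 g hg N y hN hy hHy ε hε
  have hk : 0 < k := lt_of_le_of_lt (Nat.zero_le _) i0.2
  have hk0 : (0 : ℝ) < k := by exact_mod_cast hk
  have hN0 : (0 : ℝ) < N := by exact_mod_cast hN
  have hy0 : (0 : ℝ) < y := by exact_mod_cast hy
  have hH0 : (0 : ℝ) ≤ H := Nat.cast_nonneg _
  have hN1 : (1 : ℝ) ≤ N := by exact_mod_cast hN
  set a : ℕ → ℝ := fun p => ‖∫ ω, F i0 p ω ∂P‖ with ha
  have ha0 : ∀ p, 0 ≤ a p := fun p => norm_nonneg _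
  have ha1 : ∀ p, a p ≤ 1 := fun p => by
    refine (norm_integral_le_of_norm_le_const (C := 1)
      (Filter.Eventually.of_forall fun ω => hF.bdd i0 p ω)).trans ?_
    simp
  have hV : (0 : ℝ) < 4 * k ^ 2 * (N + H) ^ 2 / y := by positivity
  have key := core hF hinj hH i0 g N y hHy hV (t := ε * N / 2) (by positivity)
    (var_le hH hg N y hy)
  have hM : ∑ n ∈ Icc 1 N, ‖g n‖ * GG a y (n + h i0) ≤
      N * (C * (1 + H) * Real.exp (-Dw a y N)) := by
    have h1 : ∑ n ∈ Icc 1 N, ‖g n‖ * GG a y (n + h i0) ≤ ∑ n ∈ Icc 1 N, GG a y (n + h i0) :=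
      Finset.sum_le_sum fun n _ =>
        mul_le_of_le_one_left ((mult01_GG ha0 ha1 y).nonneg _) (hg n)
    refine (h1.trans (hmean a ha0 ha1 y N (h i0))).trans ?_
    have h2 : ((h i0 : ℕ) : ℝ) ≤ H := by exact_mod_cast hH i0
    have h3 : (N : ℝ) + h i0 ≤ N * (1 + H) := by nlinarith
    calc C * (N + h i0) * Real.exp (-Dw a y N) ≤ C * (N * (1 + H)) * Real.exp (-Dw a y N) := by
          refine mul_le_mul_of_nonneg_right ?_ (Real.exp_pos _).le
          exact mul_le_mul_of_nonneg_left h3 hC.le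
      _ = _ := by ring
  refine le_trans (measureReal_mono ?_) (key.trans ?_)
  · intro ω hω
    simp only [Set.mem_setOf_eq] at hω ⊢
    rw [norm_mul, norm_div, norm_one, Complex.norm_natCast, one_div, ← div_eq_inv_mul,
      le_div_iff₀ hN0] at hω
    calc (∑ n ∈ Icc 1 N, ‖g n‖ * GG a y (n + h i0)) + 2 * (ε * N / 2)
        ≤ N * (C * (1 + H) * Real.exp (-Dw a y N)) + 2 * (ε * N / 2) := by linarith
      _ = (C * (1 + H) * Real.exp (-Dw a y N) + ε) * N := by ring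
      _ ≤ _ := hω
  · refine mul_le_mul_of_nonneg_left (Real.exp_le_exp.mpr ?_) (by norm_num)
    have h1 : -((ε * N / 2) ^ 2) / (2 * (4 * k ^ 2 * (N + H) ^ 2 / y)) =
        -(ε ^ 2 * N ^ 2 * y / (32 * k ^ 2 * (N + H) ^ 2)) := by
      field_simp
      ring
    rw [h1]
    refine neg_le_neg ?_
    rw [div_le_div_iff₀ (by positivity) (by positivity)]
    have h2 : ((N : ℝ) + H) ≤ N * (1 + H) := by nlinarith
    have h3 : ((N : ℝ) + H) ^ 2 ≤ (N * (1 + H)) ^ 2 := pow_le_pow_left₀ (by positivity) h2 2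
    calc ε ^ 2 * y * (32 * k ^ 2 * (N + H) ^ 2) ≤ ε ^ 2 * y * (32 * k ^ 2 * (N * (1 + H)) ^ 2) := by
          refine mul_le_mul_of_nonneg_left ?_ (by positivity)
          exact mul_le_mul_of_nonneg_left h3 (by positivity)
      _ = ε ^ 2 * N ^ 2 * y * (32 * k ^ 2 * (1 + H) ^ 2) := by ring

/-- **One scale, uniformly in the shifts.** With an absolute constant `C`, for all shifts `≤ H ≤ min(N, y)`, the
probability that the correlation exceeds `ε + C exp (-∑_{y < p ≤ N} (1 - |E F(p)|)/p)` is at most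
`4 exp (- ε² y / (128 k²))`. -/
theorem one_scale2 : ∃ C : ℝ, 0 < C ∧ ∀ {Ω : Type} [MeasurableSpace Ω] (P : Measure Ω)
    [IsProbabilityMeasure P] {k : ℕ} {F : Fin k → ℕ → Ω → ℂ} (_ : RandMult P F)
    {h : Fin k → ℕ} (_ : Injective h) {H : ℕ} (_ : ∀ i, h i ≤ H) (i0 : Fin k) {g : ℕ → ℂ}
    (_ : ∀ n, ‖g n‖ ≤ 1) (N y : ℕ) (_ : 1 ≤ N) (_ : 1 ≤ y) (_ : H ≤ N) (_ : H ≤ y) {ε : ℝ}
    (_ : 0 ≤ ε),
    P.real {ω | C * Real.exp (-Dw (fun p => ‖∫ ω, F i0 p ω ∂P‖) y N) + ε ≤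
      ‖(1 / (N : ℂ)) * ∑ n ∈ Icc 1 N, g n * ∏ i, F i (n + h i) ω‖} ≤
      4 * Real.exp (-(ε ^ 2 * y / (128 * k ^ 2))) := by
  obtain ⟨C, hC, hmean⟩ := mean_shift
  refine ⟨2 * C, by positivity, ?_⟩
  intro Ω _ P _ k F hF h hinj H hH i0 g hg N y hN hy hHN hHy ε hε
  have hk : 0 < k := lt_of_le_of_lt (Nat.zero_le _) i0.2
  have hk0 : (0 : ℝ) < k := by exact_mod_cast hk
  have hN0 : (0 : ℝ) < N := by exact_mod_cast hN
  have hy0 : (0 : ℝ) < y := by exact_mod_cast hy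
  have hH0 : (0 : ℝ) ≤ H := Nat.cast_nonneg _
  have hHN' : (H : ℝ) ≤ N := by exact_mod_cast hHN
  set a : ℕ → ℝ := fun p => ‖∫ ω, F i0 p ω ∂P‖ with ha
  have ha0 : ∀ p, 0 ≤ a p := fun p => norm_nonneg _
  have ha1 : ∀ p, a p ≤ 1 := fun p => by
    refine (norm_integral_le_of_norm_le_const (C := 1)
      (Filter.Eventually.of_forall fun ω => hF.bdd i0 p ω)).trans ?_
    simp
  have hV : (0 : ℝ) < 4 * k ^ 2 * (N + H) ^ 2 / y := by positivity
  have key := core hF hinj hH i0 g N y hHy hV (t := ε * N / 2) (by positivity)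
    (var_le hH hg N y hy)
  have hM : ∑ n ∈ Icc 1 N, ‖g n‖ * GG a y (n + h i0) ≤
      N * (2 * C * Real.exp (-Dw a y N)) := by
    have h1 : ∑ n ∈ Icc 1 N, ‖g n‖ * GG a y (n + h i0) ≤ ∑ n ∈ Icc 1 N, GG a y (n + h i0) :=
      Finset.sum_le_sum fun n _ =>
        mul_le_of_le_one_left ((mult01_GG ha0 ha1 y).nonneg _) (hg n)
    refine (h1.trans (hmean a ha0 ha1 y N (h i0))).trans ?_
    have h2 : ((h i0 : ℕ) : ℝ) ≤ H := by exact_mod_cast hH i0
    have h3 : (N : ℝ) + h i0 ≤ N * 2 := by linarith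
    calc C * (N + h i0) * Real.exp (-Dw a y N) ≤ C * (N * 2) * Real.exp (-Dw a y N) := by
          refine mul_le_mul_of_nonneg_right ?_ (Real.exp_pos _).le
          exact mul_le_mul_of_nonneg_left h3 hC.le
      _ = _ := by ring
  refine le_trans (measureReal_mono ?_) (key.trans ?_)
  · intro ω hω
    simp only [Set.mem_setOf_eq] at hω ⊢
    rw [norm_mul, norm_div, norm_one, Complex.norm_natCast, one_div, ← div_eq_inv_mul,
      le_div_iff₀ hN0] at hω
    calc (∑ n ∈ Icc 1 N, ‖g n‖ * GG a y (n + h i0)) + 2 * (ε * N / 2)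
        ≤ N * (2 * C * Real.exp (-Dw a y N)) + 2 * (ε * N / 2) := by linarith
      _ = (2 * C * Real.exp (-Dw a y N) + ε) * N := by ring
      _ ≤ _ := hω
  · refine mul_le_mul_of_nonneg_left (Real.exp_le_exp.mpr ?_) (by norm_num)
    have h1 : -((ε * N / 2) ^ 2) / (2 * (4 * k ^ 2 * (N + H) ^ 2 / y)) =
        -(ε ^ 2 * N ^ 2 * y / (32 * k ^ 2 * (N + H) ^ 2)) := by
      field_simp
      ring
    rw [h1]
    refine neg_le_neg ?_
    rw [div_le_div_iff₀ (by positivity) (by positivity)]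
    have h2 : ((N : ℝ) + H) ≤ N * 2 := by linarith
    have h3 : ((N : ℝ) + H) ^ 2 ≤ (N * 2) ^ 2 := pow_le_pow_left₀ (by positivity) h2 2
    calc ε ^ 2 * y * (32 * k ^ 2 * (N + H) ^ 2) ≤ ε ^ 2 * y * (32 * k ^ 2 * (N * 2) ^ 2) := by
          refine mul_le_mul_of_nonneg_left ?_ (by positivity)
          exact mul_le_mul_of_nonneg_left h3 (by positivity)
      _ = ε ^ 2 * N ^ 2 * y * (128 * k ^ 2) := by ring

end Pool.Agent.W5h23.CP
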