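import Pool.Agent.W5h23.CP.AS

/-!
# The Möbius function with random signs at the primes
-/

set_option autoImplicit false
set_option linter.unusedSectionVars false

open MeasureTheory ProbabilityTheory Function Finset Filter Topology

namespace Pool.Agent.W5h23.CP

/-- `μ(n) ∏_{p ∣ n} s(p)` -/
def muX (s : ℕ → ℤ) (n : ℕ) : ℤ := ArithmeticFunction.moebius n * ∏ p ∈ n.primeFactors, s p

theorem muX_zero (s : ℕ → ℤ) : muX s 0 = 0 := by simp [muX]

theorem muX_one (s : ℕ → ℤ) : muX s 1 = 1 := by simp [muX]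

theorem muX_mul (s : ℕ → ℤ) {m n : ℕ} (h : Nat.Coprime m n) :
    muX s (m * n) = muX s m * muX s n := by
  unfold muX
  rw [ArithmeticFunction.isMultiplicative_moebius.map_mul_of_coprime h,
    Nat.Coprime.primeFactors_mul h, Finset.prod_union h.disjoint_primeFactors]
  ring

theorem muX_prime_pow (s : ℕ → ℤ) {p : ℕ} (hp : p.Prime) (a : ℕ) :
    muX s (p ^ (a + 1)) = (if a = 0 then -1 else 0) * s p := by
  unfold muX
  rw [Nat.primeFactors_prime_pow (Nat.succ_ne_zero a) hp, Finset.prod_singleton]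
  congr 1
  by_cases ha : a = 0
  · subst ha
    rw [if_pos rfl, zero_add, pow_one, ArithmeticFunction.moebius_apply_prime hp]
  · rw [if_neg ha]
    refine ArithmeticFunction.moebius_eq_zero_of_not_squarefree ?_
    intro h
    have h1 := (Nat.squarefree_pow_iff hp.ne_one (Nat.succ_ne_zero a)).mp h
    omega

theorem abs_muX_le {s : ℕ → ℤ} (hs : ∀ p, s p = 1 ∨ s p = -1) (n : ℕ) : |muX s n| ≤ 1 := by
  unfold muX
  rw [abs_mul, Finset.abs_prod]
  have h1 : ∏ p ∈ n.primeFactors, |s p| = 1 :=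
    Finset.prod_eq_one fun p _ => by rcases hs p with h | h <;> simp [h]
  rw [h1, mul_one]
  exact ArithmeticFunction.abs_moebius_le_one

/-- independent random signs at the primes -/
structure Signs {Ω : Type} [MeasurableSpace Ω] (P : Measure Ω) (X : ℕ → Ω → ℤ) : Prop where
  meas : ∀ p, Measurable (X p)
  sign : ∀ p ω, X p ω = 1 ∨ X p ω = -1
  indep : iIndepFun (fun (p : Nat.Primes) => X (p : ℕ)) P

section

variable {Ω : Type} [MeasurableSpace Ω] {P : Measure Ω} [IsProbabilityMeasure P]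
  {X : ℕ → Ω → ℤ}

/-- the tuple of powers of the random Möbius function -/
def FM (X : ℕ → Ω → ℤ) {r : ℕ} (ε : Fin r → ℕ) (i : Fin r) (n : ℕ) (ω : Ω) : ℂ :=
  ((muX (fun p => X p ω) n : ℤ) : ℂ) ^ ε i

theorem randMult_FM (hX : Signs P X) {r : ℕ} (ε : Fin r → ℕ) : RandMult P (FM X ε) where
  meas i n := by
    unfold FM muX
    refine Measurable.pow_const ?_ _
    have h1 : Measurable fun ω => ((ArithmeticFunction.moebius n * ∏ p ∈ n.primeFactors, X p ω : ℤ)) :=
      (Finset.measurable_fun_prod _ fun p _ => hX.meas p).const_mul _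
    exact (measurable_from_top (f := fun z : ℤ => (z : ℂ))).comp h1
  bdd i n ω := by
    unfold FM
    rw [norm_pow]
    refine pow_le_one₀ (norm_nonneg _) ?_
    rw [Complex.norm_intCast]
    have := abs_muX_le (hX.sign · ω) n
    exact_mod_cast this
  one i ω := by
    unfold FM
    rw [muX_one]; simp
  mul i ω m n h := by
    unfold FM
    rw [muX_mul _ h]; push_cast; rw [mul_pow]
  indep := by
    set φ : Nat.Primes → ℤ → (Fin r × ℕ → ℂ) := fun _ z q =>
      (((if q.2 = 0 then -1 else 0) * z : ℤ) : ℂ) ^ ε q.1 with hφ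
    have h1 : iIndepFun (fun (p : Nat.Primes) => φ p ∘ X (p : ℕ)) P :=
      hX.indep.comp φ fun p => measurable_from_top
    have h2 : (fun (p : Nat.Primes) (ω : Ω) (q : Fin r × ℕ) =>
        FM X ε q.1 ((p : ℕ) ^ (q.2 + 1)) ω) = fun (p : Nat.Primes) => φ p ∘ X (p : ℕ) := by
      funext p ω q
      simp only [hφ, Function.comp, FM]
      rw [muX_prime_pow _ p.2]
    rw [h2]
    exact h1

theorem integral_sign (hX : Signs P X) (p : ℕ) :
    ∫ ω, ((X p ω : ℤ) : ℂ) ∂P = ((1 - 2 * P.real {ω | X p ω = -1} : ℝ) : ℂ) := by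
  have hms : MeasurableSet {ω | X p ω = -1} := (hX.meas p) (measurableSet_singleton (-1))
  have h1 : (fun ω => ((X p ω : ℤ) : ℂ)) =
      fun ω => ((1 - 2 * Set.indicator {ω | X p ω = -1} (fun _ => (1 : ℝ)) ω : ℝ) : ℂ) := by
    funext ω
    rcases hX.sign p ω with h | h
    · rw [h, Set.indicator_of_notMem]
      · simp
      · simp [h]
    · rw [h, Set.indicator_of_mem (by simpa using h)]
      norm_num
  rw [h1, integral_complex_ofReal]
  congr 1
  have hint : Integrable (Set.indicator {ω | X p ω = -1} (fun _ => (1 : ℝ))) P :=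
    (integrable_const _).indicator hms
  rw [integral_sub (integrable_const _) (hint.const_mul 2), integral_const_mul,
    integral_indicator_const _ hms]
  simp

theorem mn_FM (hX : Signs P X) {r : ℕ} (ε : Fin r → ℕ) {i : Fin r} (hi : ε i = 1) {p : ℕ}
    (hp : p.Prime) : 1 - mn P (FM X ε) i p =
      2 * min (P.real {ω | X p ω = -1}) (1 - P.real {ω | X p ω = -1}) := by
  unfold mn
  have h1 : ∀ ω, FM X ε i p ω = -((X p ω : ℤ) : ℂ) := by
    intro ω
    unfold FM
    have := muX_prime_pow (fun p => X p ω) hp 0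
    rw [zero_add, pow_one, if_pos rfl] at this
    rw [hi, pow_one, this]
    push_cast
    ring
  simp only [h1]
  rw [integral_neg, norm_neg, integral_sign hX, Complex.norm_real, Real.norm_eq_abs]
  set δ := P.real {ω | X p ω = -1}
  rcases le_total δ (1 - δ) with h | h
  · rw [min_eq_left h, abs_of_nonneg (by linarith)]; ring
  · rw [min_eq_right h, abs_of_nonpos (by linarith)]; ring

/-- the windows in terms of the probabilities of the signs -/
theorem Dw_FM (hX : Signs P X) {r : ℕ} (ε : Fin r → ℕ) {i : Fin r} (hi : ε i = 1) (y : ℝ)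
    (N : ℕ) : Dw (mn P (FM X ε) i) y N =
      2 * ∑ p ∈ (Icc 1 N).filter (fun p : ℕ => p.Prime ∧ y < (p : ℝ)),
        min (P.real {ω | X p ω = -1}) (1 - P.real {ω | X p ω = -1}) / p := by
  unfold Dw PP
  rw [Finset.filter_filter, Finset.mul_sum]
  refine Finset.sum_congr rfl fun p hp => ?_
  rw [mn_FM hX ε hi (Finset.mem_filter.mp hp).2.1]
  ring

end

/-- translation of an average -/
theorem shift_lim {f : ℕ → ℂ} (hf : ∀ n, ‖f n‖ ≤ 1) (A : ℕ)
    (h : Tendsto (fun N : ℕ => Mn (fun m => f (m + A)) N) atTop (𝓝 0)) :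
    Tendsto (fun N : ℕ => Mn f N) atTop (𝓝 0) := by
  rw [← tendsto_add_atTop_iff_nat A]
  rw [tendsto_zero_iff_norm_tendsto_zero] at h ⊢
  have h1 : Tendsto (fun N : ℕ => (A : ℝ) / (N : ℝ)) atTop (𝓝 0) :=
    tendsto_const_div_atTop_nhds_zero_nat _
  have h2 := h.add h1
  rw [add_zero] at h2
  refine squeeze_zero' (Filter.Eventually.of_forall fun N => norm_nonneg _) ?_ h2
  filter_upwards [eventually_ge_atTop 1] with N hN
  have hN0 : (0 : ℝ) < N := by exact_mod_cast hN
  have hT : ∀ (s : ℕ → ℂ) (K : ℕ), ‖Mn s K‖ = ‖∑ n ∈ Icc 1 K, s n‖ / K := by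
    intro s K
    unfold Mn
    rw [norm_mul, norm_div, norm_one, Complex.norm_natCast, one_div, ← div_eq_inv_mul]
  rw [hT, hT]
  have e1 : ∑ n ∈ Icc 1 (N + A), f n = ∑ n ∈ Icc 1 A, f n + ∑ m ∈ Icc 1 N, f (m + A) := by
    have e2 : ∑ m ∈ Icc 1 N, f (m + A) = ∑ n ∈ Icc (A + 1) (N + A), f n := by
      refine Finset.sum_nbij' (fun m => m + A) (fun n => n - A) ?_ ?_ ?_ ?_ ?_
      · intro m hm
        rw [Finset.mem_Icc] at hm ⊢
        omega
      · intro n hn
        rw [Finset.mem_Icc] at hn ⊢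
        omega
      · intro m _
        exact Nat.add_sub_cancel m A
      · intro n hn
        rw [Finset.mem_Icc] at hn
        exact Nat.sub_add_cancel (by omega)
      · intro m _; rfl
    rw [e2, ← Finset.sum_union]
    · congr 1
      ext n
      simp only [Finset.mem_Icc, Finset.mem_union]
      omega
    · rw [Finset.disjoint_left]
      intro n hn hn'
      rw [Finset.mem_Icc] at hn hn'
      omega
  have e3 : ‖∑ n ∈ Icc 1 A, f n‖ ≤ A := by
    refine (norm_sum_le _ _).trans ((Finset.sum_le_sum fun n _ => hf n).trans (le_of_eq ?_))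
    simp
  rw [e1]
  have e4 : ‖∑ n ∈ Icc 1 A, f n + ∑ m ∈ Icc 1 N, f (m + A)‖ ≤
      A + ‖∑ m ∈ Icc 1 N, f (m + A)‖ := (norm_add_le _ _).trans (by linarith)
  have e5 : ((N + A : ℕ) : ℝ) ≥ N := by push_cast; linarith [(Nat.cast_nonneg A : (0 : ℝ) ≤ A)]
  calc ‖∑ n ∈ Icc 1 A, f n + ∑ m ∈ Icc 1 N, f (m + A)‖ / ((N + A : ℕ) : ℝ)
      ≤ (A + ‖∑ m ∈ Icc 1 N, f (m + A)‖) / ((N + A : ℕ) : ℝ) :=
        div_le_div_of_nonneg_right e4 (Nat.cast_nonneg _)
    _ ≤ (A + ‖∑ m ∈ Icc 1 N, f (m + A)‖) / N :=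
        div_le_div_of_nonneg_left (by positivity) hN0 e5
    _ = ‖∑ m ∈ Icc 1 N, f (m + A)‖ / N + A / N := by ring

/-- **Chowla's conjecture for the Möbius function with random signs.** -/
theorem chowla {Ω : Type} [MeasurableSpace Ω] {P : Measure Ω} [IsProbabilityMeasure P]
    {X : ℕ → Ω → ℤ} (hX : Signs P X)
    (hdiv : Tendsto (fun N : ℕ => ∑ p ∈ (Icc 1 N).filter
      (fun p : ℕ => p.Prime ∧ Real.log (Real.log N) < (p : ℝ)),
        min (P.real {ω | X p ω = -1}) (1 - P.real {ω | X p ω = -1}) / p) atTop atTop)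
    {g : ℕ → ℝ} (hg : ∀ n, |g n| ≤ 1) :
    ∀ᵐ ω ∂P, ∀ (r : ℕ) (α : Fin r → ℤ), Injective α → ∀ (ε : Fin r → ℕ), (∃ i, ε i = 1) →
      Tendsto (fun N : ℕ => (∑ n ∈ Icc 1 N, g n * ∏ i : Fin r,
        ((muX (fun p => X p ω) (((n : ℤ) + α i).toNat) : ℤ) : ℝ) ^ (ε i)) / (N : ℝ))
          atTop (𝓝 0) := by
  rw [ae_all_iff]; intro r
  rw [ae_all_iff]; intro α
  by_cases hα : Injective α
  swap
  · exact Filter.Eventually.of_forall fun ω h' => absurd h' hα
  rw [Filter.eventually_imp_distrib_left]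
  intro _
  rw [ae_all_iff]; intro ε
  by_cases hε : ∃ i, ε i = 1
  swap
  · exact Filter.Eventually.of_forall fun ω h' => absurd h' hε
  obtain ⟨i0, hi0⟩ := hε
  -- the translation
  set A : ℕ := ∑ i, (α i).natAbs with hA
  have hAi : ∀ i, 0 ≤ α i + A := by
    intro i
    have h1 : (α i).natAbs ≤ A := by
      rw [hA]
      exact Finset.single_le_sum (f := fun i => (α i).natAbs) (fun _ _ => Nat.zero_le _)
        (Finset.mem_univ i)
    omega
  set h : Fin r → ℕ := fun i => (α i + A).toNat with hh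
  have hhi : ∀ i, ((h i : ℕ) : ℤ) = α i + A := fun i => Int.toNat_of_nonneg (hAi i)
  have hinj : Injective h := by
    intro i j hij
    have h1 : ((h i : ℕ) : ℤ) = h j := by rw [hij]
    rw [hhi, hhi] at h1
    exact hα (by linarith)
  have hRM := randMult_FM hX ε
  have hdiv' : Tendsto (fun N : ℕ => Dw (mn P (FM X ε) i0) (Real.log (Real.log N)) N) atTop
      atTop := by
    simp only [Dw_FM hX ε hi0]
    exact hdiv.const_mul_atTop (by norm_num)
  have hg' : ∀ n, ‖((g (n + A) : ℝ) : ℂ)‖ ≤ 1 := fun n => by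
    rw [Complex.norm_real]; exact hg _
  filter_upwards [almost_sure hRM hinj i0 hdiv' hg'] with ω hω _
  set f : ℕ → ℂ := fun n => ((g n * ∏ i : Fin r,
    ((muX (fun p => X p ω) (((n : ℤ) + α i).toNat) : ℤ) : ℝ) ^ (ε i) : ℝ) : ℂ) with hf
  have hf1 : ∀ n, ‖f n‖ ≤ 1 := by
    intro n
    rw [hf]
    simp only
    rw [Complex.norm_real, norm_mul, norm_prod]
    refine mul_le_one₀ (hg n) (Finset.prod_nonneg fun _ _ => norm_nonneg _)
      (Finset.prod_le_one (fun _ _ => norm_nonneg _) fun i _ => ?_)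
    rw [norm_pow]
    refine pow_le_one₀ (norm_nonneg _) ?_
    rw [Real.norm_eq_abs]
    have := abs_muX_le (hX.sign · ω) (((n : ℤ) + α i).toNat)
    exact_mod_cast this
  have h1 : Tendsto (fun N : ℕ => Mn (fun m => f (m + A)) N) atTop (𝓝 0) := by
    refine hω.congr fun N => ?_
    congr 1
    funext m
    rw [hf]
    simp only [FM]
    push_cast
    congr 1
    refine Finset.prod_congr rfl fun i _ => ?_
    have e1 : ((m : ℤ) + (A : ℤ) + α i).toNat = m + h i := by
      have := hhi i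
      omega
    rw [e1]
  have h2 := shift_lim hf1 A h1
  have h3 : ∀ N : ℕ, Mn f N = (((∑ n ∈ Icc 1 N, g n * ∏ i : Fin r,
        ((muX (fun p => X p ω) (((n : ℤ) + α i).toNat) : ℤ) : ℝ) ^ (ε i)) / (N : ℝ) : ℝ) : ℂ) := by
    intro N
    unfold Mn
    rw [hf]
    push_cast
    ring
  simp only [h3] at h2
  have h4 := (Complex.continuous_re.tendsto 0).comp h2
  simpa only [Function.comp_def, Complex.ofReal_re, Complex.zero_re] using h4

end Pool.Agent.W5h23.CP
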