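import Mathlib
import Pool.Agent.Helper256.KM.Mertens
import Pool.Agent.W5h23.CP.Mob

/-!
# Thin sets of primes and random signs on them
-/

set_option autoImplicit false
set_option linter.unusedSectionVars false

open MeasureTheory ProbabilityTheory Function Finset Filter Topology

namespace Pool.Agent.W5h23.CP

/-- independent fair signs at the primes in `Q` -/
theorem exists_signs (Q : ℕ → Prop) :
    ∃ (Ω : Type) (_ : MeasurableSpace Ω) (P : Measure Ω) (_ : IsProbabilityMeasure P)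
      (X : ℕ → Ω → ℤ), Signs P X ∧ (∀ p, Q p → P.real {ω | X p ω = -1} = 1 / 2) ∧
      (∀ p, ¬ Q p → ∀ ω, X p ω = 1) := by
  classical
  set ν : Measure ℤ := ENNReal.ofReal (1 / 2) • Measure.dirac (-1) +
    ENNReal.ofReal (1 / 2) • Measure.dirac 1 with hν
  have hprob : IsProbabilityMeasure ν := by
    refine ⟨?_⟩
    rw [hν]
    simp only [Measure.add_apply, Measure.smul_apply, smul_eq_mul, measure_univ, mul_one]
    rw [← ENNReal.ofReal_add (by norm_num) (by norm_num)]
    norm_num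
  obtain ⟨Ω, mΩ, P, Y, hYm, hYl, hYi, hP⟩ := exists_iid ℕ ν
  set φ : ℕ → ℤ → ℤ := fun p z => if Q p then (if z = -1 then -1 else 1) else 1 with hφ
  have hφm : ∀ p, Measurable (φ p) := fun p => measurable_from_top
  refine ⟨Ω, mΩ, P, hP, fun p ω => φ p (Y p ω), ⟨?_, ?_, ?_⟩, ?_, ?_⟩
  · intro p
    exact (hφm p).comp (hYm p)
  · intro p ω
    simp only [hφ]
    split_ifs <;> simp
  · have h1 : iIndepFun (fun p => φ p ∘ Y p) P := hYi.comp φ hφm
    exact h1.precomp (g := fun p : Nat.Primes => (p : ℕ)) Subtype.val_injective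
  · intro p hp
    have h1 : {ω | φ p (Y p ω) = -1} = Y p ⁻¹' {-1} := by
      ext ω
      simp only [hφ, if_pos hp, Set.mem_setOf_eq, Set.mem_preimage, Set.mem_singleton_iff]
      constructor
      · intro h
        by_contra hne
        rw [if_neg hne] at h
        norm_num at h
      · intro h
        rw [if_pos h]
    rw [h1, ← map_measureReal_apply (hYm p) (measurableSet_singleton _), (hYl p).map_eq,
      measureReal_def, hν]
    simp only [Measure.add_apply, Measure.smul_apply, smul_eq_mul]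
    rw [Measure.dirac_apply' _ (measurableSet_singleton _),
      Measure.dirac_apply' _ (measurableSet_singleton _)]
    simp
  · intro p hp ω
    simp only [hφ, if_neg hp]

section

variable (ψ : ℕ → ℝ)

open Classical in
/-- the greedy reciprocal sum -/
noncomputable def Rs : ℕ → ℝ
  | 0 => 0
  | (n + 1) => if (n + 1).Prime ∧ Rs n + 1 / ((n + 1 : ℕ) : ℝ) ≤ ψ (n + 1) then
      Rs n + 1 / ((n + 1 : ℕ) : ℝ) else Rs n

/-- the greedy set of primes -/
def Qs (p : ℕ) : Prop := p.Prime ∧ Rs ψ (p - 1) + 1 / (p : ℝ) ≤ ψ p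

open Classical in
theorem Rs_eq (N : ℕ) : Rs ψ N = ∑ p ∈ (Icc 1 N).filter (Qs ψ), (1 : ℝ) / p := by
  induction N with
  | zero => simp [Rs]
  | succ N ih =>
    have e : Icc 1 (N + 1) = insert (N + 1) (Icc 1 N) := by
      ext p
      simp only [Finset.mem_Icc, Finset.mem_insert]
      omega
    rw [e, Finset.filter_insert]
    by_cases h : Qs ψ (N + 1)
    · have h' := h
      unfold Qs at h'
      rw [Nat.add_sub_cancel] at h'
      rw [if_pos h, Finset.sum_insert (by simp), ← ih, Rs, if_pos h']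
      ring
    · have h' := h
      unfold Qs at h'
      rw [Nat.add_sub_cancel] at h'
      rw [if_neg h, ← ih, Rs, if_neg h']

variable {ψ}

theorem Rs_le (hm : Monotone ψ) (h0 : 0 ≤ ψ 0) (N : ℕ) : Rs ψ N ≤ ψ N := by
  induction N with
  | zero => simpa [Rs] using h0
  | succ N ih =>
    rw [Rs]
    split_ifs with h
    · exact h.2
    · exact ih.trans (hm (Nat.le_succ N))

theorem Rs_mono : Monotone (Rs ψ) := by
  refine monotone_nat_of_le_succ fun N => ?_
  rw [Rs]
  split_ifs with h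
  · have : (0 : ℝ) ≤ 1 / ((N + 1 : ℕ) : ℝ) := by positivity
    linarith
  · exact le_rfl

theorem Rs_rejected {p : ℕ} (hp : p.Prime) (hQ : ¬ Qs ψ p) : ψ p - 1 ≤ Rs ψ p := by
  have hp1 : 1 ≤ p := hp.one_lt.le
  unfold Qs at hQ
  have h1 : ψ p < Rs ψ (p - 1) + 1 / (p : ℝ) := by
    by_contra hcon
    exact hQ ⟨hp, not_lt.mp hcon⟩
  have h2 : (1 : ℝ) / p ≤ 1 := by
    rw [div_le_one (by exact_mod_cast hp.pos)]
    exact_mod_cast hp1
  have h3 : Rs ψ (p - 1) ≤ Rs ψ p := Rs_mono (Nat.sub_le p 1)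
  linarith

open Classical in
/-- the windows of the greedy set -/
theorem greedy_windows (hm : Monotone ψ) (h0 : 0 ≤ ψ 0)
    (hψ : Tendsto (fun n : ℕ => ψ n - ψ ⌊Real.log n ^ 3⌋₊) atTop atTop) {η : ℝ} (hη : 0 < η) :
    Tendsto (fun N : ℕ => ∑ p ∈ (Icc 1 ⌊(N : ℝ) ^ η⌋₊).filter
      (fun p : ℕ => Qs ψ p ∧ Real.log N < (p : ℝ)), (1 : ℝ) / p) atTop atTop := by
  obtain ⟨C, hC⟩ := Pool.Agent.Helper256.KM.mertens_inv
  rw [tendsto_atTop]
  intro B
  have hlogt : Tendsto (fun N : ℕ => Real.log (N : ℝ)) atTop atTop :=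
    Real.tendsto_log_atTop.comp tendsto_natCast_atTop_atTop
  -- `n ≥ n0` gives `ψ n - ψ ⌊log³ n⌋ ≥ B + 1`
  obtain ⟨n0, hn0⟩ := eventually_atTop.mp (hψ.eventually_ge_atTop (B + 1))
  set U : ℕ → ℕ := fun N => ⌊(N : ℝ) ^ η⌋₊ with hU
  have hUt : Tendsto U atTop atTop :=
    tendsto_nat_floor_atTop.comp ((tendsto_rpow_atTop hη).comp tendsto_natCast_atTop_atTop)
  have hlU : ∀ᶠ N : ℕ in atTop, η / 2 * Real.log N ≤ Real.log (U N) := by
    filter_upwards [hUt.eventually_ge_atTop 2, hlogt.eventually_ge_atTop (2 / η),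
      eventually_ge_atTop 1] with N h2 h3 hN1
    have hN0 : (0 : ℝ) < N := by exact_mod_cast hN1
    have h4 : (N : ℝ) ^ η < U N + 1 := Nat.lt_floor_add_one _
    have h5 : (2 : ℝ) ≤ U N := by exact_mod_cast h2
    have h6 : (N : ℝ) ^ η ≤ 2 * U N := by linarith
    have h7 : η * Real.log N ≤ Real.log 2 + Real.log (U N) := by
      rw [← Real.log_rpow hN0, ← Real.log_mul (by norm_num) (by linarith)]
      exact Real.log_le_log (by positivity) h6
    have h8 : Real.log 2 ≤ 1 := by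
      have := Real.log_two_lt_d9
      linarith
    have h9 : 1 ≤ η / 2 * Real.log N := by
      rw [div_le_iff₀ hη] at h3
      linarith
    linarith
  have hlUt : Tendsto (fun N => Real.log (U N : ℝ)) atTop atTop :=
    Real.tendsto_log_atTop.comp (tendsto_natCast_atTop_atTop.comp hUt)
  -- the threshold
  set T : ℕ → ℕ := fun N => ⌊Real.exp (Real.sqrt (Real.log (U N)))⌋₊ with hT
  have hsqt : Tendsto (fun N => Real.sqrt (Real.log (U N : ℝ))) atTop atTop :=
    Real.tendsto_sqrt_atTop.comp hlUt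
  have hTt : Tendsto T atTop atTop :=
    tendsto_nat_floor_atTop.comp (Real.tendsto_exp_atTop.comp hsqt)
  -- `log N ≤ T N`
  have hlT : ∀ᶠ N : ℕ in atTop, Real.log N ≤ T N := by
    -- `exp s ≥ s^3/6`
    filter_upwards [hlU, hsqt.eventually_ge_atTop 1, hsqt.eventually_ge_atTop (24 / η),
      hlogt.eventually_ge_atTop 0] with N h1 h2 h3 h4
    set s := Real.sqrt (Real.log (U N : ℝ)) with hs
    have h5 : s ^ 2 = Real.log (U N : ℝ) := Real.sq_sqrt (by
      by_contra hcon
      rw [hs, Real.sqrt_eq_zero_of_nonpos (not_le.mp hcon).le] at h2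
      norm_num at h2)
    have h6 : s ^ 3 / 6 ≤ Real.exp s := by
      have := Real.pow_div_factorial_le_exp s (by linarith) 3
      norm_num [Nat.factorial] at this
      linarith
    have h7 : Real.exp s < T N + 1 := Nat.lt_floor_add_one _
    have h8 : 24 ≤ s * η := by rwa [div_le_iff₀ hη] at h3
    have h9 : η / 2 * Real.log N ≤ s ^ 2 := by rw [h5]; exact h1
    -- s^3/6 ≥ (24/η) s²/6 = 4 s²/η ≥ 2 log N
    have h10 : 2 * Real.log N ≤ s ^ 3 / 6 := by
      have h11 : 24 * s ^ 2 ≤ s ^ 3 * η := by nlinarith [sq_nonneg s]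
      have h12 : 12 * (η * Real.log N) ≤ 24 * s ^ 2 := by nlinarith
      have h13 : η * (12 * Real.log N) ≤ η * s ^ 3 := by nlinarith
      have h14 := le_of_mul_le_mul_left h13 hη
      linarith
    have h15 : (1 : ℝ) ≤ Real.exp s / 2 := by
      have := Real.add_one_le_exp s
      linarith
    linarith
  -- Mertens for `U` and `T`
  have hM : ∀ᶠ N : ℕ in atTop, Real.log (Real.log (U N)) / 2 - 2 * C ≤
      ∑ p ∈ (Icc 1 (U N)).filter Nat.Prime, (1 : ℝ) / p -
        ∑ p ∈ (Icc 1 (T N)).filter Nat.Prime, (1 : ℝ) / p := by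
    filter_upwards [hUt.eventually_ge_atTop 3, hTt.eventually_ge_atTop 3,
      hsqt.eventually_ge_atTop 1] with N h1 h2 h3
    have h4 := (abs_le.mp (hC (U N) h1)).1
    have h5 := (abs_le.mp (hC (T N) h2)).2
    set s := Real.sqrt (Real.log (U N : ℝ)) with hs
    have h6 : (T N : ℝ) ≤ Real.exp s := Nat.floor_le (Real.exp_pos _).le
    have hT3 : (3 : ℝ) ≤ T N := by exact_mod_cast h2
    have h7 : Real.log (T N) ≤ s := by
      rw [Real.log_le_iff_le_exp (by linarith)]; exact h6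
    have h8 : 0 < Real.log (T N) := Real.log_pos (by linarith)
    have h9 : Real.log (Real.log (T N)) ≤ Real.log s := Real.log_le_log h8 h7
    have h10 : Real.log s = Real.log (Real.log (U N)) / 2 := by
      rw [hs, Real.log_sqrt]
      by_contra hcon
      rw [hs, Real.sqrt_eq_zero_of_nonpos (not_le.mp hcon).le] at h3
      norm_num at h3
    linarith
  have hll : ∀ᶠ N : ℕ in atTop, B ≤ Real.log (Real.log (U N)) / 2 - 2 * C := by
    have h1 : Tendsto (fun N => Real.log (Real.log (U N : ℝ)) / 2) atTop atTop :=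
      (Real.tendsto_log_atTop.comp hlUt).atTop_div_const (by norm_num)
    filter_upwards [h1.eventually_ge_atTop (B + 2 * C)] with N hN
    linarith
  have hbig : ∀ᶠ N : ℕ in atTop, 2 / η ≤ Real.sqrt (Real.log (U N : ℝ)) :=
    hsqt.eventually_ge_atTop _
  filter_upwards [hM, hll, hlT, hlU, hTt.eventually_ge_atTop n0, hbig,
    hlogt.eventually_ge_atTop 0, hsqt.eventually_ge_atTop 1] with N hMN hllN hlTN hlUN hTn0 hbN
    hlog0 hs1
  have hnn : ∀ p : ℕ, (0 : ℝ) ≤ 1 / (p : ℝ) := fun p => by positivity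
  by_cases hA : ∃ p : ℕ, p.Prime ∧ T N < p ∧ p ≤ U N ∧ ¬ Qs ψ p
  · -- a rejected prime
    obtain ⟨p0, hp0, hT0, hU0, hQ0⟩ := hA
    have h1 : ψ p0 - 1 ≤ Rs ψ (U N) := (Rs_rejected hp0 hQ0).trans (Rs_mono hU0)
    set s := Real.sqrt (Real.log (U N : ℝ)) with hs
    have hlU0 : 0 ≤ Real.log (U N : ℝ) := by
      by_contra hcon
      rw [hs, Real.sqrt_eq_zero_of_nonpos (not_le.mp hcon).le] at hs1
      norm_num at hs1
    have hs2 : s ^ 2 = Real.log (U N : ℝ) := Real.sq_sqrt hlU0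
    have h2 : s < Real.log p0 := by
      rw [Real.lt_log_iff_exp_lt (by exact_mod_cast hp0.pos)]
      have h3 : Real.exp s < T N + 1 := Nat.lt_floor_add_one _
      have h4 : ((T N : ℝ) + 1) ≤ p0 := by exact_mod_cast hT0
      linarith
    have h3 : Real.log N ≤ Real.log p0 ^ 3 := by
      have h4 : s ^ 3 ≤ Real.log p0 ^ 3 := pow_le_pow_left₀ (by linarith) h2.le 3
      have h5 : 2 / η * s ^ 2 ≤ s ^ 3 := by
        have : 2 / η * s ^ 2 ≤ s * s ^ 2 := mul_le_mul_of_nonneg_right hbN (sq_nonneg _)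
        linarith [this, (by ring : s * s ^ 2 = s ^ 3)]
      have h6 : Real.log N ≤ 2 / η * s ^ 2 := by
        rw [hs2]
        have h7 : 2 / η * (η / 2 * Real.log N) ≤ 2 / η * Real.log (U N : ℝ) :=
          mul_le_mul_of_nonneg_left hlUN (by positivity)
        have h8 : 2 / η * (η / 2 * Real.log N) = Real.log N := by field_simp
        linarith
      linarith
    have h4 : Rs ψ ⌊Real.log (N : ℝ)⌋₊ ≤ ψ ⌊Real.log p0 ^ 3⌋₊ :=
      (Rs_le hm h0 _).trans (hm (Nat.floor_le_floor h3))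
    have h5 := hn0 p0 (hTn0.trans hT0.le)
    have h6 : Rs ψ (U N) - Rs ψ ⌊Real.log (N : ℝ)⌋₊ ≤ ∑ p ∈ (Icc 1 (U N)).filter
      (fun p : ℕ => Qs ψ p ∧ Real.log N < (p : ℝ)), (1 : ℝ) / p := by
      rw [Rs_eq, Rs_eq, sub_le_iff_le_add, ← Finset.sum_union]
      · refine Finset.sum_le_sum_of_subset_of_nonneg ?_ fun p _ _ => hnn p
        intro p hp
        simp only [Finset.mem_filter, Finset.mem_Icc, Finset.mem_union] at hp ⊢
        rcases lt_or_ge (Real.log (N : ℝ)) (p : ℝ) with h7 | h7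
        · exact Or.inl ⟨hp.1, hp.2, h7⟩
        · exact Or.inr ⟨⟨hp.1.1, Nat.le_floor h7⟩, hp.2⟩
      · rw [Finset.disjoint_left]
        intro p hp hp'
        simp only [Finset.mem_filter, Finset.mem_Icc] at hp hp'
        have h7 : (p : ℝ) ≤ Real.log N := (Nat.le_floor_iff hlog0).mp hp'.1.2
        linarith [hp.2.2]
    linarith
  · -- all primes in `(T, U]` are accepted
    push Not at hA
    refine hllN.trans (hMN.trans ?_)
    rw [sub_le_iff_le_add, ← Finset.sum_union_inter]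
    have h1 : (Icc 1 (U N)).filter Nat.Prime ⊆ (Icc 1 (U N)).filter
        (fun p : ℕ => Qs ψ p ∧ Real.log N < (p : ℝ)) ∪ (Icc 1 (T N)).filter Nat.Prime := by
      intro p hp
      simp only [Finset.mem_filter, Finset.mem_Icc, Finset.mem_union] at hp ⊢
      rcases Nat.lt_or_ge (T N) p with h2 | h2
      · refine Or.inl ⟨hp.1, hA p hp.2 h2 hp.1.2, ?_⟩
        have h3 : ((T N : ℕ) : ℝ) < p := by exact_mod_cast h2
        linarith
      · exact Or.inr ⟨⟨hp.1.1, h2⟩, hp.2⟩
    have h2 : 0 ≤ ∑ p ∈ ((Icc 1 (U N)).filter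
        (fun p : ℕ => Qs ψ p ∧ Real.log N < (p : ℝ)) ∩ (Icc 1 (T N)).filter Nat.Prime),
        (1 : ℝ) / p := Finset.sum_nonneg fun p _ => hnn p
    refine (Finset.sum_le_sum_of_subset_of_nonneg h1 fun p _ _ => hnn p).trans ?_
    linarith

end

end Pool.Agent.W5h23.CP
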