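import Mathlib

/-!
# Bounded differences on product spaces (McDiarmid's inequality), in a form adapted to successive
averaging over the coordinates
-/

set_option autoImplicit false
set_option linter.unusedSectionVars false

open MeasureTheory ProbabilityTheory Function Finset

namespace Pool.Agent.W5h23.CP

variable {ι : Type} [Fintype ι] [DecidableEq ι] {E : ι → Type} [∀ i, MeasurableSpace (E i)]
  (ν : ∀ i, Measure (E i)) [∀ i, IsProbabilityMeasure (ν i)]

/-- Replacing one coordinate by an independent copy preserves the product measure. -/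
theorem map_update (j : ι) :
    ((Measure.pi ν).prod (ν j)).map (fun z : (∀ i, E i) × E j => update z.1 j z.2) =
      Measure.pi ν := by
  symm
  refine Measure.pi_eq fun s hs => ?_
  have hm : Measurable (fun z : (∀ i, E i) × E j => update z.1 j z.2) := measurable_update'
  rw [Measure.map_apply hm (MeasurableSet.univ_pi hs)]
  have h1 : (fun z : (∀ i, E i) × E j => update z.1 j z.2) ⁻¹' (Set.univ.pi s) =
      (Set.univ.pi (update s j Set.univ)) ×ˢ (s j) := by
    ext z
    simp only [Set.mem_preimage, Set.mem_univ_pi, Set.mem_prod]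
    constructor
    · intro h
      refine ⟨fun i => ?_, ?_⟩
      · by_cases hi : i = j
        · subst hi; simp
        · have := h i
          rw [update_of_ne hi] at this ⊢
          exact this
      · have := h j
        rwa [update_self] at this
    · rintro ⟨h, h'⟩ i
      by_cases hi : i = j
      · subst hi; rwa [update_self]
      · have := h i
        rw [update_of_ne hi] at this ⊢
        exact this
  rw [h1, Measure.prod_prod, Measure.pi_pi]
  rw [← Finset.mul_prod_erase univ (fun i => ν i (update s j Set.univ i)) (mem_univ j),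
    ← Finset.mul_prod_erase univ (fun i => ν i (s i)) (mem_univ j)]
  simp only [update_self, measure_univ, one_mul]
  rw [mul_comm]
  congr 1
  refine Finset.prod_congr rfl fun i hi => ?_
  rw [update_of_ne (Finset.ne_of_mem_erase hi)]

theorem integral_update (j : ι) {G : (∀ i, E i) → ℝ} (hG : Measurable G)
    (hb : ∃ B : ℝ, ∀ x, |G x| ≤ B) :
    ∫ x, G x ∂(Measure.pi ν) = ∫ x, ∫ u, G (update x j u) ∂(ν j) ∂(Measure.pi ν) := by
  obtain ⟨B, hB⟩ := hb
  have hm : Measurable (fun z : (∀ i, E i) × E j => update z.1 j z.2) := measurable_update'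
  conv_lhs => rw [← map_update ν j]
  rw [integral_map hm.aemeasurable hG.aestronglyMeasurable]
  rw [integral_prod]
  refine Integrable.of_bound (hG.comp hm).aestronglyMeasurable B ?_
  exact Filter.Eventually.of_forall fun z => by simpa using hB _

/-- A family `Φ` obtained by successive averaging over the coordinates. -/
structure Fam (Φ : Finset ι → (∀ i, E i) → ℝ) (c : ι → ℝ) : Prop where
  meas : ∀ J, Measurable (Φ J)
  bdd : ∃ B : ℝ, ∀ J x, |Φ J x| ≤ B
  avg : ∀ J, ∀ j ∉ J, ∀ x, Φ (insert j J) x = ∫ u, Φ J (update x j u) ∂(ν j)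
  diff : ∀ J, ∀ j ∉ J, ∀ x u v, |Φ J (update x j u) - Φ J (update x j v)| ≤ c j

variable {ν}

theorem Fam.indep {Φ : Finset ι → (∀ i, E i) → ℝ} {c : ι → ℝ} (h : Fam ν Φ c) {K : Finset ι}
    {j : ι} (hj : j ∈ K) (x : ∀ i, E i) (u : E j) : Φ K (update x j u) = Φ K x := by
  have e : K = insert j (K.erase j) := (Finset.insert_erase hj).symm
  rw [e, h.avg _ j (Finset.notMem_erase j K), h.avg _ j (Finset.notMem_erase j K)]
  simp only [update_idem]

theorem one_step {j : ι} {f : E j → ℝ} (hf : Measurable f) {c : ℝ}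
    (hd : ∀ u v, |f u - f v| ≤ c) (s : ℝ) :
    ∫ u, Real.exp (s * (f u - ∫ v, f v ∂(ν j))) ∂(ν j) ≤ Real.exp (s ^ 2 * c ^ 2 / 2) := by
  have hne : Nonempty (E j) := nonempty_of_isProbabilityMeasure (ν j)
  obtain ⟨u0⟩ := hne
  have hc : 0 ≤ c := (abs_nonneg _).trans (hd u0 u0)
  have hb : ∀ᵐ u ∂(ν j), f u ∈ Set.Icc (f u0 - c) (f u0 + c) := by
    refine Filter.Eventually.of_forall fun u => ?_
    have := abs_le.mp (hd u u0)
    constructor <;> linarith
  have h1 := (hasSubgaussianMGF_of_mem_Icc hf.aemeasurable hb).mgf_le s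
  unfold mgf at h1
  refine h1.trans (Real.exp_le_exp.mpr (le_of_eq ?_))
  have : ‖(f u0 + c) - (f u0 - c)‖ = 2 * c := by
    rw [Real.norm_eq_abs]
    rw [show (f u0 + c) - (f u0 - c) = 2 * c by ring, abs_of_nonneg (by linarith)]
  push_cast
  rw [this]
  ring

theorem Fam.expo {Φ : Finset ι → (∀ i, E i) → ℝ} {c : ι → ℝ} (h : Fam ν Φ c) (s : ℝ)
    (J : Finset ι) : ∀ I : Finset ι, Disjoint I J →
    ∫ x, Real.exp (s * (Φ I x - Φ (I ∪ J) x)) ∂(Measure.pi ν) ≤
      Real.exp (s ^ 2 * (∑ j ∈ J, c j ^ 2) / 2) := by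
  obtain ⟨B, hB⟩ := h.bdd
  induction J using Finset.induction_on with
  | empty =>
    intro I _
    simp
  | insert j J hj ih =>
    intro I hI
    have hjI : j ∉ I := by
      intro h1
      exact (Finset.disjoint_left.mp hI) h1 (Finset.mem_insert_self j J)
    have hd : Disjoint (insert j I) J := by
      rw [Finset.disjoint_insert_left]
      exact ⟨hj, hI.mono_right (Finset.subset_insert j J)⟩
    have hU : I ∪ insert j J = insert j I ∪ J := by
      rw [Finset.union_insert, Finset.insert_union]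
    have ih' := ih (insert j I) hd
    set A : (∀ i, E i) → ℝ := fun x => Real.exp (s * (Φ I x - Φ (insert j I) x)) with hA
    set C : (∀ i, E i) → ℝ := fun x => Real.exp (s * (Φ (insert j I) x - Φ (insert j I ∪ J) x))
      with hC
    have hG : ∀ x, Real.exp (s * (Φ I x - Φ (I ∪ insert j J) x)) = A x * C x := by
      intro x
      rw [hA, hC]
      simp only
      rw [← Real.exp_add, hU]
      congr 1
      ring
    have hbd : ∀ K L x, |Real.exp (s * (Φ K x - Φ L x))| ≤ Real.exp (|s| * (2 * B)) := by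
      intro K L x
      rw [abs_of_pos (Real.exp_pos _)]
      refine Real.exp_le_exp.mpr ?_
      calc s * (Φ K x - Φ L x) ≤ |s * (Φ K x - Φ L x)| := le_abs_self _
        _ = |s| * |Φ K x - Φ L x| := abs_mul _ _
        _ ≤ |s| * (2 * B) := by
          refine mul_le_mul_of_nonneg_left ?_ (abs_nonneg _)
          calc |Φ K x - Φ L x| ≤ |Φ K x| + |Φ L x| := abs_sub _ _
            _ ≤ 2 * B := by linarith [hB K x, hB L x]
    have hmm : ∀ K L, Measurable fun x => Real.exp (s * (Φ K x - Φ L x)) := fun K L =>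
      Real.measurable_exp.comp (((h.meas K).sub (h.meas L)).const_mul s)
    have hCu : ∀ x u, C (update x j u) = C x := by
      intro x u
      rw [hC]
      simp only
      rw [h.indep (Finset.mem_insert_self j I), h.indep
        (Finset.mem_union_left J (Finset.mem_insert_self j I))]
    have hin : ∀ x, ∫ u, A (update x j u) * C (update x j u) ∂(ν j) ≤
        Real.exp (s ^ 2 * c j ^ 2 / 2) * C x := by
      intro x
      simp only [hCu]
      rw [integral_mul_const]
      refine mul_le_mul_of_nonneg_right ?_ (Real.exp_pos _).le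
      have hf : Measurable fun u => Φ I (update x j u) :=
        (h.meas I).comp (measurable_update x)
      have h2 := one_step (ν := ν) (j := j) hf (c := c j) (fun u v => h.diff I j hjI x u v) s
      refine le_trans (le_of_eq ?_) h2
      refine integral_congr_ae (Filter.Eventually.of_forall fun u => ?_)
      rw [hA]
      simp only
      rw [h.indep (Finset.mem_insert_self j I), h.avg I j hjI]
    simp only [hG]
    rw [integral_update ν j (G := fun x => A x * C x) ((hmm _ _).mul (hmm _ _))
      ⟨Real.exp (|s| * (2 * B)) * Real.exp (|s| * (2 * B)), fun x => by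
        rw [abs_mul]
        exact mul_le_mul (hbd _ _ _) (hbd _ _ _) (abs_nonneg _) (Real.exp_pos _).le⟩]
    have hintC : Integrable C (Measure.pi ν) :=
      Integrable.of_bound (hmm _ _).aestronglyMeasurable (Real.exp (|s| * (2 * B)))
        (Filter.Eventually.of_forall fun x => by rw [Real.norm_eq_abs]; exact hbd _ _ x)
    calc ∫ x, ∫ u, A (update x j u) * C (update x j u) ∂(ν j) ∂(Measure.pi ν)
        ≤ ∫ x, Real.exp (s ^ 2 * c j ^ 2 / 2) * C x ∂(Measure.pi ν) := by
          refine integral_mono_of_nonneg ?_ (hintC.const_mul _) ?_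
          · exact Filter.Eventually.of_forall fun x => integral_nonneg fun u =>
              mul_nonneg (Real.exp_pos _).le (Real.exp_pos _).le
          · exact Filter.Eventually.of_forall hin
      _ = Real.exp (s ^ 2 * c j ^ 2 / 2) * ∫ x, C x ∂(Measure.pi ν) := integral_const_mul _ _
      _ ≤ Real.exp (s ^ 2 * c j ^ 2 / 2) * Real.exp (s ^ 2 * (∑ i ∈ J, c i ^ 2) / 2) :=
          mul_le_mul_of_nonneg_left ih' (Real.exp_pos _).le
      _ = Real.exp (s ^ 2 * (∑ i ∈ insert j J, c i ^ 2) / 2) := by
          rw [← Real.exp_add, Finset.sum_insert hj]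
          congr 1
          ring

/-- McDiarmid's inequality. -/
theorem Fam.tail {Φ : Finset ι → (∀ i, E i) → ℝ} {c : ι → ℝ} (h : Fam ν Φ c)
    (J : Finset ι) {V t : ℝ} (hV : 0 < V) (hJ : ∑ j ∈ J, c j ^ 2 ≤ V) (ht : 0 ≤ t) :
    (Measure.pi ν).real {x | t ≤ Φ ∅ x - Φ J x} ≤ Real.exp (-(t ^ 2) / (2 * V)) := by
  obtain ⟨B, hB⟩ := h.bdd
  have h1 := h.expo (t / V) J ∅ (Finset.disjoint_empty_left J)
  rw [Finset.empty_union] at h1
  have hint : Integrable (fun x => Real.exp (t / V * (Φ ∅ x - Φ J x))) (Measure.pi ν) := by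
    refine Integrable.of_bound (Real.measurable_exp.comp
      (((h.meas ∅).sub (h.meas J)).const_mul (t / V))).aestronglyMeasurable
      (Real.exp (|t / V| * (2 * B))) (Filter.Eventually.of_forall fun x => ?_)
    rw [Real.norm_eq_abs, abs_of_pos (Real.exp_pos _)]
    refine Real.exp_le_exp.mpr ?_
    calc t / V * (Φ ∅ x - Φ J x) ≤ |t / V * (Φ ∅ x - Φ J x)| := le_abs_self _
      _ = |t / V| * |Φ ∅ x - Φ J x| := abs_mul _ _
      _ ≤ |t / V| * (2 * B) := by
        refine mul_le_mul_of_nonneg_left ?_ (abs_nonneg _)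
        calc |Φ ∅ x - Φ J x| ≤ |Φ ∅ x| + |Φ J x| := abs_sub _ _
          _ ≤ 2 * B := by linarith [hB ∅ x, hB J x]
  have h2 := measure_ge_le_exp_mul_mgf (μ := Measure.pi ν) (X := fun x => Φ ∅ x - Φ J x)
    (t := t / V) t (div_nonneg ht hV.le) hint
  refine h2.trans ?_
  unfold mgf
  calc Real.exp (-(t / V) * t) * ∫ x, Real.exp (t / V * (Φ ∅ x - Φ J x)) ∂(Measure.pi ν)
      ≤ Real.exp (-(t / V) * t) * Real.exp ((t / V) ^ 2 * (∑ j ∈ J, c j ^ 2) / 2) :=
        mul_le_mul_of_nonneg_left h1 (Real.exp_pos _).le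
    _ = Real.exp (-(t / V) * t + (t / V) ^ 2 * (∑ j ∈ J, c j ^ 2) / 2) := by rw [Real.exp_add]
    _ ≤ Real.exp (-(t ^ 2) / (2 * V)) := by
        refine Real.exp_le_exp.mpr ?_
        have h3 : (t / V) ^ 2 * (∑ j ∈ J, c j ^ 2) ≤ (t / V) ^ 2 * V :=
          mul_le_mul_of_nonneg_left hJ (sq_nonneg _)
        have h4 : (t / V) ^ 2 * V = t ^ 2 / V := by field_simp
        have h5 : -(t / V) * t = -(t ^ 2 / V) := by ring
        have h6 : -(t ^ 2) / (2 * V) = -(t ^ 2 / V) / 2 := by field_simp
        rw [h5, h6]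
        linarith

end Pool.Agent.W5h23.CP
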