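import Pool.Agent.W5h23.CP.Short
import Pool.Agent.W5h23.CP.Greedy

/-!
# The Möbius function with random signs in short intervals
-/

set_option autoImplicit false
set_option linter.unusedSectionVars false

open MeasureTheory ProbabilityTheory Function Finset Filter Topology

namespace Pool.Agent.W5h23.CP

/-- translation of a sum over an interval -/
theorem sum_translate (f : ℕ → ℂ) (hf : ∀ n, ‖f n‖ ≤ 1) {x l A : ℕ} (hA : A ≤ l) :
    ‖∑ n ∈ Ioc x (x + l), f n‖ ≤ A +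
      ‖∑ m ∈ Ioc (x - A) ((x - A) + (x + l - A - (x - A))), f (m + A)‖ := by
  have e1 : ∑ m ∈ Ioc (x - A) ((x - A) + (x + l - A - (x - A))), f (m + A) =
      ∑ n ∈ Ioc (max x A) (x + l), f n := by
    refine Finset.sum_nbij' (fun m => m + A) (fun n => n - A) ?_ ?_ ?_ ?_ ?_
    · intro m hm
      rw [Finset.mem_Ioc] at hm ⊢
      omega
    · intro n hn
      rw [Finset.mem_Ioc] at hn ⊢
      omega
    · intro m _
      exact Nat.add_sub_cancel m A
    · intro n hn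
      rw [Finset.mem_Ioc] at hn
      exact Nat.sub_add_cancel (by omega)
    · intro m _; rfl
  have e2 : ∑ n ∈ Ioc x (x + l), f n = ∑ n ∈ Ioc x (max x A), f n +
      ∑ n ∈ Ioc (max x A) (x + l), f n := by
    rw [← Finset.sum_union]
    · congr 1
      ext n
      simp only [Finset.mem_Ioc, Finset.mem_union]
      omega
    · rw [Finset.disjoint_left]
      intro n hn hn'
      rw [Finset.mem_Ioc] at hn hn'
      omega
  rw [e1, e2]
  refine (norm_add_le _ _).trans (add_le_add ?_ le_rfl)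
  refine (norm_sum_le _ _).trans ((Finset.sum_le_sum fun n _ => hf n).trans ?_)
  rw [Finset.sum_const, Nat.card_Ioc, nsmul_eq_mul, mul_one]
  have : max x A - x ≤ A := by omega
  exact_mod_cast this

/-- **Chowla's conjecture with random signs, in all short intervals.** -/
theorem chowla_short {Ω : Type} [MeasurableSpace Ω] {P : Measure Ω} [IsProbabilityMeasure P]
    {X : ℕ → Ω → ℤ} (hX : Signs P X)
    (hdiv : ∀ η : ℝ, 0 < η → Tendsto (fun N : ℕ => ∑ p ∈ (Icc 1 ⌊(N : ℝ) ^ η⌋₊).filter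
      (fun p : ℕ => p.Prime ∧ Real.log N < (p : ℝ)),
        min (P.real {ω | X p ω = -1}) (1 - P.real {ω | X p ω = -1}) / p) atTop atTop)
    (A : ℕ) {𝒢 : ℕ → Finset (ℕ → ℂ)} (hcard : ∀ᶠ N : ℕ in atTop, (𝒢 N).card ≤ N ^ A)
    (hg : ∀ N, ∀ g ∈ 𝒢 N, ∀ n, ‖g n‖ ≤ 1) :
    ∀ᵐ ω ∂P, ∀ (r : ℕ) (ε : Fin r → ℕ), (∃ i, ε i = 1) →
      ∀ η : ℝ, 0 < η → ∀ δ : ℝ, 0 < δ → ∀ᶠ N : ℕ in atTop, ∀ x l : ℕ, x ≤ N →
      (N : ℝ) ^ η ≤ l → l ≤ N → ∀ α : Fin r → ℤ, Injective α →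
      (∀ i, |(α i : ℝ)| ≤ Real.log N / 2) → ∀ g ∈ 𝒢 N,
      ‖∑ n ∈ Ioc x (x + l), g n * ∏ i : Fin r,
        ((muX (fun p => X p ω) (((n : ℤ) + α i).toNat) : ℤ) : ℂ) ^ (ε i)‖ ≤ δ * l := by
  classical
  rw [ae_all_iff]; intro r
  rw [ae_all_iff]; intro ε
  by_cases hε : ∃ i, ε i = 1
  swap
  · exact Filter.Eventually.of_forall fun ω h' => absurd h' hε
  obtain ⟨i0, hi0⟩ := hε
  have hRM := randMult_FM hX ε
  have hdiv' : ∀ η : ℝ, 0 < η → Tendsto (fun N : ℕ =>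
      Dw (mn P (FM X ε) i0) (Real.log N) ⌊(N : ℝ) ^ η⌋₊) atTop atTop := by
    intro η hη
    simp only [Dw_FM hX ε hi0]
    exact (hdiv η hη).const_mul_atTop (by norm_num)
  set AN : ℕ → ℕ := fun N => ⌊Real.log N / 2⌋₊ with hAN
  set 𝒢' : ℕ → Finset (ℕ → ℂ) := fun N => (𝒢 N).image (fun g m => g (m + AN N)) with h𝒢'
  have hcard' : ∀ᶠ N : ℕ in atTop, (𝒢' N).card ≤ N ^ A := by
    filter_upwards [hcard] with N hN
    exact Finset.card_image_le.trans hN
  have hg' : ∀ N, ∀ g ∈ 𝒢' N, ∀ n, ‖g n‖ ≤ 1 := by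
    intro N g hgg n
    obtain ⟨g0, hg0, rfl⟩ := Finset.mem_image.mp hgg
    exact hg N g0 hg0 _
  have hlogt : Tendsto (fun N : ℕ => Real.log (N : ℝ)) atTop atTop :=
    Real.tendsto_log_atTop.comp tendsto_natCast_atTop_atTop
  filter_upwards [short_as hRM i0 hdiv' A hcard' hg'] with ω hω _
  intro η hη δ hδ
  have hη2 : 0 < min η 1 / 2 := by
    have : 0 < min η 1 := lt_min hη one_pos
    linarith
  -- `log N ≤ c N ^ η`
  have hlog1 : ∀ᶠ N : ℕ in atTop, Real.log N ≤ min (1 / 2) (δ / 2) * (N : ℝ) ^ η := by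
    have h1 := (isLittleO_log_rpow_atTop (r := η) hη).comp_tendsto tendsto_natCast_atTop_atTop
    have h2 := h1.def (c := min (1 / 2) (δ / 2)) (by positivity)
    filter_upwards [h2, hlogt.eventually_ge_atTop 0] with N hN hN1
    simp only [Function.comp_apply, Real.norm_eq_abs] at hN
    rwa [abs_of_nonneg (by linarith), abs_of_nonneg (by positivity)] at hN
  have hpow2 : ∀ᶠ N : ℕ in atTop, (N : ℝ) ^ (min η 1 / 2) ≤ (N : ℝ) ^ η / 2 := by
    have h1 : Tendsto (fun N : ℕ => (N : ℝ) ^ (min η 1 / 2)) atTop atTop :=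
      (tendsto_rpow_atTop hη2).comp tendsto_natCast_atTop_atTop
    filter_upwards [h1.eventually_ge_atTop 2, eventually_ge_atTop 1] with N hN hN1
    have hN1' : (1 : ℝ) ≤ N := by exact_mod_cast hN1
    have h3 : (N : ℝ) ^ (min η 1 / 2) * (N : ℝ) ^ (min η 1 / 2) = (N : ℝ) ^ (min η 1) := by
      rw [← Real.rpow_add (by linarith)]; congr 1; ring
    have h4 : (N : ℝ) ^ (min η 1) ≤ (N : ℝ) ^ η :=
      Real.rpow_le_rpow_of_exponent_le hN1' (min_le_left _ _)
    nlinarith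
  filter_upwards [hω (min η 1 / 2) hη2 (δ / 2) (by positivity), hlog1, hpow2,
    hlogt.eventually_ge_atTop 0, eventually_ge_atTop 1] with N hN hlN hpN hl0 hN1
  intro x l hx hηl hlN' α hα hαb g hgg
  set B := AN N with hB
  have hBle : (B : ℝ) ≤ Real.log N / 2 := Nat.floor_le (by linarith)
  have hBgt : Real.log N / 2 < B + 1 := Nat.lt_floor_add_one _
  have hNη : 0 ≤ (N : ℝ) ^ η := by positivity
  have hlogle : Real.log N ≤ (N : ℝ) ^ η / 2 := by
    have := mul_le_mul_of_nonneg_right (min_le_left (1 / 2 : ℝ) (δ / 2)) hNη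
    linarith
  have hlogle2 : Real.log N ≤ δ / 2 * (N : ℝ) ^ η := by
    have := mul_le_mul_of_nonneg_right (min_le_right (1 / 2 : ℝ) (δ / 2)) hNη
    linarith
  have hBl : B ≤ l := by
    have : (B : ℝ) ≤ l := by linarith
    exact_mod_cast this
  have hαB : ∀ i, 0 ≤ α i + B := by
    intro i
    have h1 := (abs_le.mp (hαb i)).1
    by_contra hcon
    have h2 : α i + (B : ℤ) ≤ -1 := by omega
    have h3 : ((α i + (B : ℤ) : ℤ) : ℝ) ≤ -1 := by exact_mod_cast h2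
    push_cast at h3
    linarith
  set h : Fin r → ℕ := fun i => (α i + B).toNat with hh
  have hhi : ∀ i, ((h i : ℕ) : ℤ) = α i + B := fun i => Int.toNat_of_nonneg (hαB i)
  have hinj : Injective h := by
    intro i j hij
    have h1 : ((h i : ℕ) : ℤ) = h j := by rw [hij]
    rw [hhi, hhi] at h1
    exact hα (by linarith)
  have hhb : ∀ i, (h i : ℝ) ≤ Real.log N := by
    intro i
    have h1 : ((h i : ℕ) : ℝ) = (α i : ℝ) + B := by
      have := hhi i
      exact_mod_cast this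
    rw [h1]
    have := (abs_le.mp (hαb i)).2
    linarith
  set f : ℕ → ℂ := fun n => g n * ∏ i : Fin r,
    ((muX (fun p => X p ω) (((n : ℤ) + α i).toNat) : ℤ) : ℂ) ^ (ε i) with hf
  have hf1 : ∀ n, ‖f n‖ ≤ 1 := by
    intro n
    rw [hf]
    simp only
    rw [norm_mul, norm_prod]
    refine mul_le_one₀ (hg N g hgg n) (Finset.prod_nonneg fun _ _ => norm_nonneg _)
      (Finset.prod_le_one (fun _ _ => norm_nonneg _) fun i _ => ?_)
    rw [norm_pow]
    refine pow_le_one₀ (norm_nonneg _) ?_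
    rw [Complex.norm_intCast]
    have := abs_muX_le (hX.sign · ω) (((n : ℤ) + α i).toNat)
    exact_mod_cast this
  refine (sum_translate f hf1 (x := x) hBl).trans ?_
  set x' := x - B with hx'
  set l' := x + l - B - (x - B) with hl'
  have hl'le : l' ≤ l := by omega
  have hl'ge : (l : ℝ) - B ≤ l' := by
    have : l ≤ l' + B := by omega
    have h2 : (l : ℝ) ≤ ((l' + B : ℕ) : ℝ) := by exact_mod_cast this
    push_cast at h2
    linarith
  have h1 : ‖∑ m ∈ Ioc x' (x' + l'), f (m + B)‖ ≤ δ / 2 * l' := by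
    have h2 := hN x' l' (by omega) (by linarith) (by omega) h hinj hhb
      (fun m => g (m + B)) (Finset.mem_image.mpr ⟨g, hgg, rfl⟩)
    refine le_trans (le_of_eq ?_) h2
    congr 1
    refine Finset.sum_congr rfl fun m _ => ?_
    rw [hf]
    simp only [FM]
    congr 1
    refine Finset.prod_congr rfl fun i _ => ?_
    have e1 : (((m + B : ℕ) : ℤ) + α i).toNat = m + h i := by
      have := hhi i
      omega
    rw [e1]
  have h3 : (l' : ℝ) ≤ l := by exact_mod_cast hl'le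
  calc (B : ℝ) + ‖∑ m ∈ Ioc x' (x' + l'), f (m + B)‖ ≤ Real.log N / 2 + δ / 2 * l' := by linarith
    _ ≤ δ / 2 * l + δ / 2 * l := by
        have h4 : δ / 2 * (l' : ℝ) ≤ δ / 2 * l := mul_le_mul_of_nonneg_left h3 (by linarith)
        have h5 : δ / 2 * (N : ℝ) ^ η ≤ δ / 2 * l := mul_le_mul_of_nonneg_left hηl (by linarith)
        linarith
    _ = δ * l := by ring

/-- **Thin sets of primes such that the Möbius function satisfies Chowla's conjecture in all short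
intervals after changing its sign at these primes.** -/
theorem thin_sets (ψ : ℕ → ℝ) (hm : Monotone ψ) (h0 : 0 ≤ ψ 0)
    (hψ : Tendsto (fun n : ℕ => ψ n - ψ ⌊Real.log n ^ 3⌋₊) atTop atTop)
    (A : ℕ) (𝒢 : ℕ → Finset (ℕ → ℂ)) (hcard : ∀ᶠ N : ℕ in atTop, (𝒢 N).card ≤ N ^ A)
    (hg : ∀ N, ∀ g ∈ 𝒢 N, ∀ n, ‖g n‖ ≤ 1) :
    ∃ s : ℕ → ℤ, (∀ p, s p = 1 ∨ s p = -1) ∧ (∀ p, s p = -1 → p.Prime) ∧
      (∀ x : ℕ, ∑ p ∈ (Icc 1 x).filter (fun p => s p = -1), (1 : ℝ) / p ≤ ψ x) ∧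
      ∀ (r : ℕ) (ε : Fin r → ℕ), (∃ i, ε i = 1) →
      ∀ η : ℝ, 0 < η → ∀ δ : ℝ, 0 < δ → ∀ᶠ N : ℕ in atTop, ∀ x l : ℕ, x ≤ N →
      (N : ℝ) ^ η ≤ l → l ≤ N → ∀ α : Fin r → ℤ, Injective α →
      (∀ i, |(α i : ℝ)| ≤ Real.log N / 2) → ∀ g ∈ 𝒢 N,
      ‖∑ n ∈ Ioc x (x + l), g n * ∏ i : Fin r,
        ((muX s (((n : ℤ) + α i).toNat) : ℤ) : ℂ) ^ (ε i)‖ ≤ δ * l := by
  classical
  obtain ⟨Ω, mΩ, P, hP, X, hX, hX1, hX2⟩ := exists_signs (Qs ψ)
  have hdiv : ∀ η : ℝ, 0 < η → Tendsto (fun N : ℕ => ∑ p ∈ (Icc 1 ⌊(N : ℝ) ^ η⌋₊).filter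
      (fun p : ℕ => p.Prime ∧ Real.log N < (p : ℝ)),
        min (P.real {ω | X p ω = -1}) (1 - P.real {ω | X p ω = -1}) / p) atTop atTop := by
    intro η hη
    have h1 := (greedy_windows hm h0 hψ hη).const_mul_atTop (r := 1 / 2) (by norm_num)
    refine h1.congr fun N => ?_
    rw [Finset.mul_sum]
    have e1 : ∀ p, Qs ψ p → min (P.real {ω | X p ω = -1}) (1 - P.real {ω | X p ω = -1}) / (p : ℝ) =
        1 / 2 * (1 / (p : ℝ)) := by
      intro p hp
      rw [hX1 p hp]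
      norm_num
      ring
    have e2 : ∀ p, ¬ Qs ψ p → min (P.real {ω | X p ω = -1})
        (1 - P.real {ω | X p ω = -1}) / (p : ℝ) = 0 := by
      intro p hp
      have : {ω | X p ω = -1} = ∅ := by
        ext ω
        simp [hX2 p hp ω]
      rw [this]
      simp
    refine Finset.sum_subset_zero_on_sdiff ?_ ?_ ?_
    · intro p hp
      rw [Finset.mem_filter] at hp ⊢
      exact ⟨hp.1, hp.2.1.1, hp.2.2⟩
    · intro p hp
      rw [Finset.mem_sdiff, Finset.mem_filter, Finset.mem_filter] at hp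
      refine e2 p fun hQ => hp.2 ⟨hp.1.1, hQ, hp.1.2.2⟩
    · intro p hp
      exact (e1 p (Finset.mem_filter.mp hp).2.1).symm
  obtain ⟨ω, hω⟩ := (chowla_short hX hdiv A hcard hg).exists
  have hprime : ∀ p, X p ω = -1 → Qs ψ p := by
    intro p hp
    by_contra hQ
    rw [hX2 p hQ ω] at hp
    norm_num at hp
  refine ⟨fun p => X p ω, fun p => hX.sign p ω, fun p hp => (hprime p hp).1, ?_, hω⟩
  intro x
  refine le_trans ?_ (Rs_le hm h0 x)
  rw [Rs_eq]
  refine Finset.sum_le_sum_of_subset_of_nonneg ?_ fun p _ _ => by positivity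
  intro p hp
  rw [Finset.mem_filter] at hp ⊢
  exact ⟨hp.1, hprime p hp.2⟩

end Pool.Agent.W5h23.CP
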