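import Pool.Agent.W5h23.CP.ShPrAS
import Pool.Agent.W5h23.CP.Greedy

/-!
# The Möbius function with random signs at shifted primes
-/

set_option autoImplicit false
set_option linter.unusedSectionVars false

open MeasureTheory ProbabilityTheory Function Finset Filter Topology

namespace Pool.Agent.W5h23.CP

/-- from primes to the von Mangoldt function -/
theorem mangoldt_conv {s : ℕ → ℝ} (hs : ∀ n, |s n| ≤ 1) {N : ℕ} (hN : 1 ≤ N) :
    |∑ n ∈ Icc 1 N, ArithmeticFunction.vonMangoldt n * s n - ∑ q ∈ PP N, Real.log q * s q| ≤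
      2 * Real.sqrt N * Real.log N := by
  have hN1 : (1 : ℝ) ≤ N := by exact_mod_cast hN
  have e0 : Icc 1 N = Ioc 0 N := by
    ext n
    simp only [Finset.mem_Icc, Finset.mem_Ioc]
    omega
  have e1 : ∑ n ∈ Icc 1 N, ArithmeticFunction.vonMangoldt n * s n -
      ∑ q ∈ PP N, Real.log q * s q =
      ∑ n ∈ (Ioc 0 N).filter (fun n => ¬ n.Prime), ArithmeticFunction.vonMangoldt n * s n := by
    unfold PP
    rw [e0, ← Finset.sum_filter_add_sum_filter_not (Ioc 0 N) Nat.Prime]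
    have e2 : ∑ n ∈ (Ioc 0 N).filter Nat.Prime, ArithmeticFunction.vonMangoldt n * s n =
        ∑ q ∈ (Ioc 0 N).filter Nat.Prime, Real.log q * s q := by
      refine Finset.sum_congr rfl fun n hn => ?_
      rw [ArithmeticFunction.vonMangoldt_apply_prime (Finset.mem_filter.mp hn).2]
    rw [e2]
    ring
  rw [e1]
  have h4 := Chebyshev.psi_sub_theta_le (x := (N : ℝ)) hN1
  rw [Chebyshev.psi_sub_theta_eq_sum_not_prime, Nat.floor_natCast] at h4
  refine le_trans ?_ h4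
  refine (Finset.abs_sum_le_sum_abs _ _).trans (Finset.sum_le_sum fun n _ => ?_)
  rw [abs_mul, abs_of_nonneg ArithmeticFunction.vonMangoldt_nonneg]
  exact mul_le_of_le_one_right ArithmeticFunction.vonMangoldt_nonneg (hs n)

theorem mangoldt_lim {s : ℕ → ℝ} (hs : ∀ n, |s n| ≤ 1)
    (h : Tendsto (fun N : ℕ => (∑ q ∈ PP N, Real.log q * s q) / (N : ℝ)) atTop (𝓝 0)) :
    Tendsto (fun N : ℕ => (∑ n ∈ Icc 1 N, ArithmeticFunction.vonMangoldt n * s n) / (N : ℝ)) atTop
      (𝓝 0) := by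
  have h1 : Tendsto (fun N : ℕ => (∑ n ∈ Icc 1 N, ArithmeticFunction.vonMangoldt n * s n -
      ∑ q ∈ PP N, Real.log q * s q) / (N : ℝ)) atTop (𝓝 0) := by
    have h2 : Tendsto (fun x : ℝ => 2 * (Real.log x / x ^ (1 / 2 : ℝ))) atTop (𝓝 (2 * 0)) :=
      ((isLittleO_log_rpow_atTop (r := 1 / 2) (by norm_num)).tendsto_div_nhds_zero).const_mul 2
    rw [mul_zero] at h2
    have h3 := h2.comp tendsto_natCast_atTop_atTop
    refine squeeze_zero_norm' ?_ h3
    filter_upwards [eventually_ge_atTop 1] with N hN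
    have hN0 : (0 : ℝ) < N := by exact_mod_cast hN
    rw [Real.norm_eq_abs, abs_div, abs_of_pos hN0, div_le_iff₀ hN0]
    refine (mangoldt_conv hs hN).trans (le_of_eq ?_)
    simp only [Function.comp_apply]
    rw [← Real.sqrt_eq_rpow]
    have h4 : Real.sqrt N * Real.sqrt N = N := Real.mul_self_sqrt hN0.le
    have h5 : 0 < Real.sqrt (N : ℝ) := Real.sqrt_pos.2 hN0
    rw [mul_assoc 2 (Real.log N / Real.sqrt N), div_mul_eq_mul_div, ← h4]
    have h6 : Real.sqrt (Real.sqrt (N : ℝ) * Real.sqrt N) = Real.sqrt N := by rw [h4]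
    rw [h6]
    field_simp
  have h2 := h1.add h
  rw [add_zero] at h2
  refine h2.congr fun N => ?_
  rw [← add_div]
  congr 1
  ring

/-- **Möbius with random signs at shifted primes.** -/
theorem shifted {Ω : Type} [MeasurableSpace Ω] {P : Measure Ω} [IsProbabilityMeasure P]
    {X : ℕ → Ω → ℤ} (hX : Signs P X)
    (hdiv : Tendsto (fun N : ℕ => ∑ p ∈ (Icc 1 ⌊Real.log N⌋₊).filter
      (fun p : ℕ => p.Prime ∧ Real.log (Real.log N) < (p : ℝ)),
        min (P.real {ω | X p ω = -1}) (1 - P.real {ω | X p ω = -1}) / p) atTop atTop) :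
    ∀ᵐ ω ∂P, ∀ (r : ℕ) (h : Fin r → ℕ), Injective h → ∀ (ε : Fin r → ℕ),
      (∃ i, ε i = 1 ∧ 1 ≤ h i) →
      Tendsto (fun N : ℕ => (∑ n ∈ Icc 1 N, ArithmeticFunction.vonMangoldt n * ∏ i : Fin r,
        ((muX (fun p => X p ω) (n + h i) : ℤ) : ℝ) ^ (ε i)) / (N : ℝ)) atTop (𝓝 0) := by
  rw [ae_all_iff]; intro r
  rw [ae_all_iff]; intro h
  by_cases hh : Injective h
  swap
  · exact Filter.Eventually.of_forall fun ω h' => absurd h' hh
  rw [Filter.eventually_imp_distrib_left]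
  intro _
  rw [ae_all_iff]; intro ε
  by_cases hε : ∃ i, ε i = 1 ∧ 1 ≤ h i
  swap
  · exact Filter.Eventually.of_forall fun ω h' => absurd h' hε
  obtain ⟨i0, hi0, hh0⟩ := hε
  have hRM := randMult_FM hX ε
  have hdiv' : Tendsto (fun N : ℕ =>
      Dw (mn P (FM X ε) i0) (Real.log (Real.log N)) ⌊Real.log N⌋₊) atTop atTop := by
    simp only [Dw_FM hX ε hi0]
    exact hdiv.const_mul_atTop (by norm_num)
  filter_upwards [primes_as hRM hh i0 hh0 hdiv' (g := fun _ => 1) (fun _ => by simp)] with ω hω _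
  have hb : ∀ n, |∏ i : Fin r, ((muX (fun p => X p ω) (n + h i) : ℤ) : ℝ) ^ (ε i)| ≤ 1 := by
    intro n
    rw [Finset.abs_prod]
    refine Finset.prod_le_one (fun _ _ => abs_nonneg _) fun i _ => ?_
    rw [abs_pow]
    refine pow_le_one₀ (abs_nonneg _) ?_
    have := abs_muX_le (hX.sign · ω) (n + h i)
    exact_mod_cast this
  refine mangoldt_lim hb ?_
  have h3 : ∀ N : ℕ, Mn (sp (FM X ε) (fun _ => 1) h ω) N =
      (((∑ q ∈ PP N, Real.log q * ∏ i : Fin r,
        ((muX (fun p => X p ω) (q + h i) : ℤ) : ℝ) ^ (ε i)) / (N : ℝ) : ℝ) : ℂ) := by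
    intro N
    unfold Mn
    rw [sum_sp]
    simp only [FM]
    push_cast
    simp only [one_mul]
    ring
  simp only [h3] at hω
  have h4 := (Complex.continuous_re.tendsto 0).comp hω
  simpa only [Function.comp_def, Complex.ofReal_re, Complex.zero_re] using h4

/-- the sum of the problem -/
theorem problem_form {f : ℕ → ℝ}
    (h : Tendsto (fun N : ℕ => (∑ n ∈ Icc 1 N, ArithmeticFunction.vonMangoldt n * f (n + 1)) /
      (N : ℝ)) atTop (𝓝 0)) :
    Tendsto (fun X : ℕ => (∑ n ∈ Icc 1 X, f n * ArithmeticFunction.vonMangoldt (n - 1)) /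
      (X : ℝ)) atTop (𝓝 0) := by
  rw [← tendsto_add_atTop_iff_nat 1]
  have e1 : ∀ N : ℕ, ∑ n ∈ Icc 1 (N + 1), f n * ArithmeticFunction.vonMangoldt (n - 1) =
      ∑ n ∈ Icc 1 N, ArithmeticFunction.vonMangoldt n * f (n + 1) := by
    intro N
    have e2 : Icc 1 (N + 1) = insert 1 ((Icc 1 N).image (· + 1)) := by
      ext n
      simp only [Finset.mem_Icc, Finset.mem_insert, Finset.mem_image]
      constructor
      · intro hn
        rcases Nat.eq_or_lt_of_le hn.1 with h1 | h1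
        · exact Or.inl h1.symm
        · exact Or.inr ⟨n - 1, ⟨by omega, by omega⟩, by omega⟩
      · rintro (h1 | ⟨m, hm, rfl⟩)
        · omega
        · omega
    rw [e2, Finset.sum_insert (by
      simp only [Finset.mem_image, Finset.mem_Icc]
      rintro ⟨m, hm, hm1⟩
      omega), Finset.sum_image (by
      intro x _ x' _ hxx
      exact Nat.add_right_cancel hxx)]
    simp only [Nat.sub_self, Nat.add_sub_cancel, ArithmeticFunction.map_zero, mul_zero, zero_add]
    exact Finset.sum_congr rfl fun n _ => mul_comm _ _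
  have h2 : Tendsto (fun N : ℕ => (∑ n ∈ Icc 1 N, ArithmeticFunction.vonMangoldt n * f (n + 1)) /
      (N : ℝ) * ((N : ℝ) / ((N + 1 : ℕ) : ℝ))) atTop (𝓝 (0 * 1)) := by
    refine h.mul ?_
    have := tendsto_natCast_div_add_atTop (𝕜 := ℝ) (1 : ℝ)
    refine this.congr fun N => ?_
    push_cast
    rfl
  rw [zero_mul] at h2
  refine h2.congr' ?_
  filter_upwards [eventually_ge_atTop 1] with N hN
  have hN0 : (N : ℝ) ≠ 0 := by
    have : (0 : ℝ) < N := by exact_mod_cast hN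
    exact this.ne'
  rw [e1, div_mul_div_cancel₀ hN0]

/-- **Thin sets of primes: shifted primes.** -/
theorem thin_shifted (ψ : ℕ → ℝ) (hm : Monotone ψ) (h0 : 0 ≤ ψ 0)
    (hψ : Tendsto (fun n : ℕ => ψ n - ψ ⌊Real.log n ^ 3⌋₊) atTop atTop) :
    ∃ s : ℕ → ℤ, (∀ p, s p = 1 ∨ s p = -1) ∧ (∀ p, s p = -1 → p.Prime) ∧
      (∀ x : ℕ, ∑ p ∈ (Icc 1 x).filter (fun p => s p = -1), (1 : ℝ) / p ≤ ψ x) ∧
      ∀ (r : ℕ) (h : Fin r → ℕ), Injective h → ∀ (ε : Fin r → ℕ),
      (∃ i, ε i = 1 ∧ 1 ≤ h i) →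
      Tendsto (fun N : ℕ => (∑ n ∈ Icc 1 N, ArithmeticFunction.vonMangoldt n * ∏ i : Fin r,
        ((muX s (n + h i) : ℤ) : ℝ) ^ (ε i)) / (N : ℝ)) atTop (𝓝 0) := by
  classical
  obtain ⟨Ω, mΩ, P, hP, X, hX, hX1, hX2⟩ := exists_signs (Qs ψ)
  set a : ℕ → ℝ := fun p => if Qs ψ p then 0 else 1 with ha
  have ha0 : ∀ p, 0 ≤ a p := fun p => by simp only [ha]; split_ifs <;> norm_num
  have ha1 : ∀ p, a p ≤ 1 := fun p => by simp only [ha]; split_ifs <;> norm_num
  have e1 : ∀ p, Qs ψ p → min (P.real {ω | X p ω = -1}) (1 - P.real {ω | X p ω = -1}) / (p : ℝ) =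
      1 / 2 * (1 / (p : ℝ)) := by
    intro p hp
    rw [hX1 p hp]
    norm_num
    ring
  have e2 : ∀ p, ¬ Qs ψ p → min (P.real {ω | X p ω = -1})
      (1 - P.real {ω | X p ω = -1}) / (p : ℝ) = 0 := by
    intro p hp
    have : {ω | X p ω = -1} = ∅ := by
      ext ω
      simp [hX2 p hp ω]
    rw [this]
    simp
  -- both sums in terms of `Dw a`
  have e3 : ∀ (y : ℝ) (Y : ℕ), ∑ p ∈ (Icc 1 Y).filter (fun p : ℕ => p.Prime ∧ y < (p : ℝ)),
      min (P.real {ω | X p ω = -1}) (1 - P.real {ω | X p ω = -1}) / (p : ℝ) =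
      1 / 2 * Dw a y Y := by
    intro y Y
    unfold Dw PP
    rw [Finset.filter_filter, Finset.mul_sum]
    refine Finset.sum_congr rfl fun p _ => ?_
    by_cases hp : Qs ψ p
    · rw [e1 p hp]; simp only [ha, if_pos hp]; ring
    · rw [e2 p hp]; simp only [ha, if_neg hp]; ring
  have e4 : ∀ (y : ℝ) (Y : ℕ), ∑ p ∈ (Icc 1 Y).filter (fun p : ℕ => Qs ψ p ∧ y < (p : ℝ)),
      (1 : ℝ) / p = Dw a y Y := by
    intro y Y
    unfold Dw PP
    rw [Finset.filter_filter]
    refine Finset.sum_subset_zero_on_sdiff ?_ ?_ ?_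
    · intro p hp
      rw [Finset.mem_filter] at hp ⊢
      exact ⟨hp.1, hp.2.1.1, hp.2.2⟩
    · intro p hp
      rw [Finset.mem_sdiff, Finset.mem_filter, Finset.mem_filter] at hp
      have : ¬ Qs ψ p := fun hQ => hp.2 ⟨hp.1.1, hQ, hp.1.2.2⟩
      simp [ha, this]
    · intro p hp
      have : Qs ψ p := (Finset.mem_filter.mp hp).2.1
      simp [ha, this]
  have hlogt : Tendsto (fun N : ℕ => Real.log (N : ℝ)) atTop atTop :=
    Real.tendsto_log_atTop.comp tendsto_natCast_atTop_atTop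
  have hMt : Tendsto (fun N : ℕ => ⌊Real.log (N : ℝ)⌋₊) atTop atTop :=
    tendsto_nat_floor_atTop.comp hlogt
  have hdiv : Tendsto (fun N : ℕ => ∑ p ∈ (Icc 1 ⌊Real.log N⌋₊).filter
      (fun p : ℕ => p.Prime ∧ Real.log (Real.log N) < (p : ℝ)),
        min (P.real {ω | X p ω = -1}) (1 - P.real {ω | X p ω = -1}) / p) atTop atTop := by
    simp only [e3]
    refine Tendsto.const_mul_atTop (by norm_num) ?_
    have h1 := (greedy_windows hm h0 hψ (η := 1) one_pos).comp hMt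
    have h2 : ∀ᶠ N : ℕ in atTop, (∑ p ∈ (Icc 1 ⌊((⌊Real.log (N : ℝ)⌋₊ : ℕ) : ℝ) ^ (1 : ℝ)⌋₊).filter
      (fun p : ℕ => Qs ψ p ∧ Real.log ((⌊Real.log (N : ℝ)⌋₊ : ℕ) : ℝ) < (p : ℝ)), (1 : ℝ) / p) - 2 ≤
        Dw a (Real.log (Real.log N)) ⌊Real.log N⌋₊ := by
      filter_upwards [hlogt.eventually_ge_atTop 16] with N hN
      rw [e4, Real.rpow_one, Nat.floor_natCast]
      set M := ⌊Real.log (N : ℝ)⌋₊ with hM
      have h3 : Real.log N < M + 1 := Nat.lt_floor_add_one _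
      have hM15 : (15 : ℝ) ≤ M := by linarith
      have hlM : 0 < Real.log M := Real.log_pos (by linarith)
      have h4 : Real.log (Real.log N) ≤ 2 * Real.log M := by
        have e5 : 2 * Real.log (M : ℝ) = Real.log ((M : ℝ) ^ 2) := by
          rw [Real.log_pow]; norm_num
        rw [e5]
        exact Real.log_le_log (by linarith) (by nlinarith)
      have := Dw_window (a := a) ha0 ha1 hlM (by norm_num : (0 : ℝ) ≤ 2) h4 M
      linarith
    refine tendsto_atTop_mono' atTop h2 ?_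
    exact tendsto_atTop_add_const_right _ (-2) h1
  obtain ⟨ω, hω⟩ := (shifted hX hdiv).exists
  have hprime : ∀ p, X p ω = -1 → Qs ψ p := by
    intro p hp
    by_contra hQ
    rw [hX2 p hQ ω] at hp
    norm_num at hp
  refine ⟨fun p => X p ω, fun p => hX.sign p ω, fun p hp => (hprime p hp).1, ?_, hω⟩
  intro x
  refine le_trans ?_ (Rs_le hm h0 x)
  rw [Rs_eq]
  refine Finset.sum_le_sum_of_subset_of_nonneg ?_ fun p _ _ => by positivity
  intro p hp
  rw [Finset.mem_filter] at hp ⊢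
  exact ⟨hp.1, hprime p hp.2⟩

end Pool.Agent.W5h23.CP
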