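import Pool.Agent.W5h23.CP.TK

/-!
# A Turán–Kubilius bound for the mean of `GG` over general finite sets
-/

set_option autoImplicit false
set_option linter.unusedSectionVars false

open Finset

namespace Pool.Agent.W5h23.CP

section

variable {a : ℕ → ℝ} (ha0 : ∀ p, 0 ≤ a p) (ha1 : ∀ p, a p ≤ 1) (y z : ℕ) (S : Finset ℕ)
  {ρ : ℕ → ℝ} {R : ℝ}

/-- the weighted defect -/
noncomputable def Er (a : ℕ → ℝ) (ρ : ℕ → ℝ) (y z : ℕ) : ℝ := ∑ p ∈ Pw y z, (1 - a p) * ρ p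

include ha0 ha1 in
theorem first_moment_g (hR : 0 ≤ R)
    (h1 : ∀ p ∈ Pw y z, (S.card : ℝ) * ρ p - R ≤ ((S.filter (fun m => p ∣ m)).card : ℝ)) :
    (S.card : ℝ) * Er a ρ y z - R * z ≤ ∑ m ∈ S, fadd a y z m := by
  unfold fadd
  rw [Finset.sum_comm]
  have h2 : ∀ p ∈ Pw y z, (1 - a p) * ((S.card : ℝ) * ρ p - R) ≤
      ∑ m ∈ S, (if p ∣ m then (1 - a p) else 0) := by
    intro p hp
    rw [← Finset.sum_filter, Finset.sum_const, nsmul_eq_mul, mul_comm]
    exact mul_le_mul_of_nonneg_right (h1 p hp) (by linarith [ha1 p])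
  refine le_trans ?_ (Finset.sum_le_sum h2)
  have h3 : ∑ p ∈ Pw y z, (1 - a p) * ((S.card : ℝ) * ρ p - R) =
      S.card * Er a ρ y z - R * ∑ p ∈ Pw y z, (1 - a p) := by
    unfold Er
    rw [Finset.mul_sum, Finset.mul_sum, ← Finset.sum_sub_distrib]
    exact Finset.sum_congr rfl fun p _ => by ring
  rw [h3]
  have := mul_le_mul_of_nonneg_left (sum_b_le ha0 ha1 y z) hR
  linarith

include ha0 ha1 in
theorem second_moment_g (hR : 0 ≤ R) (hρ : ∀ p ∈ Pw y z, 0 ≤ ρ p)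
    (h1 : ∀ p ∈ Pw y z, ((S.filter (fun m => p ∣ m)).card : ℝ) ≤ (S.card : ℝ) * ρ p + R)
    (h2 : ∀ p ∈ Pw y z, ∀ q ∈ Pw y z, p ≠ q →
      ((S.filter (fun m => p ∣ m ∧ q ∣ m)).card : ℝ) ≤ (S.card : ℝ) * (ρ p * ρ q) + R) :
    ∑ m ∈ S, fadd a y z m ^ 2 ≤
      S.card * Er a ρ y z ^ 2 + R * (z : ℝ) ^ 2 + S.card * Er a ρ y z := by
  have hb : ∀ p, 0 ≤ 1 - a p := fun p => by linarith [ha1 p]
  have hW : (0 : ℝ) ≤ S.card := Nat.cast_nonneg _
  have h3 : ∀ m, fadd a y z m ^ 2 = ∑ p ∈ Pw y z, ∑ q ∈ Pw y z,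
      (if p ∣ m ∧ q ∣ m then (1 - a p) * (1 - a q) else 0) := by
    intro m
    unfold fadd
    rw [sq, Finset.sum_mul_sum]
    refine Finset.sum_congr rfl fun p _ => Finset.sum_congr rfl fun q _ => ?_
    by_cases h : p ∣ m <;> by_cases h' : q ∣ m <;> simp [h, h']
  simp only [h3]
  rw [Finset.sum_comm]
  have h4 : ∀ p ∈ Pw y z, ∑ m ∈ S, ∑ q ∈ Pw y z,
      (if p ∣ m ∧ q ∣ m then (1 - a p) * (1 - a q) else 0) ≤
      ∑ q ∈ Pw y z, ((1 - a p) * (1 - a q) * (S.card * (ρ p * ρ q) + R) +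
        if q = p then (1 - a p) * (S.card * ρ p) else 0) := by
    intro p hp
    rw [Finset.sum_comm]
    refine Finset.sum_le_sum fun q hq => ?_
    rw [← Finset.sum_filter, Finset.sum_const, nsmul_eq_mul]
    have hbb : 0 ≤ (1 - a p) * (1 - a q) := mul_nonneg (hb p) (hb q)
    by_cases hpq : q = p
    · subst hpq
      rw [if_pos rfl]
      have e : S.filter (fun m => q ∣ m ∧ q ∣ m) = S.filter (fun m => q ∣ m) := by
        apply Finset.filter_congr; intro m _; simp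
      rw [e]
      have h5 := h1 q hq
      have h4 : (1 - a q) * (1 - a q) ≤ 1 - a q := by
        have := ha0 q; have := ha1 q; nlinarith
      have h6 : 0 ≤ (S.card : ℝ) * ρ q := mul_nonneg hW (hρ q hq)
      have h7 : 0 ≤ (S.card : ℝ) * (ρ q * ρ q) :=
        mul_nonneg hW (mul_nonneg (hρ q hq) (hρ q hq))
      calc _ ≤ ((S.card : ℝ) * ρ q + R) * ((1 - a q) * (1 - a q)) :=
            mul_le_mul_of_nonneg_right h5 hbb
        _ = (1 - a q) * (1 - a q) * R + (1 - a q) * (1 - a q) * ((S.card : ℝ) * ρ q) := by ring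
        _ ≤ (1 - a q) * (1 - a q) * (S.card * (ρ q * ρ q) + R) +
            (1 - a q) * ((S.card : ℝ) * ρ q) := by
            refine add_le_add ?_ ?_
            · exact mul_le_mul_of_nonneg_left (by linarith) hbb
            · exact mul_le_mul_of_nonneg_right h4 h6
    · rw [if_neg hpq, add_zero, mul_comm]
      exact mul_le_mul_of_nonneg_left (h2 p hp q hq fun h => hpq h.symm) hbb
  refine (Finset.sum_le_sum h4).trans ?_
  have h5 : ∀ p ∈ Pw y z, ∑ q ∈ Pw y z, ((1 - a p) * (1 - a q) * (S.card * (ρ p * ρ q) + R) +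
        if q = p then (1 - a p) * (S.card * ρ p) else 0) =
      S.card * ((1 - a p) * ρ p) * Er a ρ y z + R * ((1 - a p) * ∑ q ∈ Pw y z, (1 - a q)) +
        S.card * ((1 - a p) * ρ p) := by
    intro p hp
    rw [Finset.sum_add_distrib, Finset.sum_ite_eq' (Pw y z) p, if_pos hp]
    unfold Er
    rw [Finset.mul_sum, Finset.mul_sum, Finset.mul_sum, ← Finset.sum_add_distrib]
    congr 1
    · exact Finset.sum_congr rfl fun q _ => by ring
    · ring
  rw [Finset.sum_congr rfl h5, Finset.sum_add_distrib, Finset.sum_add_distrib, ← Finset.sum_mul,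
    ← Finset.mul_sum, ← Finset.mul_sum, ← Finset.sum_mul]
  have h6 : ∑ p ∈ Pw y z, (1 - a p) * ρ p = Er a ρ y z := rfl
  rw [h6]
  have h7 := sum_b_le ha0 ha1 y z
  have h8 : 0 ≤ ∑ p ∈ Pw y z, (1 - a p) := Finset.sum_nonneg fun p _ => hb p
  have h9 : (∑ p ∈ Pw y z, (1 - a p)) * ∑ q ∈ Pw y z, (1 - a q) ≤ (z : ℝ) ^ 2 := by nlinarith
  have h10 := mul_le_mul_of_nonneg_left h9 hR
  nlinarith

include ha0 ha1 in
theorem few_small_g (hR : 0 ≤ R) (hρ : ∀ p ∈ Pw y z, 0 ≤ ρ p)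
    (h0 : ∀ p ∈ Pw y z, (S.card : ℝ) * ρ p - R ≤ ((S.filter (fun m => p ∣ m)).card : ℝ))
    (h1 : ∀ p ∈ Pw y z, ((S.filter (fun m => p ∣ m)).card : ℝ) ≤ (S.card : ℝ) * ρ p + R)
    (h2 : ∀ p ∈ Pw y z, ∀ q ∈ Pw y z, p ≠ q →
      ((S.filter (fun m => p ∣ m ∧ q ∣ m)).card : ℝ) ≤ (S.card : ℝ) * (ρ p * ρ q) + R)
    (hz : R * (z : ℝ) ^ 2 ≤ S.card) (hz1 : 1 ≤ z) (hE : 1 ≤ Er a ρ y z) :
    ((S.filter (fun m => fadd a y z m < Er a ρ y z / 2)).card : ℝ) ≤
      16 * S.card / Er a ρ y z := by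
  set E := Er a ρ y z with hEdef
  have hW : (0 : ℝ) ≤ S.card := Nat.cast_nonneg _
  have hz1' : (1 : ℝ) ≤ z := by exact_mod_cast hz1
  have hzl : R * (z : ℝ) ≤ S.card := by
    refine le_trans ?_ hz
    refine mul_le_mul_of_nonneg_left ?_ hR
    nlinarith
  have h3 := first_moment_g ha0 ha1 y z S hR h0
  have h4 := second_moment_g ha0 ha1 y z S hR hρ h1 h2
  rw [← hEdef] at h3 h4
  have h5 : ∑ m ∈ S, (fadd a y z m - E) ^ 2 ≤ 4 * E * S.card := by
    have e : ∑ m ∈ S, (fadd a y z m - E) ^ 2 =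
        ∑ m ∈ S, fadd a y z m ^ 2 - 2 * E * ∑ m ∈ S, fadd a y z m + S.card * E ^ 2 := by
      have e1 : ∀ m, (fadd a y z m - E) ^ 2 = fadd a y z m ^ 2 - 2 * E * fadd a y z m + E ^ 2 :=
        fun m => by ring
      simp only [e1]
      rw [Finset.sum_add_distrib, Finset.sum_sub_distrib, ← Finset.mul_sum, Finset.sum_const,
        nsmul_eq_mul]
    rw [e]
    have h6 : 2 * E * (S.card * E - R * z) ≤ 2 * E * ∑ m ∈ S, fadd a y z m :=
      mul_le_mul_of_nonneg_left h3 (by linarith)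
    have h7 : E * (R * (z : ℝ)) ≤ E * S.card := mul_le_mul_of_nonneg_left hzl (by linarith)
    have h8 : (S.card : ℝ) ≤ E * S.card := by nlinarith
    nlinarith
  have hE0 : 0 < E := by linarith
  rw [le_div_iff₀ hE0]
  have h6 : ((S.filter (fun m => fadd a y z m < E / 2)).card : ℝ) * (E / 2) ^ 2 ≤
      ∑ m ∈ S, (fadd a y z m - E) ^ 2 := by
    calc ((S.filter (fun m => fadd a y z m < E / 2)).card : ℝ) * (E / 2) ^ 2
        = ∑ _m ∈ S.filter (fun m => fadd a y z m < E / 2), (E / 2) ^ 2 := by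
          rw [Finset.sum_const, nsmul_eq_mul]
      _ ≤ ∑ m ∈ S.filter (fun m => fadd a y z m < E / 2), (fadd a y z m - E) ^ 2 := by
          refine Finset.sum_le_sum fun m hm => ?_
          have h5 := (Finset.mem_filter.mp hm).2
          nlinarith
      _ ≤ _ := Finset.sum_le_sum_of_subset_of_nonneg (Finset.filter_subset _ _)
          fun _ _ _ => sq_nonneg _
  have h7 : ((S.filter (fun m => fadd a y z m < E / 2)).card : ℝ) * E ^ 2 ≤
      16 * E * S.card := by nlinarith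
  have h8 : (((S.filter (fun m => fadd a y z m < E / 2)).card : ℝ) * E) * E ≤
      (16 * S.card) * E := by
    calc _ = ((S.filter (fun m => fadd a y z m < E / 2)).card : ℝ) * E ^ 2 := by ring
      _ ≤ _ := by linarith
  exact le_of_mul_le_mul_right h8 hE0

theorem few_square_g (hy : 1 ≤ y)
    (h3 : ∀ p ∈ Pw y z, ((S.filter (fun m => p ^ 2 ∣ m)).card : ℝ) ≤
      2 * S.card / (p : ℝ) ^ 2 + R) (hR : 0 ≤ R) :
    ((S.filter (fun m => ∃ p ∈ Pw y z, p ^ 2 ∣ m)).card : ℝ) ≤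
      2 * (S.card : ℝ) / y + R * z := by
  classical
  have h1 : S.filter (fun m => ∃ p ∈ Pw y z, p ^ 2 ∣ m) ⊆
      (Pw y z).biUnion (fun p => S.filter (fun m => p ^ 2 ∣ m)) := by
    intro m hm
    rw [Finset.mem_filter] at hm
    obtain ⟨hm1, p, hp, hpm⟩ := hm
    rw [Finset.mem_biUnion]
    exact ⟨p, hp, Finset.mem_filter.mpr ⟨hm1, hpm⟩⟩
  calc ((S.filter (fun m => ∃ p ∈ Pw y z, p ^ 2 ∣ m)).card : ℝ)
      ≤ (((Pw y z).biUnion (fun p => S.filter (fun m => p ^ 2 ∣ m))).card : ℝ) := by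
        exact_mod_cast Finset.card_le_card h1
    _ ≤ ∑ p ∈ Pw y z, ((S.filter (fun m => p ^ 2 ∣ m)).card : ℝ) := by
        exact_mod_cast Finset.card_biUnion_le
    _ ≤ ∑ p ∈ Pw y z, (2 * (S.card : ℝ) * (1 / (p : ℝ) ^ 2) + R) := by
        refine Finset.sum_le_sum fun p hp => ?_
        calc _ ≤ 2 * S.card / (p : ℝ) ^ 2 + R := h3 p hp
          _ = _ := by ring
    _ = 2 * (S.card : ℝ) * ∑ p ∈ Pw y z, 1 / (p : ℝ) ^ 2 + (Pw y z).card * R := by
        rw [Finset.sum_add_distrib, ← Finset.mul_sum, Finset.sum_const, nsmul_eq_mul]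
    _ ≤ 2 * (S.card : ℝ) * (1 / y) + z * R := by
        refine add_le_add (mul_le_mul_of_nonneg_left ?_ (by positivity)) ?_
        · exact sum_inv_sq_le y hy (Pw y z) fun p hp => by
            exact_mod_cast (Finset.mem_filter.mp hp).2
        · exact mul_le_mul_of_nonneg_right (card_Pw_le y z) hR
    _ = 2 * (S.card : ℝ) / y + R * z := by ring

include ha0 ha1 in
/-- **The mean of `GG` over a general finite set.** -/
theorem mean_g (hy : 1 ≤ y) (hR : 0 ≤ R) (hρ : ∀ p ∈ Pw y z, 0 ≤ ρ p) (hS : 0 ∉ S)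
    (h0 : ∀ p ∈ Pw y z, (S.card : ℝ) * ρ p - R ≤ ((S.filter (fun m => p ∣ m)).card : ℝ))
    (h1 : ∀ p ∈ Pw y z, ((S.filter (fun m => p ∣ m)).card : ℝ) ≤ (S.card : ℝ) * ρ p + R)
    (h2 : ∀ p ∈ Pw y z, ∀ q ∈ Pw y z, p ≠ q →
      ((S.filter (fun m => p ∣ m ∧ q ∣ m)).card : ℝ) ≤ (S.card : ℝ) * (ρ p * ρ q) + R)
    (h3 : ∀ p ∈ Pw y z, ((S.filter (fun m => p ^ 2 ∣ m)).card : ℝ) ≤
      2 * S.card / (p : ℝ) ^ 2 + R)
    (hz : R * (z : ℝ) ^ 2 ≤ S.card) (hz1 : 1 ≤ z) (hE : 1 ≤ Er a ρ y z) :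
    ∑ m ∈ S, GG a y m ≤
      S.card * (Real.exp (-(Er a ρ y z / 2)) + 16 / Er a ρ y z + 2 / y) + R * z := by
  classical
  set E := Er a ρ y z with hEdef
  have hG := mult01_GG ha0 ha1 y
  have h4 : ∀ m ∈ S, GG a y m ≤ Real.exp (-(E / 2)) +
      ((if fadd a y z m < E / 2 then (1 : ℝ) else 0) +
        if ∃ p ∈ Pw y z, p ^ 2 ∣ m then (1 : ℝ) else 0) := by
    intro m hm
    have hm0 : m ≠ 0 := fun h => hS (h ▸ hm)
    have hexp : 0 < Real.exp (-(E / 2)) := Real.exp_pos _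
    by_cases hsq : ∃ p ∈ Pw y z, p ^ 2 ∣ m
    · rw [if_pos hsq]
      have := hG.le_one m
      split_ifs <;> linarith
    · rw [if_neg hsq]
      by_cases hf : fadd a y z m < E / 2
      · rw [if_pos hf]
        have := hG.le_one m
        linarith
      · rw [if_neg hf]
        have h2 := GG_le_exp ha0 ha1 y z hm0 hsq
        have h3 : Real.exp (-fadd a y z m) ≤ Real.exp (-(E / 2)) := by
          rw [Real.exp_le_exp]; linarith [not_lt.mp hf]
        linarith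
  refine (Finset.sum_le_sum h4).trans ?_
  rw [Finset.sum_add_distrib, Finset.sum_add_distrib, Finset.sum_const, nsmul_eq_mul,
    ← Finset.sum_filter, ← Finset.sum_filter]
  have h5 := few_small_g ha0 ha1 y z S hR hρ h0 h1 h2 hz hz1 hE
  have h6 := few_square_g y z S hy h3 hR
  simp only [Finset.sum_const, nsmul_eq_mul, mul_one]
  calc (S.card : ℝ) * Real.exp (-(E / 2)) +
        (((S.filter (fun m => fadd a y z m < E / 2)).card : ℝ) +
        ((S.filter (fun m => ∃ p ∈ Pw y z, p ^ 2 ∣ m)).card : ℝ))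
      ≤ (S.card : ℝ) * Real.exp (-(E / 2)) + (16 * S.card / E + (2 * (S.card : ℝ) / y + R * z)) := by
        linarith
    _ = _ := by ring

end

end Pool.Agent.W5h23.CP
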