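import Pool.Agent.W5h23.CP.CoreU
import Pool.Agent.W5h23.CP.TKg
import Pool.Agent.W5h23.CP.AS
import Pool.Agent.H387R2.U3
import Pool.Agent.H307R2.OP.BT4

/-!
# Random multiplicative functions at shifted primes: one scale
-/

set_option autoImplicit false
set_option linter.unusedSectionVars false

open MeasureTheory ProbabilityTheory Function Finset Filter Topology

namespace Pool.Agent.W5h23.CP

theorem dvd_add_iff_modEq {d h q : ℕ} (hd : h < d) : q ≡ d - h [MOD d] ↔ d ∣ q + h := by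
  constructor
  · intro h1
    have h2 := h1.add_right h
    rw [Nat.sub_add_cancel hd.le] at h2
    have h3 : q + h ≡ 0 [MOD d] := h2.trans (by unfold Nat.ModEq; simp)
    exact (Nat.modEq_zero_iff_dvd).mp h3
  · intro h1
    have h3 : q + h ≡ 0 [MOD d] := (Nat.modEq_zero_iff_dvd).mpr h1
    have h4 : q + h ≡ (d - h) + h [MOD d] := by
      rw [Nat.sub_add_cancel hd.le]
      exact h3.trans (by unfold Nat.ModEq; simp)
    exact Nat.ModEq.add_right_cancel' h h4

/-- the prime number theorem for shifted primes divisible by `d` -/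
theorem siegel_shift : ∃ x0 : ℕ, ∀ N : ℕ, x0 ≤ N → ∀ d h : ℕ, 0 < h → h < d → Nat.Coprime h d →
    (d : ℝ) ≤ Real.log N ^ 2 →
    |(((PP N).filter (fun q => d ∣ q + h)).card : ℝ) - ((PP N).card : ℝ) / (Nat.totient d : ℝ)| ≤
      N / Real.log N ^ 6 := by
  obtain ⟨x0, hx0⟩ := Pool.Agent.H387R2.Uni.siegel
  refine ⟨x0, fun N hN d h hh hhd hcop hd => ?_⟩
  have h1 := hx0 N hN d (by omega) hd (d - h) (by omega)
    ((Nat.coprime_self_sub_left hhd.le).mpr hcop)
  have e1 : H343E.piAP N d (d - h) = (((PP N).filter (fun q => d ∣ q + h)).card : ℝ) := by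
    unfold H343E.piAP PP
    congr 2
    rw [Finset.filter_filter]
    apply Finset.filter_congr
    intro q _
    rw [dvd_add_iff_modEq hhd]
  have e2 : H343E.pi1 N = ((PP N).card : ℝ) := rfl
  rw [e1, e2] at h1
  exact h1

/-- size of the set of primes -/
theorem card_PP_bounds : ∀ᶠ N : ℕ in atTop, ((PP N).card : ℝ) * Real.log N ≤ 2 * N ∧
    (N : ℝ) / 2 ≤ ((PP N).card : ℝ) * Real.log N := by
  have h1 := Pool.Agent.Helper507.PNT.pi_tendsto.comp tendsto_natCast_atTop_atTop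
  have h2 : ∀ N : ℕ, Nat.primeCounting N = (PP N).card := by
    intro N
    rw [Nat.primeCounting, Nat.primeCounting', Nat.count_eq_card_filter_range]
    congr 1
    ext p
    simp only [Finset.mem_filter, Finset.mem_range, Finset.mem_Icc]
    constructor
    · rintro ⟨h, h'⟩; exact ⟨⟨h'.one_lt.le, by omega⟩, h'⟩
    · rintro ⟨h, h'⟩; exact ⟨by omega, h'⟩
  filter_upwards [h1.eventually (gt_mem_nhds (show (1 : ℝ) < 2 by norm_num)),
    h1.eventually (lt_mem_nhds (show (1 / 2 : ℝ) < 1 by norm_num)), eventually_ge_atTop 1]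
    with N h3 h4 hN
  have hN0 : (0 : ℝ) < N := by exact_mod_cast hN
  simp only [Function.comp_apply, Nat.floor_natCast] at h3 h4
  rw [h2, div_lt_iff₀ hN0] at h3
  rw [h2, lt_div_iff₀ hN0] at h4
  constructor <;> linarith

/-- **The mean of `GG` over shifted primes.** -/
theorem mean_primes : ∃ N1 : ℕ, ∀ N : ℕ, N1 ≤ N → ∀ a : ℕ → ℝ, (∀ p, 0 ≤ a p) → (∀ p, a p ≤ 1) →
    ∀ y h : ℕ, 1 ≤ h → h ≤ y → 1 ≤ Dw a y ⌊Real.log N⌋₊ →
    Real.log N * ∑ q ∈ PP N, GG a y (q + h) ≤
      2 * N * (Real.exp (-(Dw a y ⌊Real.log N⌋₊ / 2)) + 16 / Dw a y ⌊Real.log N⌋₊ + 2 / y) +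
        N / Real.log N ^ 4 := by
  obtain ⟨x0, hx0⟩ := siegel_shift
  obtain ⟨N2, hN2⟩ := eventually_atTop.mp card_PP_bounds
  have hlogt : Tendsto (fun N : ℕ => Real.log (N : ℝ)) atTop atTop :=
    Real.tendsto_log_atTop.comp tendsto_natCast_atTop_atTop
  obtain ⟨N3, hN3⟩ := eventually_atTop.mp (hlogt.eventually_ge_atTop 2)
  refine ⟨max x0 (max N2 (max N3 1)), fun N hN a ha0 ha1 y h hh hhy hE => ?_⟩
  have hNx0 : x0 ≤ N := (le_max_left _ _).trans hN
  obtain ⟨hup, hlow⟩ := hN2 N (((le_max_left _ _).trans (le_max_right _ _)).trans hN)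
  have hlog2 := hN3 N ((((le_max_left _ _).trans (le_max_right _ _)).trans
    (le_max_right _ _)).trans hN)
  have hN1 : 1 ≤ N := (((le_max_right _ _).trans (le_max_right _ _)).trans
    (le_max_right _ _)).trans hN
  have hN0 : (0 : ℝ) < N := by exact_mod_cast hN1
  have hL0 : 0 < Real.log N := by linarith
  set z := ⌊Real.log (N : ℝ)⌋₊ with hz
  have hzle : (z : ℝ) ≤ Real.log N := Nat.floor_le hL0.le
  have hz1 : 1 ≤ z := Nat.one_le_floor_iff _ |>.mpr (by linarith)
  have hz0 : (0 : ℝ) ≤ z := Nat.cast_nonneg _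
  set R : ℝ := N / Real.log N ^ 6 with hR
  have hR0 : 0 ≤ R := by positivity
  set S : Finset ℕ := (PP N).image (fun q => q + h) with hS
  have hinj : Set.InjOn (fun q => q + h) (PP N : Set ℕ) := fun q _ q' _ hqq =>
    Nat.add_right_cancel hqq
  have hScard : S.card = (PP N).card := Finset.card_image_of_injOn hinj
  have hfilter : ∀ Pd : ℕ → Prop, ∀ _ : DecidablePred Pd,
      (S.filter Pd).card = ((PP N).filter (fun q => Pd (q + h))).card := by
    intro Pd _
    rw [hS, Finset.filter_image, Finset.card_image_of_injOn]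
    exact fun q _ q' _ hqq => Nat.add_right_cancel hqq
  have hmem : ∀ p ∈ Pw y z, p.Prime ∧ h < p ∧ (p : ℝ) ≤ Real.log N := by
    intro p hp
    have hp1 := Finset.mem_filter.mp hp
    have hp2 := Finset.mem_filter.mp hp1.1
    have hyp : y < p := by exact_mod_cast hp1.2
    refine ⟨hp2.2, by omega, ?_⟩
    have : (p : ℝ) ≤ z := by exact_mod_cast (Finset.mem_Icc.mp hp2.1).2
    linarith
  have hcop : ∀ p ∈ Pw y z, Nat.Coprime h p := by
    intro p hp
    obtain ⟨hpp, hhp, _⟩ := hmem p hp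
    exact (Nat.coprime_of_lt_prime (by omega) hhp hpp).symm
  set ρ : ℕ → ℝ := fun p => 1 / ((p : ℝ) - 1) with hρ
  have hp1' : ∀ p ∈ Pw y z, (1 : ℝ) ≤ (p : ℝ) - 1 := by
    intro p hp
    have : (2 : ℝ) ≤ p := by exact_mod_cast (hmem p hp).1.two_le
    linarith
  have hρ0 : ∀ p ∈ Pw y z, 0 ≤ ρ p := fun p hp => by
    have := hp1' p hp
    simp only [hρ]
    positivity
  have htot : ∀ p ∈ Pw y z, (Nat.totient p : ℝ) = (p : ℝ) - 1 := by
    intro p hp
    have hpp := (hmem p hp).1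
    rw [Nat.totient_prime hpp, Nat.cast_sub hpp.one_lt.le]
    simp
  have hlogsq : Real.log N ≤ Real.log N ^ 2 := by nlinarith
  have hA : ∀ p ∈ Pw y z, |((S.filter (fun m => p ∣ m)).card : ℝ) - S.card * ρ p| ≤ R := by
    intro p hp
    obtain ⟨hpp, hhp, hpl⟩ := hmem p hp
    have h1 := hx0 N hNx0 p h (by omega) hhp (hcop p hp) (by linarith)
    rw [htot p hp] at h1
    rw [hfilter, hScard]
    simp only [hρ]
    rw [mul_one_div]
    exact h1
  have hB : ∀ p ∈ Pw y z, ∀ q ∈ Pw y z, p ≠ q →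
      ((S.filter (fun m => p ∣ m ∧ q ∣ m)).card : ℝ) ≤ (S.card : ℝ) * (ρ p * ρ q) + R := by
    intro p hp q hq hpq
    obtain ⟨hpp, hhp, hpl⟩ := hmem p hp
    obtain ⟨hqp, hhq, hql⟩ := hmem q hq
    have hcpq : Nat.Coprime p q := (Nat.coprime_primes hpp hqp).mpr hpq
    have h1 := hx0 N hNx0 (p * q) h (by omega)
      (lt_of_lt_of_le hhp (Nat.le_mul_of_pos_right p hqp.pos))
      (Nat.Coprime.mul_right (hcop p hp) (hcop q hq)) (by
        push_cast
        rw [sq]
        exact mul_le_mul hpl hql (Nat.cast_nonneg _) hL0.le)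
    rw [Nat.totient_mul hcpq] at h1
    push_cast at h1
    rw [htot p hp, htot q hq] at h1
    have e : S.filter (fun m => p ∣ m ∧ q ∣ m) = S.filter (fun m => p * q ∣ m) := by
      apply Finset.filter_congr
      intro m _
      exact ⟨fun h => hcpq.mul_dvd_of_dvd_of_dvd h.1 h.2,
        fun h => ⟨(Dvd.intro _ rfl).trans h, (Dvd.intro_left _ rfl).trans h⟩⟩
    rw [e, hfilter, hScard]
    have h2 := (abs_le.mp h1).2
    have h3 : ((PP N).card : ℝ) / (((p : ℝ) - 1) * ((q : ℝ) - 1)) =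
        ((PP N).card : ℝ) * (ρ p * ρ q) := by
      simp only [hρ]
      have := hp1' p hp
      have := hp1' q hq
      field_simp
    rw [h3] at h2
    linarith
  have hC : ∀ p ∈ Pw y z, ((S.filter (fun m => p ^ 2 ∣ m)).card : ℝ) ≤
      2 * S.card / (p : ℝ) ^ 2 + R := by
    intro p hp
    obtain ⟨hpp, hhp, hpl⟩ := hmem p hp
    have h1 := hx0 N hNx0 (p ^ 2) h (by omega)
      (lt_of_lt_of_le hhp (Nat.le_self_pow two_ne_zero p))
      ((hcop p hp).pow_right 2) (by
        push_cast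
        exact pow_le_pow_left₀ (Nat.cast_nonneg _) hpl 2)
    rw [Nat.totient_prime_pow hpp (by norm_num)] at h1
    rw [hfilter, hScard]
    have h2 := (abs_le.mp h1).2
    have h3 : ((p ^ (2 - 1) * (p - 1) : ℕ) : ℝ) = (p : ℝ) * ((p : ℝ) - 1) := by
      push_cast
      rw [Nat.cast_sub hpp.one_lt.le]
      norm_num
    rw [h3] at h2
    have hp0 : (0 : ℝ) < p := by exact_mod_cast hpp.pos
    have h4 : ((PP N).card : ℝ) / ((p : ℝ) * ((p : ℝ) - 1)) ≤ 2 * (PP N).card / (p : ℝ) ^ 2 := by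
      have h5 := hp1' p hp
      rw [div_le_div_iff₀ (by positivity) (by positivity)]
      have h6 : (0 : ℝ) ≤ (PP N).card := Nat.cast_nonneg _
      have h7 : (p : ℝ) ^ 2 ≤ 2 * ((p : ℝ) * ((p : ℝ) - 1)) := by nlinarith
      calc ((PP N).card : ℝ) * (p : ℝ) ^ 2 ≤ ((PP N).card : ℝ) * (2 * ((p : ℝ) * ((p : ℝ) - 1))) :=
            mul_le_mul_of_nonneg_left h7 h6
        _ = _ := by ring
    linarith
  have hRz : R * (z : ℝ) ^ 2 ≤ S.card := by
    rw [hScard]
    have h1 : R * (z : ℝ) ^ 2 ≤ R * Real.log N ^ 2 :=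
      mul_le_mul_of_nonneg_left (pow_le_pow_left₀ hz0 hzle 2) hR0
    have h2 : R * Real.log N ^ 2 = N / Real.log N ^ 4 := by
      rw [hR]; field_simp
    have h3 : (N : ℝ) / Real.log N ^ 4 ≤ N / 2 / Real.log N := by
      rw [div_div]
      refine div_le_div_of_nonneg_left hN0.le (by positivity) ?_
      have h4 : 2 * Real.log N ≤ Real.log N * Real.log N ^ 3 := by
        have h5 : (2 : ℝ) ≤ Real.log N ^ 3 := by
          have : (2 : ℝ) ^ 3 ≤ Real.log N ^ 3 := pow_le_pow_left₀ (by norm_num) hlog2 3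
          linarith
        nlinarith
      calc 2 * Real.log N ≤ Real.log N * Real.log N ^ 3 := h4
        _ = Real.log N ^ 4 := by ring
    have h4 : (N : ℝ) / 2 / Real.log N ≤ (PP N).card := by
      rw [div_le_iff₀ hL0]; exact hlow
    linarith
  have hDE : Dw a y z ≤ Er a ρ y z := by
    unfold Dw Er
    refine Finset.sum_le_sum fun p hp => ?_
    have h1 := hp1' p hp
    have h2 : (1 : ℝ) / p ≤ ρ p := by
      simp only [hρ]
      exact one_div_le_one_div_of_le (by linarith) (by linarith)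
    calc (1 - a p) / (p : ℝ) = (1 - a p) * (1 / p) := by ring
      _ ≤ (1 - a p) * ρ p := mul_le_mul_of_nonneg_left h2 (by linarith [ha1 p])
  have hy1 : 1 ≤ y := hh.trans hhy
  have hS0 : 0 ∉ S := by
    rw [hS, Finset.mem_image]
    rintro ⟨q, _, hq⟩
    omega
  have key := mean_g ha0 ha1 y z S hy1 hR0 hρ0 hS0 (fun p hp => by
      linarith [(abs_le.mp (hA p hp)).1]) (fun p hp => by linarith [(abs_le.mp (hA p hp)).2])
    hB hC hRz hz1 (hE.trans hDE)
  have e1 : ∑ m ∈ S, GG a y m = ∑ q ∈ PP N, GG a y (q + h) := Finset.sum_image hinj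
  rw [e1, hScard] at key
  have hE0 : 0 < Dw a y z := by linarith
  have h5 : Real.exp (-(Er a ρ y z / 2)) ≤ Real.exp (-(Dw a y z / 2)) := by
    rw [Real.exp_le_exp]; linarith
  have h6 : 16 / Er a ρ y z ≤ 16 / Dw a y z :=
    div_le_div_of_nonneg_left (by norm_num) hE0 hDE
  have h7 : ((PP N).card : ℝ) * (Real.exp (-(Er a ρ y z / 2)) + 16 / Er a ρ y z + 2 / y) ≤
      ((PP N).card : ℝ) * (Real.exp (-(Dw a y z / 2)) + 16 / Dw a y z + 2 / y) :=
    mul_le_mul_of_nonneg_left (by linarith) (Nat.cast_nonneg _)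
  have h8 : R * z ≤ N / Real.log N ^ 5 := by
    calc R * z ≤ R * Real.log N := mul_le_mul_of_nonneg_left hzle hR0
      _ = N / Real.log N ^ 5 := by rw [hR]; field_simp
  have h9 : 0 ≤ Real.exp (-(Dw a y z / 2)) + 16 / Dw a y z + 2 / y := by positivity
  calc Real.log N * ∑ q ∈ PP N, GG a y (q + h)
      ≤ Real.log N * (((PP N).card : ℝ) * (Real.exp (-(Dw a y z / 2)) + 16 / Dw a y z + 2 / y) +
        N / Real.log N ^ 5) := mul_le_mul_of_nonneg_left (by linarith) hL0.le
    _ = (((PP N).card : ℝ) * Real.log N) * (Real.exp (-(Dw a y z / 2)) + 16 / Dw a y z + 2 / y) +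
        N / Real.log N ^ 4 := by field_simp
    _ ≤ (2 * N) * (Real.exp (-(Dw a y z / 2)) + 16 / Dw a y z + 2 / y) + N / Real.log N ^ 4 := by
        have := mul_le_mul_of_nonneg_right hup h9
        linarith

/-- Brun–Titchmarsh for shifted primes -/
theorem bt_shift : ∃ N1 : ℕ, ∀ N : ℕ, N1 ≤ N → ∀ p h : ℕ, p.Prime → p ^ 2 ≤ N → h < p →
    (((PP N).filter (fun q => p ∣ q + h)).card : ℝ) * Real.log N ≤ 54 * (N / p) := by
  obtain ⟨N0, hN0⟩ := Pool.Agent.H307R2.OP.bt4
  have hlogt : Tendsto (fun N : ℕ => Real.log (N : ℝ)) atTop atTop :=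
    Real.tendsto_log_atTop.comp tendsto_natCast_atTop_atTop
  have hsq : Tendsto (fun N : ℕ => Nat.sqrt N) atTop atTop := by
    refine tendsto_atTop.mpr fun b => ?_
    filter_upwards [eventually_ge_atTop (b * b)] with N hN
    exact Nat.le_sqrt.mpr hN
  have hlsq : ∀ᶠ N : ℕ in atTop, Real.log N / 3 ≤ Real.log (Nat.sqrt N) := by
    filter_upwards [hlogt.eventually_ge_atTop 6, eventually_ge_atTop 4] with N hN hN4
    have hN0 : (0 : ℝ) < N := by exact_mod_cast (by omega : 0 < N)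
    have h1 : N < (Nat.sqrt N + 1) ^ 2 := by
      have := Nat.lt_succ_sqrt N
      rw [sq]; exact this
    have hs2 : 2 ≤ Nat.sqrt N := Nat.le_sqrt.mpr (by omega)
    have h2 : (N : ℝ) ≤ (2 * (Nat.sqrt N : ℝ)) ^ 2 := by
      have h3 : (N : ℝ) < ((Nat.sqrt N : ℝ) + 1) ^ 2 := by exact_mod_cast h1
      have h4 : (2 : ℝ) ≤ (Nat.sqrt N : ℝ) := by exact_mod_cast hs2
      nlinarith
    have hs0 : (0 : ℝ) < (Nat.sqrt N : ℝ) := by exact_mod_cast (by omega : 0 < Nat.sqrt N)
    have h3 : Real.log N ≤ 2 * (Real.log 2 + Real.log (Nat.sqrt N)) := by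
      have := Real.log_le_log hN0 h2
      rw [Real.log_pow, Real.log_mul (by norm_num) hs0.ne'] at this
      exact_mod_cast this
    have h4 := Real.log_two_lt_d9
    linarith
  obtain ⟨N2, hN2⟩ := eventually_atTop.mp ((hsq.eventually_ge_atTop (max N0 2)).and
    (hlsq.and (hlogt.eventually_ge_atTop 1)))
  refine ⟨N2, fun N hN p h hp hpN hh => ?_⟩
  obtain ⟨h1, h2, h3⟩ := hN2 N hN
  have hp0 : (0 : ℝ) < p := by exact_mod_cast hp.pos
  set M := (N + h) / p with hM
  have hMs : Nat.sqrt N ≤ M := by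
    have h4 : p ≤ Nat.sqrt N := Nat.le_sqrt'.mpr hpN
    rw [hM, Nat.le_div_iff_mul_le hp.pos]
    calc Nat.sqrt N * p ≤ Nat.sqrt N * Nat.sqrt N := Nat.mul_le_mul_left _ h4
      _ ≤ N := Nat.sqrt_le N
      _ ≤ N + h := Nat.le_add_right _ _
  have hMN0 : N0 ≤ M := ((le_max_left _ _).trans h1).trans hMs
  have hM2 : 2 ≤ M := ((le_max_right _ _).trans h1).trans hMs
  have hcard : ((PP N).filter (fun q => p ∣ q + h)).card ≤
      ((range M).filter (fun k => ((p - h) + k * p).Prime)).card := by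
    refine Finset.card_le_card_of_injOn (fun q => (q + h) / p - 1) ?_ ?_
    · intro q hq
      simp only [Finset.coe_filter, Set.mem_setOf_eq, Finset.mem_filter, Finset.mem_Icc] at hq
      obtain ⟨⟨⟨hq1, hq2⟩, hqp⟩, c, hc⟩ := hq
      have hc1 : 1 ≤ c := by
        by_contra hcon
        have : c = 0 := by omega
        subst this
        omega
      have e1 : (q + h) / p = c := by rw [hc]; exact Nat.mul_div_cancel_left c hp.pos
      simp only [Finset.coe_filter, Set.mem_setOf_eq, Finset.mem_range]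
      rw [e1]
      constructor
      · have h5 : c ≤ M := by
          rw [hM, Nat.le_div_iff_mul_le hp.pos, mul_comm, ← hc]
          omega
        omega
      · have h6 : (p - h) + (c - 1) * p = q := by
          obtain ⟨c', rfl⟩ : ∃ c', c = c' + 1 := ⟨c - 1, by omega⟩
          have h7 : q + h = p * c' + p := by rw [hc]; ring
          have h8 : (c' + 1 - 1) * p = p * c' := by rw [Nat.add_sub_cancel]; ring
          rw [h8]
          omega
        rw [h6]; exact hqp
    · intro q hq q' hq' hqq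
      simp only [Finset.coe_filter, Set.mem_setOf_eq, Finset.mem_filter, Finset.mem_Icc] at hq hq'
      obtain ⟨⟨⟨hq1, hq2⟩, hqp⟩, c, hc⟩ := hq
      obtain ⟨⟨⟨hq1', hq2'⟩, hqp'⟩, c', hc'⟩ := hq'
      have e1 : (q + h) / p = c := by rw [hc]; exact Nat.mul_div_cancel_left c hp.pos
      have e2 : (q' + h) / p = c' := by rw [hc']; exact Nat.mul_div_cancel_left c' hp.pos
      simp only [e1, e2] at hqq
      have hc1 : c ≠ 0 := by rintro rfl; omega
      have hc1' : c' ≠ 0 := by rintro rfl; omega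
      have : c = c' := by omega
      subst this
      omega
  have hbt := hN0 (p - h) p M hp.one_lt.le hMN0
  have hcard' : (((PP N).filter (fun q => p ∣ q + h)).card : ℝ) ≤
      9 / 2 * ((p : ℝ) / Nat.totient p) * (M / Real.log M) :=
    le_trans (by exact_mod_cast hcard) hbt
  have hpt : (p : ℝ) / Nat.totient p ≤ 2 := by
    rw [Nat.totient_prime hp, Nat.cast_sub hp.one_lt.le]
    have h2p : (2 : ℝ) ≤ p := by exact_mod_cast hp.two_le
    push_cast
    rw [div_le_iff₀ (by linarith)]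
    linarith
  have hs0 : (0 : ℝ) < (Nat.sqrt N : ℝ) := by
    have : 0 < Nat.sqrt N := by have := (le_max_right N0 2).trans h1; omega
    exact_mod_cast this
  have hlM : Real.log N / 3 ≤ Real.log M :=
    h2.trans (Real.log_le_log hs0 (by exact_mod_cast hMs))
  have hlM0 : 0 < Real.log M := by linarith
  have hMle : (M : ℝ) ≤ 2 * (N / p) := by
    have h5 : (M : ℝ) ≤ ((N + h : ℕ) : ℝ) / p := Nat.cast_div_le
    have h6 : h ≤ N := by
      have := Nat.le_self_pow two_ne_zero p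
      omega
    have h7 : ((N + h : ℕ) : ℝ) ≤ 2 * N := by
      push_cast
      have : (h : ℝ) ≤ N := by exact_mod_cast h6
      linarith
    calc (M : ℝ) ≤ ((N + h : ℕ) : ℝ) / p := h5
      _ ≤ 2 * N / p := div_le_div_of_nonneg_right h7 hp0.le
      _ = 2 * (N / p) := by ring
  have hMnn : (0 : ℝ) ≤ M := Nat.cast_nonneg _
  have hNp : (0 : ℝ) ≤ (N : ℝ) / p := by positivity
  have h5 : (((PP N).filter (fun q => p ∣ q + h)).card : ℝ) ≤ 9 * (M / Real.log M) := by
    refine hcard'.trans ?_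
    have h6 : 0 ≤ (M : ℝ) / Real.log M := by positivity
    have h7 : 9 / 2 * ((p : ℝ) / Nat.totient p) ≤ 9 := by linarith
    exact mul_le_mul_of_nonneg_right h7 h6
  have h6 : (M : ℝ) / Real.log M * Real.log N ≤ 6 * (N / p) := by
    rw [div_mul_eq_mul_div, div_le_iff₀ hlM0]
    calc (M : ℝ) * Real.log N ≤ 2 * (N / p) * Real.log N :=
          mul_le_mul_of_nonneg_right hMle (by linarith)
      _ = 6 * (N / p) * (Real.log N / 3) := by ring
      _ ≤ 6 * (N / p) * Real.log M := mul_le_mul_of_nonneg_left hlM (by positivity)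
  calc (((PP N).filter (fun q => p ∣ q + h)).card : ℝ) * Real.log N
      ≤ 9 * (M / Real.log M) * Real.log N := mul_le_mul_of_nonneg_right h5 (by linarith)
    _ = 9 * (M / Real.log M * Real.log N) := by ring
    _ ≤ 9 * (6 * (N / p)) := by linarith
    _ = 54 * (N / p) := by ring

/-- the variance bound for shifted primes -/
theorem var_primes : ∃ N1 : ℕ, ∀ N : ℕ, N1 ≤ N → ∀ (k : ℕ) (h : Fin k → ℕ) (H : ℕ),
    (∀ i, h i ≤ H) → ∀ g : ℕ → ℂ, (∀ n, ‖g n‖ ≤ 1) → ∀ y : ℕ, 1 ≤ y → H ≤ y → H ≤ N →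
    16 * y * Real.log N ^ 2 ≤ (Nat.sqrt N : ℝ) →
    ∑ p ∈ (PP (N + H)).filter (fun p : ℕ => y < p),
      (2 * ∑ q ∈ (PP N).filter (fun q => ∃ i, p ∣ q + h i), ‖g q * (Real.log q : ℂ)‖) ^ 2 ≤
      12000 * (k : ℝ) ^ 2 * (N : ℝ) ^ 2 / y := by
  classical
  obtain ⟨N2, hN2⟩ := bt_shift
  refine ⟨max N2 4, fun N hN k h H hH g hg y hy hHy hHN hylog => ?_⟩
  have hNN2 : N2 ≤ N := (le_max_left _ _).trans hN
  have hN4 : 4 ≤ N := (le_max_right _ _).trans hN
  have hN0 : (0 : ℝ) < N := by exact_mod_cast (by omega : 0 < N)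
  have hy0 : (0 : ℝ) < y := by exact_mod_cast hy
  have hk0 : (0 : ℝ) ≤ k := Nat.cast_nonneg _
  have hL0 : 0 ≤ Real.log N := Real.log_nonneg (by exact_mod_cast (by omega : 1 ≤ N))
  set Q := Nat.sqrt N with hQ
  have hQ1 : 1 ≤ Q := Nat.le_sqrt.mpr (by omega)
  have hQ0 : (0 : ℝ) < Q := by exact_mod_cast hQ1
  -- bound for one prime
  have hsumle : ∀ p : ℕ, ∑ q ∈ (PP N).filter (fun q => ∃ i, p ∣ q + h i),
      ‖g q * (Real.log q : ℂ)‖ ≤
      ∑ i : Fin k, (((PP N).filter (fun q => p ∣ q + h i)).card : ℝ) * Real.log N := by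
    intro p
    have h1 : (PP N).filter (fun q => ∃ i, p ∣ q + h i) ⊆
        (Finset.univ : Finset (Fin k)).biUnion (fun i => (PP N).filter (fun q => p ∣ q + h i)) := by
      intro n hn
      rw [Finset.mem_filter] at hn
      obtain ⟨hn1, i, hi⟩ := hn
      rw [Finset.mem_biUnion]
      exact ⟨i, Finset.mem_univ i, Finset.mem_filter.mpr ⟨hn1, hi⟩⟩
    calc ∑ q ∈ (PP N).filter (fun q => ∃ i, p ∣ q + h i), ‖g q * (Real.log q : ℂ)‖
        ≤ ∑ _q ∈ (PP N).filter (fun q => ∃ i, p ∣ q + h i), Real.log N := by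
          refine Finset.sum_le_sum fun q hq => ?_
          have hq1 := Finset.mem_Icc.mp (Finset.mem_filter.mp (Finset.mem_filter.mp hq).1).1
          have hq0 : (1 : ℝ) ≤ q := by exact_mod_cast hq1.1
          rw [norm_mul, Complex.norm_real, Real.norm_eq_abs, abs_of_nonneg (Real.log_nonneg hq0)]
          refine (mul_le_of_le_one_left (Real.log_nonneg hq0) (hg q)).trans ?_
          exact Real.log_le_log (by linarith) (by exact_mod_cast hq1.2)
      _ = (((PP N).filter (fun q => ∃ i, p ∣ q + h i)).card : ℝ) * Real.log N := by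
          rw [Finset.sum_const, nsmul_eq_mul]
      _ ≤ (((Finset.univ : Finset (Fin k)).biUnion
          (fun i => (PP N).filter (fun q => p ∣ q + h i))).card : ℝ) * Real.log N := by
          refine mul_le_mul_of_nonneg_right ?_ hL0
          exact_mod_cast Finset.card_le_card h1
      _ ≤ (∑ i : Fin k, (((PP N).filter (fun q => p ∣ q + h i)).card : ℝ)) * Real.log N := by
          refine mul_le_mul_of_nonneg_right ?_ hL0
          exact_mod_cast Finset.card_biUnion_le
      _ = _ := by rw [Finset.sum_mul]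
  have h1 : ∀ p ∈ (PP (N + H)).filter (fun p : ℕ => y < p),
      (2 * ∑ q ∈ (PP N).filter (fun q => ∃ i, p ∣ q + h i), ‖g q * (Real.log q : ℂ)‖) ^ 2 ≤
      11664 * (k : ℝ) ^ 2 * (N : ℝ) ^ 2 * (1 / (p : ℝ) ^ 2) +
        (if Q < p then 16 * (k : ℝ) ^ 2 * (N : ℝ) ^ 2 * Real.log N ^ 2 * (1 / (p : ℝ) ^ 2) else 0) := by
    intro p hp
    have hpp := (Finset.mem_filter.mp (Finset.mem_filter.mp hp).1).2
    have hyp := (Finset.mem_filter.mp hp).2
    have hp0 : (0 : ℝ) < p := by exact_mod_cast hpp.pos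
    have hnn : 0 ≤ ∑ q ∈ (PP N).filter (fun q => ∃ i, p ∣ q + h i), ‖g q * (Real.log q : ℂ)‖ :=
      Finset.sum_nonneg fun _ _ => norm_nonneg _
    rcases Nat.lt_or_ge Q p with hQp | hQp
    · rw [if_pos hQp]
      have h2 : ∀ i : Fin k, (((PP N).filter (fun q => p ∣ q + h i)).card : ℝ) * Real.log N ≤
          2 * N / p * Real.log N := by
        intro i
        refine mul_le_mul_of_nonneg_right ?_ hL0
        have h3 : ((PP N).filter (fun q => p ∣ q + h i)).card ≤
            ((Ioc 0 (N + H)).filter (fun m => p ∣ m)).card := by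
          refine Finset.card_le_card_of_injOn (fun n => n + h i) ?_ ?_
          · intro n hn
            simp only [Finset.coe_filter, Finset.mem_filter, Finset.mem_Icc, Finset.mem_Ioc,
              Set.mem_setOf_eq] at hn ⊢
            have := hH i
            exact ⟨⟨by omega, by omega⟩, hn.2⟩
          · intro n _ n' _ hnn
            exact Nat.add_right_cancel hnn
        rw [Nat.Ioc_filter_dvd_card_eq_div] at h3
        have h4 : (((N + H) / p : ℕ) : ℝ) ≤ ((N + H : ℕ) : ℝ) / p := Nat.cast_div_le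
        have h5 : ((N + H : ℕ) : ℝ) ≤ 2 * N := by
          push_cast
          have : (H : ℝ) ≤ N := by exact_mod_cast hHN
          linarith
        calc (((PP N).filter (fun q => p ∣ q + h i)).card : ℝ) ≤ (((N + H) / p : ℕ) : ℝ) := by
              exact_mod_cast h3
          _ ≤ ((N + H : ℕ) : ℝ) / p := h4
          _ ≤ 2 * N / p := div_le_div_of_nonneg_right h5 hp0.le
      have h3 : ∑ q ∈ (PP N).filter (fun q => ∃ i, p ∣ q + h i), ‖g q * (Real.log q : ℂ)‖ ≤
          k * (2 * N / p * Real.log N) := by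
        refine (hsumle p).trans ((Finset.sum_le_sum fun i _ => h2 i).trans (le_of_eq ?_))
        simp
      have h4 : (2 * ∑ q ∈ (PP N).filter (fun q => ∃ i, p ∣ q + h i),
          ‖g q * (Real.log q : ℂ)‖) ^ 2 ≤ (2 * (k * (2 * N / p * Real.log N))) ^ 2 :=
        pow_le_pow_left₀ (by positivity) (by linarith) 2
      have h5 : (2 * ((k : ℝ) * (2 * N / p * Real.log N))) ^ 2 =
          16 * (k : ℝ) ^ 2 * (N : ℝ) ^ 2 * Real.log N ^ 2 * (1 / (p : ℝ) ^ 2) := by
        field_simp; ring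
      have h6 : 0 ≤ 11664 * (k : ℝ) ^ 2 * (N : ℝ) ^ 2 * (1 / (p : ℝ) ^ 2) := by positivity
      linarith
    · rw [if_neg (by omega), add_zero]
      have hp2 : p ^ 2 ≤ N := Nat.le_sqrt'.mp hQp
      have h2 : ∀ i : Fin k, (((PP N).filter (fun q => p ∣ q + h i)).card : ℝ) * Real.log N ≤
          54 * (N / p) := fun i => hN2 N hNN2 p (h i) hpp hp2 (by have := hH i; omega)
      have h3 : ∑ q ∈ (PP N).filter (fun q => ∃ i, p ∣ q + h i), ‖g q * (Real.log q : ℂ)‖ ≤
          k * (54 * (N / p)) := by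
        refine (hsumle p).trans ((Finset.sum_le_sum fun i _ => h2 i).trans (le_of_eq ?_))
        simp
      have h4 : (2 * ∑ q ∈ (PP N).filter (fun q => ∃ i, p ∣ q + h i),
          ‖g q * (Real.log q : ℂ)‖) ^ 2 ≤ (2 * (k * (54 * (N / p)))) ^ 2 :=
        pow_le_pow_left₀ (by positivity) (by linarith) 2
      have h5 : (2 * ((k : ℝ) * (54 * (N / p)))) ^ 2 =
          11664 * (k : ℝ) ^ 2 * (N : ℝ) ^ 2 * (1 / (p : ℝ) ^ 2) := by
        field_simp; ring
      linarith
  refine (Finset.sum_le_sum h1).trans ?_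
  rw [Finset.sum_add_distrib, ← Finset.mul_sum, ← Finset.sum_filter]
  have h2 := sum_inv_sq_le y hy ((PP (N + H)).filter (fun p : ℕ => y < p))
    (fun p hp => (Finset.mem_filter.mp hp).2)
  have h3 := sum_inv_sq_le Q hQ1 (((PP (N + H)).filter (fun p : ℕ => y < p)).filter
    (fun p => Q < p)) (fun p hp => (Finset.mem_filter.mp hp).2)
  rw [← Finset.mul_sum]
  have h4 : 16 * (k : ℝ) ^ 2 * (N : ℝ) ^ 2 * Real.log N ^ 2 * (1 / Q) ≤
      (k : ℝ) ^ 2 * (N : ℝ) ^ 2 / y := by
    rw [le_div_iff₀ hy0, mul_one_div, div_mul_eq_mul_div, div_le_iff₀ hQ0]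
    calc 16 * (k : ℝ) ^ 2 * (N : ℝ) ^ 2 * Real.log N ^ 2 * y =
          (k : ℝ) ^ 2 * (N : ℝ) ^ 2 * (16 * y * Real.log N ^ 2) := by ring
      _ ≤ (k : ℝ) ^ 2 * (N : ℝ) ^ 2 * Q := mul_le_mul_of_nonneg_left hylog (by positivity)
  calc 11664 * (k : ℝ) ^ 2 * (N : ℝ) ^ 2 *
        ∑ p ∈ (PP (N + H)).filter (fun p : ℕ => y < p), 1 / (p : ℝ) ^ 2 +
        16 * (k : ℝ) ^ 2 * (N : ℝ) ^ 2 * Real.log N ^ 2 *
        ∑ p ∈ ((PP (N + H)).filter (fun p : ℕ => y < p)).filter (fun p => Q < p),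
          1 / (p : ℝ) ^ 2
      ≤ 11664 * (k : ℝ) ^ 2 * (N : ℝ) ^ 2 * (1 / y) +
        16 * (k : ℝ) ^ 2 * (N : ℝ) ^ 2 * Real.log N ^ 2 * (1 / Q) :=
        add_le_add (mul_le_mul_of_nonneg_left h2 (by positivity))
          (mul_le_mul_of_nonneg_left h3 (by positivity))
    _ ≤ 11664 * (k : ℝ) ^ 2 * (N : ℝ) ^ 2 * (1 / y) + (k : ℝ) ^ 2 * (N : ℝ) ^ 2 / y := by linarith
    _ = 11665 * ((k : ℝ) ^ 2 * (N : ℝ) ^ 2 / y) := by ring
    _ ≤ 12000 * ((k : ℝ) ^ 2 * (N : ℝ) ^ 2 / y) :=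
        mul_le_mul_of_nonneg_right (by norm_num) (by positivity)
    _ = _ := by ring

end Pool.Agent.W5h23.CP
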