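import Pool.Agent.W5h23.CP.ShPr

/-!
# Random multiplicative functions at shifted primes: almost sure convergence
-/

set_option autoImplicit false
set_option linter.unusedSectionVars false

open MeasureTheory ProbabilityTheory Function Finset Filter Topology

namespace Pool.Agent.W5h23.CP

/-- the scales are dense -/
theorem ratio_Nj : Tendsto (fun N : ℕ => ((Nj ⌊Real.log N ^ 2⌋₊ : ℕ) : ℝ) / N) atTop (𝓝 1) := by
  have h2 : Tendsto (fun N : ℕ => Real.exp (1 / Real.sqrt ((⌊Real.log N ^ 2⌋₊ : ℝ) + 1)) - 1)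
      atTop (𝓝 0) := by
    have h3 : Tendsto (fun N : ℕ => 1 / Real.sqrt ((⌊Real.log N ^ 2⌋₊ : ℝ) + 1)) atTop (𝓝 0) := by
      simp only [one_div]
      refine tendsto_inv_atTop_zero.comp ?_
      refine Real.tendsto_sqrt_atTop.comp ?_
      exact tendsto_atTop_add_const_right _ _ (tendsto_natCast_atTop_atTop.comp tendsto_jN)
    have h4 := ((Real.continuous_exp.tendsto 0).comp h3).sub_const 1
    simpa using h4
  have h5 : Tendsto (fun N : ℕ => (1 : ℝ) / N) atTop (𝓝 0) := tendsto_one_div_atTop_nhds_zero_nat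
  have h6 := h2.add h5
  simp only [add_zero] at h6
  have h7 : Tendsto (fun N : ℕ => 1 - ((Nj ⌊Real.log N ^ 2⌋₊ : ℕ) : ℝ) / N) atTop (𝓝 0) := by
    refine squeeze_zero' ?_ ?_ h6
    · filter_upwards [eventually_ge_atTop 1] with N hN
      have hN0 : (0 : ℝ) < N := by exact_mod_cast hN
      have hlog : 0 ≤ Real.log N := Real.log_nonneg (by exact_mod_cast hN)
      have hj1 : ((⌊Real.log N ^ 2⌋₊ : ℕ) : ℝ) ≤ Real.log N ^ 2 := Nat.floor_le (sq_nonneg _)
      have hs1 : Real.sqrt ((⌊Real.log N ^ 2⌋₊ : ℕ) : ℝ) ≤ Real.log N := by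
        rw [Real.sqrt_le_left hlog]; exact hj1
      have he1 : Real.exp (Real.sqrt ((⌊Real.log N ^ 2⌋₊ : ℕ) : ℝ)) ≤ N :=
        (Real.exp_le_exp.mpr hs1).trans_eq (Real.exp_log hN0)
      have hMle : ((Nj ⌊Real.log N ^ 2⌋₊ : ℕ) : ℝ) ≤
          Real.exp (Real.sqrt ((⌊Real.log N ^ 2⌋₊ : ℕ) : ℝ)) := Nat.floor_le (Real.exp_pos _).le
      have : ((Nj ⌊Real.log N ^ 2⌋₊ : ℕ) : ℝ) / N ≤ 1 := by
        rw [div_le_one hN0]; linarith
      linarith
    · filter_upwards [eventually_ge_atTop 1] with N hN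
      have hN0 : (0 : ℝ) < N := by exact_mod_cast hN
      set j := ⌊Real.log N ^ 2⌋₊ with hj
      set M := Nj j with hM
      have hlog : 0 ≤ Real.log N := Real.log_nonneg (by exact_mod_cast hN)
      have hj1 : (j : ℝ) ≤ Real.log N ^ 2 := Nat.floor_le (sq_nonneg _)
      have hj2 : Real.log N ^ 2 < j + 1 := Nat.lt_floor_add_one _
      have hs1 : Real.sqrt j ≤ Real.log N := by
        rw [Real.sqrt_le_left hlog]; exact hj1
      have hs2 : Real.log N ≤ Real.sqrt ((j : ℝ) + 1) := Real.le_sqrt_of_sq_le hj2.le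
      have he1 : Real.exp (Real.sqrt j) ≤ N :=
        (Real.exp_le_exp.mpr hs1).trans_eq (Real.exp_log hN0)
      have he2 : (N : ℝ) ≤ Real.exp (Real.sqrt ((j : ℝ) + 1)) := by
        conv_lhs => rw [← Real.exp_log hN0]
        exact Real.exp_le_exp.mpr hs2
      have hMge : Real.exp (Real.sqrt j) < M + 1 := Nat.lt_floor_add_one _
      have hdiff : Real.sqrt ((j : ℝ) + 1) - Real.sqrt j ≤ 1 / Real.sqrt ((j : ℝ) + 1) := by
        have ha : 0 < Real.sqrt ((j : ℝ) + 1) := Real.sqrt_pos.2 (by positivity)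
        have hb : 0 ≤ Real.sqrt (j : ℝ) := Real.sqrt_nonneg _
        rw [le_div_iff₀ ha]
        have e1 : Real.sqrt ((j : ℝ) + 1) ^ 2 = j + 1 := Real.sq_sqrt (by positivity)
        have e2 : Real.sqrt (j : ℝ) ^ 2 = j := Real.sq_sqrt (by positivity)
        have e3 : Real.sqrt (j : ℝ) ≤ Real.sqrt ((j : ℝ) + 1) := Real.sqrt_le_sqrt (by linarith)
        nlinarith
      have hNM : (N : ℝ) - M ≤ N * (Real.exp (1 / Real.sqrt ((j : ℝ) + 1)) - 1) + 1 := by
        have e1 : Real.exp (Real.sqrt ((j : ℝ) + 1)) =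
            Real.exp (Real.sqrt j) * Real.exp (Real.sqrt ((j : ℝ) + 1) - Real.sqrt j) := by
          rw [← Real.exp_add]; congr 1; ring
        have e2 : Real.exp (Real.sqrt ((j : ℝ) + 1) - Real.sqrt j) ≤
            Real.exp (1 / Real.sqrt ((j : ℝ) + 1)) := Real.exp_le_exp.mpr hdiff
        have e3 : (1 : ℝ) ≤ Real.exp (1 / Real.sqrt ((j : ℝ) + 1)) :=
          Real.one_le_exp (by positivity)
        have e4 : Real.exp (Real.sqrt ((j : ℝ) + 1)) - Real.exp (Real.sqrt j) ≤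
            N * (Real.exp (1 / Real.sqrt ((j : ℝ) + 1)) - 1) := by
          rw [e1]
          calc Real.exp (Real.sqrt j) * Real.exp (Real.sqrt ((j : ℝ) + 1) - Real.sqrt j) -
                Real.exp (Real.sqrt j) =
                Real.exp (Real.sqrt j) * (Real.exp (Real.sqrt ((j : ℝ) + 1) - Real.sqrt j) - 1) := by
                ring
            _ ≤ Real.exp (Real.sqrt j) * (Real.exp (1 / Real.sqrt ((j : ℝ) + 1)) - 1) :=
                mul_le_mul_of_nonneg_left (by linarith) (Real.exp_pos _).le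
            _ ≤ _ := mul_le_mul_of_nonneg_right he1 (by linarith)
        linarith
      have e5 : 1 - (M : ℝ) / N = (N - M) / N := by field_simp
      rw [e5, div_le_iff₀ hN0]
      calc (N : ℝ) - M ≤ N * (Real.exp (1 / Real.sqrt ((j : ℝ) + 1)) - 1) + 1 := hNM
        _ = _ := by field_simp
  have h8 := h7.const_sub 1
  simpa using h8

/-- interpolation between the scales, with weights -/
theorem interp_w {s : ℕ → ℂ} {v : ℕ → ℝ} (hs : ∀ n, ‖s n‖ ≤ v n) {c : ℝ}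
    (hv : Tendsto (fun N : ℕ => (∑ n ∈ Icc 1 N, v n) / N) atTop (𝓝 c))
    (h : Tendsto (fun j : ℕ => Mn s (Nj j)) atTop (𝓝 0)) :
    Tendsto (fun N : ℕ => Mn s N) atTop (𝓝 0) := by
  rw [tendsto_zero_iff_norm_tendsto_zero]
  have hM : Tendsto (fun N : ℕ => Nj ⌊Real.log N ^ 2⌋₊) atTop atTop := tendsto_Nj.comp tendsto_jN
  have h1 : Tendsto (fun N : ℕ => ‖Mn s (Nj ⌊Real.log N ^ 2⌋₊)‖) atTop (𝓝 0) :=
    (tendsto_zero_iff_norm_tendsto_zero.mp h).comp tendsto_jN
  have h2 : Tendsto (fun N : ℕ => (∑ n ∈ Icc 1 N, v n) / N -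
      (∑ n ∈ Icc 1 (Nj ⌊Real.log N ^ 2⌋₊), v n) / ((Nj ⌊Real.log N ^ 2⌋₊ : ℕ) : ℝ) *
        (((Nj ⌊Real.log N ^ 2⌋₊ : ℕ) : ℝ) / N)) atTop (𝓝 0) := by
    have h3 := hv.sub ((hv.comp hM).mul ratio_Nj)
    simpa using h3
  have h6 := h1.add h2
  simp only [add_zero] at h6
  refine squeeze_zero' (Filter.Eventually.of_forall fun N => norm_nonneg _) ?_ h6
  filter_upwards [eventually_ge_atTop 1] with N hN
  have hN0 : (0 : ℝ) < N := by exact_mod_cast hN
  set j := ⌊Real.log N ^ 2⌋₊ with hj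
  set M := Nj j with hM
  have hlog : 0 ≤ Real.log N := Real.log_nonneg (by exact_mod_cast hN)
  have hj1 : (j : ℝ) ≤ Real.log N ^ 2 := Nat.floor_le (sq_nonneg _)
  have hs1 : Real.sqrt j ≤ Real.log N := by
    rw [Real.sqrt_le_left hlog]; exact hj1
  have he1 : Real.exp (Real.sqrt j) ≤ N :=
    (Real.exp_le_exp.mpr hs1).trans_eq (Real.exp_log hN0)
  have hMle : (M : ℝ) ≤ Real.exp (Real.sqrt j) := Nat.floor_le (Real.exp_pos _).le
  have hMN : M ≤ N := by exact_mod_cast hMle.trans he1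
  have hM1 : 1 ≤ M := Nj_pos j
  have hM0 : (0 : ℝ) < M := by exact_mod_cast hM1
  have e1 : ∀ f : ℕ → ℂ, ∑ n ∈ Icc 1 N, f n = ∑ n ∈ Icc 1 M, f n + ∑ n ∈ Icc (M + 1) N, f n := by
    intro f
    rw [← Finset.sum_union]
    · congr 1
      ext n
      simp only [Finset.mem_Icc, Finset.mem_union]
      omega
    · rw [Finset.disjoint_left]
      intro n hn hn'
      rw [Finset.mem_Icc] at hn hn'
      omega
  have e1' : ∑ n ∈ Icc 1 N, v n = ∑ n ∈ Icc 1 M, v n + ∑ n ∈ Icc (M + 1) N, v n := by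
    rw [← Finset.sum_union]
    · congr 1
      ext n
      simp only [Finset.mem_Icc, Finset.mem_union]
      omega
    · rw [Finset.disjoint_left]
      intro n hn hn'
      rw [Finset.mem_Icc] at hn hn'
      omega
  have hsum : ‖∑ n ∈ Icc 1 N, s n‖ ≤ ‖∑ n ∈ Icc 1 M, s n‖ +
      (∑ n ∈ Icc 1 N, v n - ∑ n ∈ Icc 1 M, v n) := by
    rw [e1 s, e1']
    refine (norm_add_le _ _).trans (add_le_add le_rfl ?_)
    refine (norm_sum_le _ _).trans ((Finset.sum_le_sum fun n _ => hs n).trans (le_of_eq ?_))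
    ring
  have hT : ∀ K : ℕ, ‖Mn s K‖ = ‖∑ n ∈ Icc 1 K, s n‖ / K := by
    intro K
    unfold Mn
    rw [norm_mul, norm_div, norm_one, Complex.norm_natCast, one_div, ← div_eq_inv_mul]
  rw [hT N, hT M]
  have e5 : ‖∑ n ∈ Icc 1 M, s n‖ / N ≤ ‖∑ n ∈ Icc 1 M, s n‖ / M :=
    div_le_div_of_nonneg_left (norm_nonneg _) hM0 (by exact_mod_cast hMN)
  calc ‖∑ n ∈ Icc 1 N, s n‖ / N ≤ (‖∑ n ∈ Icc 1 M, s n‖ +
        (∑ n ∈ Icc 1 N, v n - ∑ n ∈ Icc 1 M, v n)) / N :=
        div_le_div_of_nonneg_right hsum hN0.le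
    _ = ‖∑ n ∈ Icc 1 M, s n‖ / N + ((∑ n ∈ Icc 1 N, v n) / N -
        (∑ n ∈ Icc 1 M, v n) / M * (M / N)) := by
        field_simp
    _ ≤ _ := by linarith

/-- one scale for shifted primes -/
theorem one_scale_primes : ∃ N1 : ℕ, ∀ N : ℕ, N1 ≤ N → ∀ {Ω : Type} [MeasurableSpace Ω]
    (P : Measure Ω) [IsProbabilityMeasure P] {k : ℕ} {F : Fin k → ℕ → Ω → ℂ} (_ : RandMult P F)
    {h : Fin k → ℕ} (_ : Injective h) {H : ℕ} (_ : ∀ i, h i ≤ H) (i0 : Fin k) (_ : 1 ≤ h i0)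
    {g : ℕ → ℂ} (_ : ∀ n, ‖g n‖ ≤ 1) (y : ℕ) (_ : 1 ≤ y) (_ : H ≤ y) (_ : H ≤ N)
    (_ : 16 * y * Real.log N ^ 2 ≤ (Nat.sqrt N : ℝ))
    (_ : 1 ≤ Dw (mn P F i0) y ⌊Real.log N⌋₊) {ε : ℝ} (_ : 0 ≤ ε),
    P.real {ω | 2 * N * (Real.exp (-(Dw (mn P F i0) y ⌊Real.log N⌋₊ / 2)) +
      16 / Dw (mn P F i0) y ⌊Real.log N⌋₊ + 2 / y) + N / Real.log N ^ 4 + ε * N ≤
      ‖∑ q ∈ PP N, (g q * (Real.log q : ℂ)) * ∏ i, F i (q + h i) ω‖} ≤
      4 * Real.exp (-(ε ^ 2 * y / (96000 * k ^ 2))) := by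
  obtain ⟨N2, hN2⟩ := var_primes
  obtain ⟨N3, hN3⟩ := mean_primes
  refine ⟨max N2 (max N3 1), fun N hN => ?_⟩
  intro Ω _ P _ k F hF h hinj H hH i0 hi0 g hg y hy hHy hHN hylog hD ε hε
  have hNN2 : N2 ≤ N := (le_max_left _ _).trans hN
  have hNN3 : N3 ≤ N := ((le_max_left _ _).trans (le_max_right _ _)).trans hN
  have hN1 : 1 ≤ N := ((le_max_right _ _).trans (le_max_right _ _)).trans hN
  have hN0 : (0 : ℝ) < N := by exact_mod_cast hN1
  have hL0 : 0 ≤ Real.log N := Real.log_nonneg (by exact_mod_cast hN1)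
  have hk : 0 < k := lt_of_le_of_lt (Nat.zero_le _) i0.2
  have hk0 : (0 : ℝ) < k := by exact_mod_cast hk
  have hy0 : (0 : ℝ) < y := by exact_mod_cast hy
  have ha0 := mn_nonneg (P := P) (F := F) i0
  have ha1 := mn_le_one hF i0
  have hV : (0 : ℝ) < 12000 * (k : ℝ) ^ 2 * (N : ℝ) ^ 2 / y := by positivity
  have key := coreU hF (fun i n => n + h i) (PP N) (M := N + H)
    (fun n hn i => by
      have hn1 := Finset.mem_Icc.mp (Finset.mem_filter.mp hn).1
      have := hH i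
      exact ⟨by omega, by omega⟩) i0 (fun q => g q * (Real.log q : ℂ)) y
    (fun n hn p hp hyp hd i hi hd' => by
      have hn1 := Finset.mem_Icc.mp (Finset.mem_filter.mp hn).1
      have h5 : h i ≠ h i0 := fun h6 => hi (hinj h6)
      have h7 := hH i
      have h8 := hH i0
      rcases Nat.lt_or_gt_of_ne h5 with h9 | h9
      · have h10 : p ∣ (n + h i0) - (n + h i) := Nat.dvd_sub hd hd'
        have := Nat.le_of_dvd (by omega) h10
        omega
      · have h10 : p ∣ (n + h i) - (n + h i0) := Nat.dvd_sub hd' hd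
        have := Nat.le_of_dvd (by omega) h10
        omega) hV (t := ε * N / 2) (by positivity)
    (hN2 N hNN2 k h H hH g hg y hy hHy hHN hylog)
  have hM : ∑ q ∈ PP N, ‖g q * (Real.log q : ℂ)‖ * GG (mn P F i0) y (q + h i0) ≤
      2 * N * (Real.exp (-(Dw (mn P F i0) y ⌊Real.log N⌋₊ / 2)) +
      16 / Dw (mn P F i0) y ⌊Real.log N⌋₊ + 2 / y) + N / Real.log N ^ 4 := by
    refine le_trans ?_ (hN3 N hNN3 (mn P F i0) ha0 ha1 y (h i0) hi0 ((hH i0).trans hHy) hD)
    rw [Finset.mul_sum]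
    refine Finset.sum_le_sum fun q hq => ?_
    have hq1 := Finset.mem_Icc.mp (Finset.mem_filter.mp hq).1
    have hq0 : (1 : ℝ) ≤ q := by exact_mod_cast hq1.1
    refine mul_le_mul_of_nonneg_right ?_ ((mult01_GG ha0 ha1 y).nonneg _)
    rw [norm_mul, Complex.norm_real, Real.norm_eq_abs, abs_of_nonneg (Real.log_nonneg hq0)]
    refine (mul_le_of_le_one_left (Real.log_nonneg hq0) (hg q)).trans ?_
    exact Real.log_le_log (by linarith) (by exact_mod_cast hq1.2)
  refine le_trans (measureReal_mono ?_) (key.trans ?_)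
  · intro ω hω
    simp only [Set.mem_setOf_eq] at hω ⊢
    have e : (∑ q ∈ PP N, ‖g q * (Real.log q : ℂ)‖ *
        GG (fun p => ‖∫ ω, F i0 p ω ∂P‖) y (q + h i0)) =
        ∑ q ∈ PP N, ‖g q * (Real.log q : ℂ)‖ * GG (mn P F i0) y (q + h i0) := rfl
    rw [e]
    linarith
  · refine mul_le_mul_of_nonneg_left (Real.exp_le_exp.mpr (le_of_eq ?_)) (by norm_num)
    field_simp
    ring

section

variable {Ω : Type} [MeasurableSpace Ω] {P : Measure Ω} [IsProbabilityMeasure P] {k : ℕ}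
  {F : Fin k → ℕ → Ω → ℂ}

/-- the summand at a prime -/
noncomputable def sp (F : Fin k → ℕ → Ω → ℂ) (g : ℕ → ℂ) (h : Fin k → ℕ) (ω : Ω) (n : ℕ) : ℂ :=
  if n.Prime then (g n * (Real.log n : ℂ)) * ∏ i, F i (n + h i) ω else 0

theorem sum_sp (g : ℕ → ℂ) (h : Fin k → ℕ) (ω : Ω) (N : ℕ) :
    ∑ n ∈ Icc 1 N, sp F g h ω n =
      ∑ q ∈ PP N, (g q * (Real.log q : ℂ)) * ∏ i, F i (q + h i) ω := by
  unfold sp PP
  rw [Finset.sum_filter]

theorem primes_scales (hF : RandMult P F) {h : Fin k → ℕ} (hinj : Injective h) (i0 : Fin k)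
    (hi0 : 1 ≤ h i0)
    (hdiv : Tendsto (fun N : ℕ => Dw (mn P F i0) (Real.log (Real.log N)) ⌊Real.log N⌋₊)
      atTop atTop)
    {g : ℕ → ℂ} (hg : ∀ n, ‖g n‖ ≤ 1) {ε : ℝ} (hε : 0 < ε) :
    ∀ᵐ ω ∂P, ∀ᶠ j : ℕ in atTop, ‖Mn (sp F g h ω) (Nj j)‖ < 2 * ε := by
  obtain ⟨N1, hone⟩ := one_scale_primes
  have hk : 0 < k := lt_of_le_of_lt (Nat.zero_le _) i0.2
  have hk0 : (0 : ℝ) < k := by exact_mod_cast hk
  obtain ⟨H, hH⟩ : ∃ H : ℕ, ∀ i, h i ≤ H :=
    ⟨(Finset.univ : Finset (Fin k)).sup h, fun i => Finset.le_sup (Finset.mem_univ i)⟩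
  have hH0 : (0 : ℝ) ≤ H := Nat.cast_nonneg _
  set K : ℝ := 192000 * k ^ 2 / ε ^ 2 with hK
  have hK0 : 0 < K := by positivity
  set y : ℕ → ℕ := fun j => ⌈K * Real.log (j + 2)⌉₊ + H + 1 with hy
  set E : ℕ → ℝ := fun j => Dw (mn P F i0) (y j : ℕ) ⌊Real.log (Nj j)⌋₊ with hE
  set B : ℕ → ℝ := fun j => 2 * (Nj j : ℝ) * (Real.exp (-(E j / 2)) + 16 / E j + 2 / (y j : ℕ)) +
    (Nj j : ℝ) / Real.log (Nj j) ^ 4 with hB
  set A : ℕ → Set Ω := fun j => {ω | B j + ε * (Nj j : ℝ) ≤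
      ‖∑ q ∈ PP (Nj j), (g q * (Real.log q : ℂ)) * ∏ i, F i (q + h i) ω‖} with hA
  have hlog2 : ∀ j : ℕ, 0 ≤ Real.log ((j : ℝ) + 2) := fun j =>
    Real.log_nonneg (by have : (0 : ℝ) ≤ j := Nat.cast_nonneg _; linarith)
  set K' : ℝ := 4 * (2 * K + H + 2) with hK'
  have hK'0 : 0 < K' := by positivity
  have hyle : ∀ᶠ j : ℕ in atTop, ((y j : ℕ) : ℝ) ≤ K' * Real.log (Real.log (Nj j)) ∧
      0 < Real.log (Real.log (Nj j)) := by
    filter_upwards [eventually_ge_atTop 16] with j hj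
    have hj16 : (16 : ℝ) ≤ j := by exact_mod_cast hj
    have hL := loglog_Nj hj
    have hlj : 1 ≤ Real.log j := by
      rw [Real.le_log_iff_exp_le (by linarith)]
      have := Real.exp_one_lt_d9
      linarith
    have hL0 : 0 < Real.log (Real.log (Nj j)) := by linarith
    have h2 : Real.log ((j : ℝ) + 2) ≤ 2 * Real.log j := by
      have e1 : 2 * Real.log (j : ℝ) = Real.log ((j : ℝ) ^ 2) := by
        rw [Real.log_pow]; norm_num
      rw [e1]
      exact Real.log_le_log (by linarith) (by nlinarith)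
    refine ⟨?_, hL0⟩
    simp only [hy]
    push_cast
    have h4 := (Nat.ceil_lt_add_one (mul_nonneg hK0.le (hlog2 j))).le
    have h5 : K * Real.log ((j : ℝ) + 2) ≤ K * (2 * Real.log j) :=
      mul_le_mul_of_nonneg_left h2 hK0.le
    have h6 : (H + 2 : ℝ) ≤ (H + 2) * Real.log j := by nlinarith
    have h7 : K' * (Real.log j / 4) ≤ K' * Real.log (Real.log (Nj j)) :=
      mul_le_mul_of_nonneg_left hL hK'0.le
    have h8 : K' * (Real.log j / 4) = K * (2 * Real.log j) + (H + 2) * Real.log j := by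
      rw [hK']; ring
    linarith
  have hEt : Tendsto E atTop atTop := by
    have h1 : ∀ᶠ j : ℕ in atTop,
        Dw (mn P F i0) (Real.log (Real.log (Nj j))) ⌊Real.log (Nj j)⌋₊ - K' ≤ E j := by
      filter_upwards [hyle] with j hj
      have := Dw_window (a := mn P F i0) (mn_nonneg i0) (mn_le_one hF i0) hj.2 hK'0.le hj.1
        ⌊Real.log (Nj j)⌋₊
      simp only [hE]
      linarith
    refine tendsto_atTop_mono' atTop h1 ?_
    exact tendsto_atTop_add_const_right _ (-K') (hdiv.comp tendsto_Nj)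
  have hyt : Tendsto (fun j => ((y j : ℕ) : ℝ)) atTop atTop := by
    have h1 : Tendsto (fun j : ℕ => K * Real.log ((j : ℝ) + 2)) atTop atTop := by
      refine Tendsto.const_mul_atTop hK0 (Real.tendsto_log_atTop.comp ?_)
      exact tendsto_atTop_add_const_right _ _ tendsto_natCast_atTop_atTop
    refine tendsto_atTop_mono (fun j => ?_) h1
    simp only [hy]
    push_cast
    have := Nat.le_ceil (K * Real.log ((j : ℝ) + 2))
    linarith
  have hNt : Tendsto (fun j => ((Nj j : ℕ) : ℝ)) atTop atTop :=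
    tendsto_natCast_atTop_atTop.comp tendsto_Nj
  have hlNt : Tendsto (fun j => Real.log (Nj j : ℝ)) atTop atTop := Real.tendsto_log_atTop.comp hNt
  -- the condition on `y`
  have hcond : ∀ᶠ j : ℕ in atTop,
      16 * ((y j : ℕ) : ℝ) * Real.log (Nj j) ^ 2 ≤ (Nat.sqrt (Nj j) : ℝ) := by
    -- `16 K' log log N log^2 N ≤ sqrt N - 1`
    have h1 : ∀ᶠ x : ℝ in atTop, 16 * (K' * Real.log x) * Real.log x ^ 2 ≤ x ^ (1 / 2 : ℝ) - 1 := by
      have h2 := (isLittleO_log_rpow_rpow_atTop (s := 1 / 2) 3 (by norm_num)).def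
        (c := 1 / (32 * K' + 2)) (by positivity)
      have h3 : Tendsto (fun x : ℝ => x ^ (1 / 2 : ℝ)) atTop atTop :=
        tendsto_rpow_atTop (by norm_num)
      filter_upwards [h2, h3.eventually_ge_atTop 2, eventually_ge_atTop 1] with x hx hx2 hx1
      have hl : 0 ≤ Real.log x := Real.log_nonneg hx1
      rw [Real.norm_of_nonneg (Real.rpow_nonneg hl _), Real.norm_of_nonneg (by positivity)] at hx
      have e1 : Real.log x ^ (3 : ℝ) = Real.log x ^ 3 := by
        rw [← Real.rpow_natCast]; norm_num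
      rw [e1] at hx
      have h4 : (32 * K' + 2) * Real.log x ^ 3 ≤ x ^ (1 / 2 : ℝ) := by
        have := mul_le_mul_of_nonneg_left hx (show (0 : ℝ) ≤ 32 * K' + 2 by positivity)
        calc (32 * K' + 2) * Real.log x ^ 3 ≤ (32 * K' + 2) *
              (1 / (32 * K' + 2) * x ^ (1 / 2 : ℝ)) := this
          _ = x ^ (1 / 2 : ℝ) := by field_simp
      have h5 : 0 ≤ Real.log x ^ 3 := by positivity
      have h6 : 16 * (K' * Real.log x) * Real.log x ^ 2 = 16 * K' * Real.log x ^ 3 := by ring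
      rw [h6]
      nlinarith
    filter_upwards [hyle, hNt.eventually h1, hlNt.eventually_ge_atTop 1] with j hj hx hl1
    have h2 : Real.log (Real.log (Nj j)) ≤ Real.log (Nj j) :=
      (Real.log_le_sub_one_of_pos (by linarith)).trans (by linarith)
    have h3 : ((y j : ℕ) : ℝ) ≤ K' * Real.log (Nj j) :=
      hj.1.trans (mul_le_mul_of_nonneg_left h2 hK'0.le)
    have h4 : 16 * ((y j : ℕ) : ℝ) * Real.log (Nj j) ^ 2 ≤
        16 * (K' * Real.log (Nj j)) * Real.log (Nj j) ^ 2 := by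
      refine mul_le_mul_of_nonneg_right ?_ (sq_nonneg _)
      linarith
    have h5 : ((Nj j : ℕ) : ℝ) ^ (1 / 2 : ℝ) - 1 ≤ (Nat.sqrt (Nj j) : ℝ) := by
      rw [← Real.sqrt_eq_rpow]
      have h6 : Real.sqrt ((Nj j : ℕ) : ℝ) ≤ (Nat.sqrt (Nj j) : ℝ) + 1 := by
        rw [Real.sqrt_le_left (by positivity)]
        have := Nat.lt_succ_sqrt (Nj j)
        have h7 : ((Nj j : ℕ) : ℝ) ≤ (((Nat.sqrt (Nj j)) + 1 : ℕ) : ℝ) * (((Nat.sqrt (Nj j)) + 1 : ℕ) : ℝ) := by
          exact_mod_cast this.le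
        push_cast at h7
        rw [sq]; exact h7
      linarith
    linarith
  have hev : ∀ᶠ j : ℕ in atTop, P.real (A j) ≤ 4 * (1 / ((j : ℝ) + 2) ^ 2) := by
    filter_upwards [hcond, hEt.eventually_ge_atTop 1, tendsto_Nj.eventually_ge_atTop (max N1 H)]
      with j hj hEj hNj
    have h1 := hone (Nj j) ((le_max_left _ _).trans hNj) P hF hinj hH i0 hi0 hg (y j)
      (by simp only [hy]; omega) (by simp only [hy]; omega) ((le_max_right _ _).trans hNj) hj hEj
      hε.le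
    refine le_trans h1 (mul_le_mul_of_nonneg_left ?_ (by norm_num))
    have hj2 : (0 : ℝ) < (j : ℝ) + 2 := by positivity
    have h2 : (1 : ℝ) / ((j : ℝ) + 2) ^ 2 = Real.exp (-(2 * Real.log ((j : ℝ) + 2))) := by
      rw [Real.exp_neg, two_mul, Real.exp_add, Real.exp_log hj2, one_div, sq]
    rw [h2, Real.exp_le_exp]
    refine neg_le_neg ?_
    have h3 : K * Real.log ((j : ℝ) + 2) ≤ ((y j : ℕ) : ℝ) := by
      simp only [hy]
      push_cast
      have := Nat.le_ceil (K * Real.log ((j : ℝ) + 2))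
      linarith
    rw [le_div_iff₀ (by positivity)]
    have h4 : ε ^ 2 * (K * Real.log ((j : ℝ) + 2)) ≤ ε ^ 2 * ((y j : ℕ) : ℝ) :=
      mul_le_mul_of_nonneg_left h3 (by positivity)
    have h5 : ε ^ 2 * (K * Real.log ((j : ℝ) + 2)) =
        2 * Real.log ((j : ℝ) + 2) * (96000 * k ^ 2) := by
      rw [hK]; field_simp; ring
    linarith
  obtain ⟨J0, hJ0⟩ := eventually_atTop.mp hev
  have hsum : ∑' j, P (A (j + J0)) ≠ ⊤ := by
    have h1 : ∀ j, P (A (j + J0)) ≤ ENNReal.ofReal (4 * (1 / (((j + J0 : ℕ) : ℝ) + 2) ^ 2)) := by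
      intro j
      rw [← ENNReal.ofReal_toReal (measure_ne_top P (A (j + J0)))]
      exact ENNReal.ofReal_le_ofReal (hJ0 _ (Nat.le_add_left _ _))
    refine ne_top_of_le_ne_top ?_ (ENNReal.tsum_le_tsum h1)
    have hs : Summable (fun j : ℕ => 4 * (1 / (((j + J0 : ℕ) : ℝ) + 2) ^ 2)) := by
      have h2 : Summable (fun n : ℕ => 1 / (n : ℝ) ^ 2) :=
        Real.summable_one_div_nat_pow.2 (by norm_num)
      have h3 := ((summable_nat_add_iff (J0 + 2)).mpr h2).mul_left 4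
      refine h3.congr fun j => ?_
      push_cast
      ring
    exact hs.tsum_ofReal_ne_top
  have hbc := ae_eventually_notMem hsum
  have hmean : ∀ᶠ j : ℕ in atTop, 2 * (Real.exp (-(E j / 2)) + 16 / E j + 2 / ((y j : ℕ) : ℝ)) +
      1 / Real.log (Nj j) ^ 4 < ε := by
    have h1 : Tendsto (fun j => Real.exp (-(E j / 2))) atTop (𝓝 0) := by
      refine Real.tendsto_exp_atBot.comp (tendsto_neg_atTop_atBot.comp ?_)
      exact hEt.atTop_div_const (by norm_num)
    have h2 : Tendsto (fun j => 16 / E j) atTop (𝓝 0) := hEt.const_div_atTop 16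
    have h3 : Tendsto (fun j => 2 / ((y j : ℕ) : ℝ)) atTop (𝓝 0) := hyt.const_div_atTop 2
    have h4 : Tendsto (fun j => 1 / Real.log (Nj j : ℝ) ^ 4) atTop (𝓝 0) := by
      have h5 : Tendsto (fun j => Real.log (Nj j : ℝ) ^ 4) atTop atTop :=
        (tendsto_pow_atTop (by norm_num)).comp hlNt
      exact h5.const_div_atTop 1
    have h5 := (((h1.add h2).add h3).const_mul 2).add h4
    simp only [add_zero, mul_zero] at h5
    exact h5.eventually (gt_mem_nhds hε)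
  filter_upwards [hbc] with ω hω
  have hω' : ∀ᶠ j : ℕ in atTop, ω ∉ A j := by
    obtain ⟨J1, hJ1⟩ := eventually_atTop.mp hω
    refine eventually_atTop.mpr ⟨J1 + J0, fun j hj => ?_⟩
    have := hJ1 (j - J0) (by omega)
    rwa [Nat.sub_add_cancel (by omega)] at this
  filter_upwards [hω', hmean] with j hj hj'
  simp only [hA, Set.mem_setOf_eq, not_le] at hj
  have hN0 : (0 : ℝ) < (Nj j : ℝ) := by exact_mod_cast Nj_pos j
  have hT : ‖Mn (sp F g h ω) (Nj j)‖ =
      ‖∑ q ∈ PP (Nj j), (g q * (Real.log q : ℂ)) * ∏ i, F i (q + h i) ω‖ / (Nj j : ℝ) := by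
    unfold Mn
    rw [norm_mul, norm_div, norm_one, Complex.norm_natCast, one_div, ← div_eq_inv_mul, sum_sp]
  rw [hT, div_lt_iff₀ hN0]
  refine hj.trans_le ?_
  have h1 : B j = (Nj j : ℝ) * (2 * (Real.exp (-(E j / 2)) + 16 / E j + 2 / ((y j : ℕ) : ℝ)) +
      1 / Real.log (Nj j) ^ 4) := by
    simp only [hB]; ring
  have h2 := mul_le_mul_of_nonneg_left hj'.le hN0.le
  rw [h1]
  linarith

/-- **Almost sure decay at shifted primes.** -/
theorem primes_as (hF : RandMult P F) {h : Fin k → ℕ} (hinj : Injective h) (i0 : Fin k)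
    (hi0 : 1 ≤ h i0)
    (hdiv : Tendsto (fun N : ℕ => Dw (mn P F i0) (Real.log (Real.log N)) ⌊Real.log N⌋₊)
      atTop atTop)
    {g : ℕ → ℂ} (hg : ∀ n, ‖g n‖ ≤ 1) :
    ∀ᵐ ω ∂P, Tendsto (fun N : ℕ => Mn (sp F g h ω) N) atTop (𝓝 0) := by
  have h1 : ∀ᵐ ω ∂P, ∀ m : ℕ, ∀ᶠ j : ℕ in atTop,
      ‖Mn (sp F g h ω) (Nj j)‖ < 2 * (1 / ((m : ℝ) + 1)) := by
    rw [ae_all_iff]
    intro m
    exact primes_scales hF hinj i0 hi0 hdiv hg (by positivity)
  have hθ : Tendsto (fun N : ℕ => (∑ n ∈ Icc 1 N, if n.Prime then Real.log n else 0) / (N : ℝ))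
      atTop (𝓝 1) := by
    have h2 := Pool.Agent.Helper507.PNT.theta_div_tendsto.comp tendsto_natCast_atTop_atTop
    refine h2.congr fun N => ?_
    simp only [Function.comp_apply]
    congr 1
    rw [Chebyshev.theta, Nat.floor_natCast, Finset.sum_filter]
    rfl
  filter_upwards [h1] with ω hω
  refine interp_w (v := fun n => if n.Prime then Real.log n else 0) (fun n => ?_) hθ ?_
  · unfold sp
    split_ifs with hp
    · rw [norm_mul, norm_mul, norm_prod, Complex.norm_real, Real.norm_eq_abs,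
        abs_of_nonneg (Real.log_natCast_nonneg n)]
      have h2 : ∏ i, ‖F i (n + h i) ω‖ ≤ 1 :=
        Finset.prod_le_one (fun _ _ => norm_nonneg _) fun i _ => hF.bdd _ _ _
      have h3 : ‖g n‖ * Real.log n ≤ Real.log n :=
        mul_le_of_le_one_left (Real.log_natCast_nonneg n) (hg n)
      have h4 : 0 ≤ ‖g n‖ * Real.log n := mul_nonneg (norm_nonneg _) (Real.log_natCast_nonneg n)
      exact (mul_le_of_le_one_right h4 h2).trans h3
    · simp
  · rw [tendsto_zero_iff_norm_tendsto_zero]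
    rw [Metric.tendsto_atTop]
    intro δ hδ
    obtain ⟨m, hm⟩ := exists_nat_one_div_lt (half_pos hδ)
    obtain ⟨J, hJ⟩ := eventually_atTop.mp (hω m)
    refine ⟨J, fun j hj => ?_⟩
    have h2 := hJ j hj
    rw [Real.dist_eq, sub_zero, abs_of_nonneg (norm_nonneg _)]
    linarith

end

end Pool.Agent.W5h23.CP
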