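import Pool.Agent.W5h23.CP.Fin

/-!
# A Turán–Kubilius bound for the mean of `GG` in short intervals
-/

set_option autoImplicit false
set_option linter.unusedSectionVars false

open Finset

namespace Pool.Agent.W5h23.CP

/-- number of multiples of `d` in `(X, X + ℓ]` -/
theorem card_mult (X l d : ℕ) (hd : 1 ≤ d) :
    (((Ioc X (X + l)).filter (fun m => d ∣ m)).card : ℝ) ≤ (l : ℝ) / d + 1 ∧
    (l : ℝ) / d - 1 ≤ (((Ioc X (X + l)).filter (fun m => d ∣ m)).card : ℝ) := by
  have h1 : ((Ioc X (X + l)).filter (fun m => d ∣ m)).card + X / d = (X + l) / d := by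
    have e : (Ioc 0 (X + l)).filter (fun m => d ∣ m) =
        (Ioc X (X + l)).filter (fun m => d ∣ m) ∪ (Ioc 0 X).filter (fun m => d ∣ m) := by
      rw [← Finset.filter_union]
      congr 1
      ext m
      simp only [Finset.mem_Ioc, Finset.mem_union]
      omega
    have e2 := congrArg Finset.card e
    rw [Finset.card_union_of_disjoint] at e2
    · rw [Nat.Ioc_filter_dvd_card_eq_div, Nat.Ioc_filter_dvd_card_eq_div] at e2
      exact e2.symm
    · refine Finset.disjoint_filter_filter ?_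
      rw [Finset.disjoint_left]
      intro m hm hm'
      rw [Finset.mem_Ioc] at hm hm'
      omega
  have hd0 : (0 : ℝ) < d := by exact_mod_cast hd
  have h2 : (((Ioc X (X + l)).filter (fun m => d ∣ m)).card : ℝ) =
      (((X + l) / d : ℕ) : ℝ) - ((X / d : ℕ) : ℝ) := by
    rw [← h1]; push_cast; ring
  have h3 : (((X + l) / d : ℕ) : ℝ) ≤ ((X : ℝ) + l) / d := by
    have := Nat.cast_div_le (α := ℝ) (m := X + l) (n := d)
    push_cast at this
    exact this
  have h4 : ((X / d : ℕ) : ℝ) ≤ (X : ℝ) / d := Nat.cast_div_le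
  have h5 : ((X : ℝ) + l) / d < (((X + l) / d : ℕ) : ℝ) + 1 := by
    rw [div_lt_iff₀ hd0]
    have := Nat.lt_div_mul_add (a := X + l) (b := d) (by omega)
    have h6 : ((X + l : ℕ) : ℝ) < (((X + l) / d * d + d : ℕ) : ℝ) := by exact_mod_cast this
    push_cast at h6 ⊢
    linarith
  have h6 : (X : ℝ) / d < ((X / d : ℕ) : ℝ) + 1 := by
    rw [div_lt_iff₀ hd0]
    have := Nat.lt_div_mul_add (a := X) (b := d) (by omega)
    have h6 : ((X : ℕ) : ℝ) < ((X / d * d + d : ℕ) : ℝ) := by exact_mod_cast this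
    push_cast at h6 ⊢
    linarith
  rw [h2]
  rw [add_div] at h3 h5
  constructor <;> linarith

section

variable {a : ℕ → ℝ} (ha0 : ∀ p, 0 ≤ a p) (ha1 : ∀ p, a p ≤ 1) (y z X l : ℕ)

/-- the primes in `(y, z]` -/
noncomputable abbrev Pw (y z : ℕ) : Finset ℕ := (PP z).filter (fun p : ℕ => (y : ℝ) < (p : ℝ))

/-- the additive function -/
noncomputable def fadd (a : ℕ → ℝ) (y z m : ℕ) : ℝ :=
  ∑ p ∈ Pw y z, if p ∣ m then (1 - a p) else 0

theorem card_Pw_le : ((Pw y z).card : ℝ) ≤ z := by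
  have h1 : (Pw y z).card ≤ (Icc 1 z).card :=
    (Finset.card_filter_le _ _).trans (Finset.card_filter_le _ _)
  simp only [Nat.card_Icc, Nat.add_sub_cancel] at h1
  exact_mod_cast h1

include ha0 ha1 in
theorem sum_b_le : ∑ p ∈ Pw y z, (1 - a p) ≤ z := by
  refine le_trans ?_ (card_Pw_le y z)
  calc ∑ p ∈ Pw y z, (1 - a p) ≤ ∑ _p ∈ Pw y z, (1 : ℝ) :=
        Finset.sum_le_sum fun p _ => by linarith [ha0 p]
    _ = ((Pw y z).card : ℝ) := by simp

include ha0 ha1 in
theorem first_moment : (l : ℝ) * Dw a y z - z ≤ ∑ m ∈ Ioc X (X + l), fadd a y z m := by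
  unfold fadd
  rw [Finset.sum_comm]
  have h1 : ∀ p ∈ Pw y z, (1 - a p) * ((l : ℝ) / p - 1) ≤
      ∑ m ∈ Ioc X (X + l), (if p ∣ m then (1 - a p) else 0) := by
    intro p hp
    have hp1 : 1 ≤ p := (Finset.mem_Icc.mp (Finset.mem_filter.mp (Finset.mem_filter.mp hp).1).1).1
    rw [← Finset.sum_filter, Finset.sum_const, nsmul_eq_mul, mul_comm]
    exact mul_le_mul_of_nonneg_right (card_mult X l p hp1).2 (by linarith [ha1 p])
  refine le_trans ?_ (Finset.sum_le_sum h1)
  have h2 : ∑ p ∈ Pw y z, (1 - a p) * ((l : ℝ) / p - 1) =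
      l * Dw a y z - ∑ p ∈ Pw y z, (1 - a p) := by
    unfold Dw
    rw [Finset.mul_sum, ← Finset.sum_sub_distrib]
    exact Finset.sum_congr rfl fun p _ => by ring
  rw [h2]
  linarith [sum_b_le ha0 ha1 y z]

include ha0 ha1 in
theorem second_moment : ∑ m ∈ Ioc X (X + l), fadd a y z m ^ 2 ≤
    l * Dw a y z ^ 2 + (z : ℝ) ^ 2 + l * Dw a y z := by
  have hb : ∀ p, 0 ≤ 1 - a p := fun p => by linarith [ha1 p]
  have h1 : ∀ m, fadd a y z m ^ 2 = ∑ p ∈ Pw y z, ∑ q ∈ Pw y z,
      (if p ∣ m ∧ q ∣ m then (1 - a p) * (1 - a q) else 0) := by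
    intro m
    unfold fadd
    rw [sq, Finset.sum_mul_sum]
    refine Finset.sum_congr rfl fun p _ => Finset.sum_congr rfl fun q _ => ?_
    by_cases h : p ∣ m <;> by_cases h' : q ∣ m <;> simp [h, h']
  simp only [h1]
  rw [Finset.sum_comm]
  have h2 : ∀ p ∈ Pw y z, ∑ m ∈ Ioc X (X + l), ∑ q ∈ Pw y z,
      (if p ∣ m ∧ q ∣ m then (1 - a p) * (1 - a q) else 0) ≤
      ∑ q ∈ Pw y z, ((1 - a p) * (1 - a q) * ((l : ℝ) / (p * q) + 1) +
        if q = p then (1 - a p) * ((l : ℝ) / p) else 0) := by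
    intro p hp
    rw [Finset.sum_comm]
    refine Finset.sum_le_sum fun q hq => ?_
    have hpp := (Finset.mem_filter.mp (Finset.mem_filter.mp hp).1).2
    have hqp := (Finset.mem_filter.mp (Finset.mem_filter.mp hq).1).2
    rw [← Finset.sum_filter, Finset.sum_const, nsmul_eq_mul]
    have hbb : 0 ≤ (1 - a p) * (1 - a q) := mul_nonneg (hb p) (hb q)
    by_cases hpq : q = p
    · subst hpq
      rw [if_pos rfl]
      have e : (Ioc X (X + l)).filter (fun m => q ∣ m ∧ q ∣ m) =
          (Ioc X (X + l)).filter (fun m => q ∣ m) := by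
        apply Finset.filter_congr; intro m _; simp
      rw [e]
      have h3 := (card_mult X l q hqp.one_lt.le).1
      have hq0 : (0 : ℝ) < q := by exact_mod_cast hqp.pos
      have h4 : (1 - a q) * (1 - a q) ≤ 1 - a q := by
        have := ha0 q; have := ha1 q; nlinarith
      have h5 : 0 ≤ (l : ℝ) / q := by positivity
      have h6 : 0 ≤ (l : ℝ) / (q * q) := by positivity
      calc _ ≤ ((l : ℝ) / q + 1) * ((1 - a q) * (1 - a q)) :=
            mul_le_mul_of_nonneg_right h3 hbb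
        _ = (1 - a q) * (1 - a q) * 1 + (1 - a q) * (1 - a q) * ((l : ℝ) / q) := by ring
        _ ≤ (1 - a q) * (1 - a q) * ((l : ℝ) / (q * q) + 1) + (1 - a q) * ((l : ℝ) / q) := by
            refine add_le_add ?_ ?_
            · exact mul_le_mul_of_nonneg_left (by linarith) hbb
            · exact mul_le_mul_of_nonneg_right h4 h5
    · rw [if_neg hpq, add_zero]
      have hcop : Nat.Coprime p q := (Nat.coprime_primes hpp hqp).mpr (fun h => hpq h.symm)
      have e : (Ioc X (X + l)).filter (fun m => p ∣ m ∧ q ∣ m) =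
          (Ioc X (X + l)).filter (fun m => p * q ∣ m) := by
        apply Finset.filter_congr
        intro m _
        exact ⟨fun h => hcop.mul_dvd_of_dvd_of_dvd h.1 h.2,
          fun h => ⟨(Dvd.intro _ rfl).trans h, (Dvd.intro_left _ rfl).trans h⟩⟩
      rw [e, mul_comm]
      refine mul_le_mul_of_nonneg_left ?_ hbb
      have h3 := (card_mult X l (p * q) (Nat.mul_pos hpp.pos hqp.pos)).1
      push_cast at h3
      exact h3
  refine (Finset.sum_le_sum h2).trans ?_
  have h3 : ∀ p ∈ Pw y z, ∑ q ∈ Pw y z, ((1 - a p) * (1 - a q) * ((l : ℝ) / (p * q) + 1) +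
        if q = p then (1 - a p) * ((l : ℝ) / p) else 0) =
      l * ((1 - a p) / p) * Dw a y z + (1 - a p) * ∑ q ∈ Pw y z, (1 - a q) +
        l * ((1 - a p) / p) := by
    intro p hp
    have hpp := (Finset.mem_filter.mp (Finset.mem_filter.mp hp).1).2
    have hp0 : (0 : ℝ) < p := by exact_mod_cast hpp.pos
    rw [Finset.sum_add_distrib, Finset.sum_ite_eq' (Pw y z) p, if_pos hp]
    unfold Dw
    rw [Finset.mul_sum, Finset.mul_sum, ← Finset.sum_add_distrib]
    congr 1
    · refine Finset.sum_congr rfl fun q hq => ?_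
      have hqp := (Finset.mem_filter.mp (Finset.mem_filter.mp hq).1).2
      have hq0 : (0 : ℝ) < q := by exact_mod_cast hqp.pos
      field_simp
    · ring
  rw [Finset.sum_congr rfl h3, Finset.sum_add_distrib, Finset.sum_add_distrib, ← Finset.sum_mul,
    ← Finset.sum_mul, ← Finset.mul_sum]
  have h4 : ∑ p ∈ Pw y z, (1 - a p) / (p : ℝ) = Dw a y z := rfl
  rw [h4]
  have h5 := sum_b_le ha0 ha1 y z
  have h6 : 0 ≤ ∑ p ∈ Pw y z, (1 - a p) := Finset.sum_nonneg fun p _ => hb p
  nlinarith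

include ha0 ha1 in
theorem Dw_nonneg (y : ℝ) (N : ℕ) : 0 ≤ Dw a y N := by
  unfold Dw
  exact Finset.sum_nonneg fun p _ => div_nonneg (by linarith [ha1 p]) (Nat.cast_nonneg _)

include ha0 ha1 in
/-- few integers with small value of the additive function -/
theorem few_small (hz : z ^ 2 ≤ l) (hE : 1 ≤ Dw a y z) :
    (((Ioc X (X + l)).filter (fun m => fadd a y z m < Dw a y z / 2)).card : ℝ) ≤
      16 * l / Dw a y z := by
  set E := Dw a y z with hEdef
  have hz' : (z : ℝ) ^ 2 ≤ l := by exact_mod_cast hz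
  have hzl : (z : ℝ) ≤ l := by
    have : z ≤ l := (Nat.le_self_pow two_ne_zero z).trans hz
    exact_mod_cast this
  have h1 := first_moment ha0 ha1 y z X l
  have h2 := second_moment ha0 ha1 y z X l
  rw [← hEdef] at h1 h2
  have h3 : ∑ m ∈ Ioc X (X + l), (fadd a y z m - E) ^ 2 ≤ 4 * E * l := by
    have e : ∑ m ∈ Ioc X (X + l), (fadd a y z m - E) ^ 2 =
        ∑ m ∈ Ioc X (X + l), fadd a y z m ^ 2 - 2 * E * ∑ m ∈ Ioc X (X + l), fadd a y z m +
          l * E ^ 2 := by
      have e1 : ∀ m, (fadd a y z m - E) ^ 2 = fadd a y z m ^ 2 - 2 * E * fadd a y z m + E ^ 2 :=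
        fun m => by ring
      simp only [e1]
      rw [Finset.sum_add_distrib, Finset.sum_sub_distrib, ← Finset.mul_sum, Finset.sum_const,
        Nat.card_Ioc, Nat.add_sub_cancel_left, nsmul_eq_mul]
    rw [e]
    have h4 : 2 * E * (l * E - z) ≤ 2 * E * ∑ m ∈ Ioc X (X + l), fadd a y z m :=
      mul_le_mul_of_nonneg_left h1 (by linarith)
    have h5 : E * (z : ℝ) ≤ E * l := mul_le_mul_of_nonneg_left hzl (by linarith)
    have h6 : (l : ℝ) ≤ E * l := by
      have : (0 : ℝ) ≤ l := Nat.cast_nonneg _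
      nlinarith
    nlinarith
  have hE0 : 0 < E := by linarith
  rw [le_div_iff₀ hE0]
  have h4 : (((Ioc X (X + l)).filter (fun m => fadd a y z m < E / 2)).card : ℝ) * (E / 2) ^ 2 ≤
      ∑ m ∈ Ioc X (X + l), (fadd a y z m - E) ^ 2 := by
    calc (((Ioc X (X + l)).filter (fun m => fadd a y z m < E / 2)).card : ℝ) * (E / 2) ^ 2
        = ∑ _m ∈ (Ioc X (X + l)).filter (fun m => fadd a y z m < E / 2), (E / 2) ^ 2 := by
          rw [Finset.sum_const, nsmul_eq_mul]
      _ ≤ ∑ m ∈ (Ioc X (X + l)).filter (fun m => fadd a y z m < E / 2),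
            (fadd a y z m - E) ^ 2 := by
          refine Finset.sum_le_sum fun m hm => ?_
          have h5 := (Finset.mem_filter.mp hm).2
          nlinarith
      _ ≤ _ := Finset.sum_le_sum_of_subset_of_nonneg (Finset.filter_subset _ _)
          fun _ _ _ => sq_nonneg _
  have h5 : (((Ioc X (X + l)).filter (fun m => fadd a y z m < E / 2)).card : ℝ) * E ^ 2 ≤
      16 * E * l := by nlinarith
  have h6 : ((((Ioc X (X + l)).filter (fun m => fadd a y z m < E / 2)).card : ℝ) * E) * E ≤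
      (16 * l) * E := by
    calc _ = (((Ioc X (X + l)).filter (fun m => fadd a y z m < E / 2)).card : ℝ) * E ^ 2 := by ring
      _ ≤ _ := by linarith
  exact le_of_mul_le_mul_right h6 hE0

theorem few_square (hy : 1 ≤ y) :
    (((Ioc X (X + l)).filter (fun m => ∃ p ∈ Pw y z, p ^ 2 ∣ m)).card : ℝ) ≤
      (l : ℝ) / y + z := by
  classical
  have h1 : (Ioc X (X + l)).filter (fun m => ∃ p ∈ Pw y z, p ^ 2 ∣ m) ⊆
      (Pw y z).biUnion (fun p => (Ioc X (X + l)).filter (fun m => p ^ 2 ∣ m)) := by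
    intro m hm
    rw [Finset.mem_filter] at hm
    obtain ⟨hm1, p, hp, hpm⟩ := hm
    rw [Finset.mem_biUnion]
    exact ⟨p, hp, Finset.mem_filter.mpr ⟨hm1, hpm⟩⟩
  calc (((Ioc X (X + l)).filter (fun m => ∃ p ∈ Pw y z, p ^ 2 ∣ m)).card : ℝ)
      ≤ (((Pw y z).biUnion (fun p => (Ioc X (X + l)).filter (fun m => p ^ 2 ∣ m))).card : ℝ) := by
        exact_mod_cast Finset.card_le_card h1
    _ ≤ ∑ p ∈ Pw y z, (((Ioc X (X + l)).filter (fun m => p ^ 2 ∣ m)).card : ℝ) := by
        exact_mod_cast Finset.card_biUnion_le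
    _ ≤ ∑ p ∈ Pw y z, ((l : ℝ) * (1 / (p : ℝ) ^ 2) + 1) := by
        refine Finset.sum_le_sum fun p hp => ?_
        have hpp := (Finset.mem_filter.mp (Finset.mem_filter.mp hp).1).2
        have h2 := (card_mult X l (p ^ 2) (Nat.pow_pos hpp.pos)).1
        push_cast at h2
        calc _ ≤ (l : ℝ) / (p : ℝ) ^ 2 + 1 := h2
          _ = _ := by ring
    _ = (l : ℝ) * ∑ p ∈ Pw y z, 1 / (p : ℝ) ^ 2 + (Pw y z).card := by
        rw [Finset.sum_add_distrib, ← Finset.mul_sum]; simp
    _ ≤ (l : ℝ) * (1 / y) + z := by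
        refine add_le_add (mul_le_mul_of_nonneg_left ?_ (Nat.cast_nonneg _)) (card_Pw_le y z)
        exact sum_inv_sq_le y hy (Pw y z) fun p hp => by
          exact_mod_cast (Finset.mem_filter.mp hp).2
    _ = (l : ℝ) / y + z := by ring

include ha0 ha1 in
theorem GG_le_exp {m : ℕ} (hm : m ≠ 0) (hsq : ¬ ∃ p ∈ Pw y z, p ^ 2 ∣ m) :
    GG a y m ≤ Real.exp (-fadd a y z m) := by
  unfold GG fadd
  rw [← Finset.sum_filter]
  have hsub : (Pw y z).filter (fun p => p ∣ m) ⊆
      m.primeFactors.filter (fun p => y < p ∧ ¬ p ^ 2 ∣ m) := by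
    intro p hp
    obtain ⟨hp1, hp2⟩ := Finset.mem_filter.mp hp
    have hpp := (Finset.mem_filter.mp (Finset.mem_filter.mp hp1).1).2
    have hyp := (Finset.mem_filter.mp hp1).2
    rw [Finset.mem_filter, Nat.mem_primeFactors]
    exact ⟨⟨hpp, hp2, hm⟩, by exact_mod_cast hyp, fun h => hsq ⟨p, hp1, h⟩⟩
  rw [← Finset.prod_sdiff hsub, ← Finset.sum_neg_distrib, Real.exp_sum]
  refine (mul_le_of_le_one_left (Finset.prod_nonneg fun p _ => ha0 p)
    (Finset.prod_le_one (fun p _ => ha0 p) fun p _ => ha1 p)).trans ?_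
  refine Finset.prod_le_prod (fun p _ => ha0 p) fun p _ => ?_
  have := Real.add_one_le_exp (-(1 - a p))
  linarith

include ha0 ha1 in
/-- **The mean of `GG` in a short interval.** -/
theorem short_mean (hy : 1 ≤ y) (hz : z ^ 2 ≤ l) (hE : 1 ≤ Dw a y z) :
    ∑ m ∈ Ioc X (X + l), GG a y m ≤
      l * (Real.exp (-(Dw a y z / 2)) + 16 / Dw a y z + 1 / y) + z := by
  classical
  set E := Dw a y z with hEdef
  have hG := mult01_GG ha0 ha1 y
  have h1 : ∀ m ∈ Ioc X (X + l), GG a y m ≤ Real.exp (-(E / 2)) +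
      ((if fadd a y z m < E / 2 then (1 : ℝ) else 0) +
        if ∃ p ∈ Pw y z, p ^ 2 ∣ m then (1 : ℝ) else 0) := by
    intro m hm
    have hm0 : m ≠ 0 := by rw [Finset.mem_Ioc] at hm; omega
    have hexp : 0 < Real.exp (-(E / 2)) := Real.exp_pos _
    by_cases hsq : ∃ p ∈ Pw y z, p ^ 2 ∣ m
    · rw [if_pos hsq]
      have := hG.le_one m
      split_ifs <;> linarith
    · rw [if_neg hsq]
      by_cases hf : fadd a y z m < E / 2
      · rw [if_pos hf]
        have := hG.le_one m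
        linarith
      · rw [if_neg hf]
        have h2 := GG_le_exp ha0 ha1 y z hm0 hsq
        have h3 : Real.exp (-fadd a y z m) ≤ Real.exp (-(E / 2)) := by
          rw [Real.exp_le_exp]; linarith [not_lt.mp hf]
        linarith
  refine (Finset.sum_le_sum h1).trans ?_
  rw [Finset.sum_add_distrib, Finset.sum_add_distrib, Finset.sum_const, Nat.card_Ioc,
    Nat.add_sub_cancel_left, nsmul_eq_mul, ← Finset.sum_filter, ← Finset.sum_filter]
  have h2 := few_small ha0 ha1 y z X l hz hE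
  have h3 := few_square y z X l hy
  simp only [Finset.sum_const, nsmul_eq_mul, mul_one]
  calc (l : ℝ) * Real.exp (-(E / 2)) +
        ((((Ioc X (X + l)).filter (fun m => fadd a y z m < E / 2)).card : ℝ) +
        (((Ioc X (X + l)).filter (fun m => ∃ p ∈ Pw y z, p ^ 2 ∣ m)).card : ℝ))
      ≤ (l : ℝ) * Real.exp (-(E / 2)) + (16 * l / E + ((l : ℝ) / y + z)) := by linarith
    _ = _ := by ring

end

end Pool.Agent.W5h23.CP
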