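import Pool.Agent.W5h23.CP.CoreU
import Pool.Agent.W5h23.CP.TK
import Pool.Agent.W5h23.CP.AS

/-!
# Correlations of random multiplicative functions in short intervals
-/

set_option autoImplicit false
set_option linter.unusedSectionVars false

open MeasureTheory ProbabilityTheory Function Finset Filter Topology

namespace Pool.Agent.W5h23.CP

theorem card_primeFactors_le_log {m M : ℕ} (hm : m ≠ 0) (hM : m ≤ M) :
    m.primeFactors.card ≤ Nat.log 2 M := by
  have h1 : 2 ^ m.primeFactors.card ≤ ∏ p ∈ m.primeFactors, p := by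
    rw [← Finset.prod_const]
    exact Finset.prod_le_prod' fun p hp => (Nat.prime_of_mem_primeFactors hp).two_le
  have h2 : ∏ p ∈ m.primeFactors, p ≤ m :=
    Nat.le_of_dvd (Nat.pos_of_ne_zero hm) (Nat.prod_primeFactors_dvd m)
  exact Nat.le_log_of_pow_le (by norm_num) (h1.trans (h2.trans hM))

/-- shifting an interval -/
theorem card_shift (x l s p : ℕ) :
    ((Ioc x (x + l)).filter (fun n => p ∣ n + s)).card =
      ((Ioc (x + s) (x + s + l)).filter (fun m => p ∣ m)).card := by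
  refine Finset.card_bij' (fun n _ => n + s) (fun m _ => m - s) ?_ ?_ ?_ ?_
  · intro n hn
    simp only [Finset.mem_filter, Finset.mem_Ioc] at hn ⊢
    exact ⟨⟨by omega, by omega⟩, hn.2⟩
  · intro m hm
    simp only [Finset.mem_filter, Finset.mem_Ioc] at hm ⊢
    refine ⟨⟨by omega, by omega⟩, ?_⟩
    rw [Nat.sub_add_cancel (by omega)]
    exact hm.2
  · intro n _; exact Nat.add_sub_cancel n s
  · intro m hm
    simp only [Finset.mem_filter, Finset.mem_Ioc] at hm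
    exact Nat.sub_add_cancel (by omega)

theorem sum_shift (x l s : ℕ) (G : ℕ → ℝ) :
    ∑ n ∈ Ioc x (x + l), G (n + s) = ∑ m ∈ Ioc (x + s) (x + s + l), G m := by
  refine Finset.sum_nbij' (fun n => n + s) (fun m => m - s) ?_ ?_ ?_ ?_ ?_
  · intro n hn
    rw [Finset.mem_Ioc] at hn ⊢
    omega
  · intro m hm
    rw [Finset.mem_Ioc] at hm ⊢
    omega
  · intro n _; exact Nat.add_sub_cancel n s
  · intro m hm
    rw [Finset.mem_Ioc] at hm
    exact Nat.sub_add_cancel (by omega)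
  · intro n _; rfl

section

variable {k : ℕ} {h : Fin k → ℕ} {H : ℕ} (hH : ∀ i, h i ≤ H) (x l p : ℕ)

/-- the number of `n` in the interval such that `p` divides one of the `n + h i` -/
noncomputable def Dn (h : Fin k → ℕ) (x l p : ℕ) : ℕ :=
  ((Ioc x (x + l)).filter (fun n => ∃ i, p ∣ n + h i)).card

theorem Dn_le_sum : (Dn h x l p : ℝ) ≤
    ∑ i : Fin k, (((Ioc x (x + l)).filter (fun n => p ∣ n + h i)).card : ℝ) := by
  classical
  unfold Dn
  have h1 : (Ioc x (x + l)).filter (fun n => ∃ i, p ∣ n + h i) ⊆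
      (Finset.univ : Finset (Fin k)).biUnion
        (fun i => (Ioc x (x + l)).filter (fun n => p ∣ n + h i)) := by
    intro n hn
    rw [Finset.mem_filter] at hn
    obtain ⟨hn1, i, hi⟩ := hn
    rw [Finset.mem_biUnion]
    exact ⟨i, Finset.mem_univ i, Finset.mem_filter.mpr ⟨hn1, hi⟩⟩
  calc (((Ioc x (x + l)).filter (fun n => ∃ i, p ∣ n + h i)).card : ℝ)
      ≤ (((Finset.univ : Finset (Fin k)).biUnion
        (fun i => (Ioc x (x + l)).filter (fun n => p ∣ n + h i))).card : ℝ) := by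
          exact_mod_cast Finset.card_le_card h1
    _ ≤ _ := by exact_mod_cast Finset.card_biUnion_le

theorem Dn_le (hp : 1 ≤ p) : (Dn h x l p : ℝ) ≤ k * ((l : ℝ) / p + 1) := by
  refine (Dn_le_sum x l p).trans ?_
  calc ∑ i : Fin k, (((Ioc x (x + l)).filter (fun n => p ∣ n + h i)).card : ℝ)
      ≤ ∑ _i : Fin k, ((l : ℝ) / p + 1) := by
        refine Finset.sum_le_sum fun i _ => ?_
        rw [card_shift]
        exact (card_mult (x + h i) l p hp).1
    _ = k * ((l : ℝ) / p + 1) := by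
        rw [Finset.sum_const, Finset.card_univ, Fintype.card_fin, nsmul_eq_mul]

include hH in
theorem sum_Dn_le : ∑ p ∈ PP (x + l + H), (Dn h x l p : ℝ) ≤
    k * (l * Nat.log 2 (x + l + H)) := by
  calc ∑ p ∈ PP (x + l + H), (Dn h x l p : ℝ)
      ≤ ∑ p ∈ PP (x + l + H), ∑ i : Fin k,
          (((Ioc x (x + l)).filter (fun n => p ∣ n + h i)).card : ℝ) :=
        Finset.sum_le_sum fun p _ => Dn_le_sum x l p
    _ = ∑ i : Fin k, ∑ n ∈ Ioc x (x + l),
          (((PP (x + l + H)).filter (fun p => p ∣ n + h i)).card : ℝ) := by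
        rw [Finset.sum_comm]
        refine Finset.sum_congr rfl fun i _ => ?_
        have e : ∀ p, (((Ioc x (x + l)).filter (fun n => p ∣ n + h i)).card : ℝ) =
            ∑ n ∈ Ioc x (x + l), if p ∣ n + h i then (1 : ℝ) else 0 := by
          intro p
          rw [← Finset.sum_filter]; simp
        have e' : ∀ n, (((PP (x + l + H)).filter (fun p => p ∣ n + h i)).card : ℝ) =
            ∑ p ∈ PP (x + l + H), if p ∣ n + h i then (1 : ℝ) else 0 := by
          intro n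
          rw [← Finset.sum_filter]; simp
        simp only [e, e']
        exact Finset.sum_comm
    _ ≤ ∑ _i : Fin k, ∑ _n ∈ Ioc x (x + l), (Nat.log 2 (x + l + H) : ℝ) := by
        refine Finset.sum_le_sum fun i _ => Finset.sum_le_sum fun n hn => ?_
        rw [Finset.mem_Ioc] at hn
        have hi := hH i
        have h1 : (PP (x + l + H)).filter (fun p => p ∣ n + h i) ⊆ (n + h i).primeFactors := by
          intro p hp
          rw [Finset.mem_filter] at hp
          rw [Nat.mem_primeFactors]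
          exact ⟨(Finset.mem_filter.mp hp.1).2, hp.2, by omega⟩
        have h2 := (Finset.card_le_card h1).trans
          (card_primeFactors_le_log (m := n + h i) (M := x + l + H) (by omega) (by omega))
        exact_mod_cast h2
    _ = k * (l * Nat.log 2 (x + l + H)) := by simp

include hH in
theorem var_short {g : ℕ → ℂ} (hg : ∀ n, ‖g n‖ ≤ 1) (y : ℕ) (hy : 1 ≤ y)
    (hlog : y * Nat.log 2 (x + l + H) ≤ 2 * l) :
    ∑ p ∈ (PP (x + l + H)).filter (fun p : ℕ => y < p),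
      (2 * ∑ n ∈ (Ioc x (x + l)).filter (fun n => ∃ i, p ∣ n + h i), ‖g n‖) ^ 2 ≤
      32 * (k : ℝ) ^ 2 * (l : ℝ) ^ 2 / y := by
  have hy0 : (0 : ℝ) < y := by exact_mod_cast hy
  have h1 : ∀ p ∈ (PP (x + l + H)).filter (fun p : ℕ => y < p),
      (2 * ∑ n ∈ (Ioc x (x + l)).filter (fun n => ∃ i, p ∣ n + h i), ‖g n‖) ^ 2 ≤
      16 * (k : ℝ) ^ 2 * (l : ℝ) ^ 2 * (1 / (p : ℝ) ^ 2) + 8 * k * (Dn h x l p : ℝ) := by
    intro p hp
    have hpp := (Finset.mem_filter.mp (Finset.mem_filter.mp hp).1).2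
    have hp0 : (0 : ℝ) < p := by exact_mod_cast hpp.pos
    have h2 : ∑ n ∈ (Ioc x (x + l)).filter (fun n => ∃ i, p ∣ n + h i), ‖g n‖ ≤
        (Dn h x l p : ℝ) := by
      refine (Finset.sum_le_sum fun n _ => hg n).trans (le_of_eq ?_)
      rw [Finset.sum_const, nsmul_eq_mul, mul_one]
      rfl
    have h3 : 0 ≤ ∑ n ∈ (Ioc x (x + l)).filter (fun n => ∃ i, p ∣ n + h i), ‖g n‖ :=
      Finset.sum_nonneg fun _ _ => norm_nonneg _
    have h4 := Dn_le (h := h) x l p hpp.one_lt.le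
    have h5 : (0 : ℝ) ≤ (Dn h x l p : ℝ) := Nat.cast_nonneg _
    have hk0 : (0 : ℝ) ≤ k := Nat.cast_nonneg _
    have hl0 : (0 : ℝ) ≤ l := Nat.cast_nonneg _
    have h6 : (2 * ∑ n ∈ (Ioc x (x + l)).filter (fun n => ∃ i, p ∣ n + h i), ‖g n‖) ^ 2 ≤
        4 * (Dn h x l p : ℝ) ^ 2 := by
      calc _ ≤ (2 * (Dn h x l p : ℝ)) ^ 2 := pow_le_pow_left₀ (by positivity) (by linarith) 2
        _ = _ := by ring
    refine h6.trans ?_
    rcases le_total (p : ℝ) l with hpl | hpl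
    · -- `p ≤ l`
      have h7 : (1 : ℝ) ≤ (l : ℝ) / p := by rw [le_div_iff₀ hp0]; linarith
      have h8 : (Dn h x l p : ℝ) ≤ 2 * (k * ((l : ℝ) / p)) := by
        refine h4.trans ?_
        nlinarith
      have h9 : 4 * (Dn h x l p : ℝ) ^ 2 ≤ 4 * (2 * (k * ((l : ℝ) / p))) ^ 2 := by
        have := pow_le_pow_left₀ h5 h8 2
        linarith
      have h10 : 4 * (2 * (k * ((l : ℝ) / p))) ^ 2 =
          16 * (k : ℝ) ^ 2 * (l : ℝ) ^ 2 * (1 / (p : ℝ) ^ 2) := by
        field_simp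
        ring
      rw [h10] at h9
      have h11 : 0 ≤ 8 * k * (Dn h x l p : ℝ) := by positivity
      linarith
    · have h7 : (l : ℝ) / p ≤ 1 := by rw [div_le_one hp0]; exact hpl
      have h8 : (Dn h x l p : ℝ) ≤ 2 * k := by
        refine h4.trans ?_
        nlinarith
      have h9 : 4 * (Dn h x l p : ℝ) ^ 2 ≤ 8 * k * (Dn h x l p : ℝ) := by nlinarith
      have h11 : 0 ≤ 16 * (k : ℝ) ^ 2 * (l : ℝ) ^ 2 * (1 / (p : ℝ) ^ 2) := by positivity
      linarith
  refine (Finset.sum_le_sum h1).trans ?_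
  rw [Finset.sum_add_distrib, ← Finset.mul_sum, ← Finset.mul_sum]
  have h2 := sum_inv_sq_le y hy ((PP (x + l + H)).filter (fun p : ℕ => y < p))
    (fun p hp => (Finset.mem_filter.mp hp).2)
  have h3 : ∑ p ∈ (PP (x + l + H)).filter (fun p : ℕ => y < p), (Dn h x l p : ℝ) ≤
      k * (l * Nat.log 2 (x + l + H)) :=
    (Finset.sum_le_sum_of_subset_of_nonneg (Finset.filter_subset _ _)
      fun _ _ _ => Nat.cast_nonneg _).trans (sum_Dn_le hH x l)
  have h4 : (y : ℝ) * Nat.log 2 (x + l + H) ≤ 2 * l := by exact_mod_cast hlog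
  have hk0 : (0 : ℝ) ≤ k := Nat.cast_nonneg _
  have hl0 : (0 : ℝ) ≤ l := Nat.cast_nonneg _
  have h5 : 8 * (k : ℝ) * (k * (l * Nat.log 2 (x + l + H))) ≤
      16 * (k : ℝ) ^ 2 * (l : ℝ) ^ 2 / y := by
    rw [le_div_iff₀ hy0]
    calc 8 * (k : ℝ) * (k * (l * Nat.log 2 (x + l + H))) * y =
          8 * (k : ℝ) ^ 2 * l * (y * Nat.log 2 (x + l + H)) := by ring
      _ ≤ 8 * (k : ℝ) ^ 2 * l * (2 * l) := mul_le_mul_of_nonneg_left h4 (by positivity)
      _ = 16 * (k : ℝ) ^ 2 * (l : ℝ) ^ 2 := by ring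
  calc 16 * (k : ℝ) ^ 2 * (l : ℝ) ^ 2 *
        ∑ p ∈ (PP (x + l + H)).filter (fun p : ℕ => y < p), 1 / (p : ℝ) ^ 2 +
        8 * k * ∑ p ∈ (PP (x + l + H)).filter (fun p : ℕ => y < p), (Dn h x l p : ℝ)
      ≤ 16 * (k : ℝ) ^ 2 * (l : ℝ) ^ 2 * (1 / y) +
        8 * k * (k * (l * Nat.log 2 (x + l + H))) := by
        refine add_le_add (mul_le_mul_of_nonneg_left h2 (by positivity)) ?_
        exact mul_le_mul_of_nonneg_left h3 (by positivity)
    _ ≤ 16 * (k : ℝ) ^ 2 * (l : ℝ) ^ 2 * (1 / y) + 16 * (k : ℝ) ^ 2 * (l : ℝ) ^ 2 / y := by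
        linarith
    _ = _ := by ring

end

section

variable {Ω : Type} [MeasurableSpace Ω] {P : Measure Ω} [IsProbabilityMeasure P] {k : ℕ}
  {F : Fin k → ℕ → Ω → ℂ}

/-- **One short interval.** -/
theorem one_interval (hF : RandMult P F) {h : Fin k → ℕ} (hinj : Injective h) {H : ℕ}
    (hH : ∀ i, h i ≤ H) (i0 : Fin k) {g : ℕ → ℂ} (hg : ∀ n, ‖g n‖ ≤ 1) (x l y z : ℕ)
    (hl : 1 ≤ l) (hy : 1 ≤ y) (hHy : H ≤ y) (hz : z ^ 2 ≤ l)
    (hlog : y * Nat.log 2 (x + l + H) ≤ 2 * l) (hE : 1 ≤ Dw (mn P F i0) y z) {ε : ℝ}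
    (hε : 0 ≤ ε) :
    P.real {ω | l * (Real.exp (-(Dw (mn P F i0) y z / 2)) + 16 / Dw (mn P F i0) y z + 1 / y) + z +
      ε * l ≤ ‖∑ n ∈ Ioc x (x + l), g n * ∏ i, F i (n + h i) ω‖} ≤
      4 * Real.exp (-(ε ^ 2 * y / (256 * k ^ 2))) := by
  have hk : 0 < k := lt_of_le_of_lt (Nat.zero_le _) i0.2
  have hk0 : (0 : ℝ) < k := by exact_mod_cast hk
  have hl0 : (0 : ℝ) < l := by exact_mod_cast hl
  have hy0 : (0 : ℝ) < y := by exact_mod_cast hy
  have ha0 := mn_nonneg (P := P) (F := F) i0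
  have ha1 := mn_le_one hF i0
  have hV : (0 : ℝ) < 32 * (k : ℝ) ^ 2 * (l : ℝ) ^ 2 / y := by positivity
  have key := coreU hF (fun i n => n + h i) (Ioc x (x + l)) (M := x + l + H)
    (fun n hn i => by
      rw [Finset.mem_Ioc] at hn
      have := hH i
      exact ⟨by omega, by omega⟩) i0 g y
    (fun n hn p hp hyp hd i hi hd' => by
      rw [Finset.mem_Ioc] at hn
      have h5 : h i ≠ h i0 := fun h6 => hi (hinj h6)
      have h7 := hH i
      have h8 := hH i0
      rcases Nat.lt_or_gt_of_ne h5 with h9 | h9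
      · have h10 : p ∣ (n + h i0) - (n + h i) := Nat.dvd_sub hd hd'
        have := Nat.le_of_dvd (by omega) h10
        omega
      · have h10 : p ∣ (n + h i) - (n + h i0) := Nat.dvd_sub hd' hd
        have := Nat.le_of_dvd (by omega) h10
        omega) hV (t := ε * l / 2) (by positivity)
    (var_short hH x l hg y hy hlog)
  have hM : ∑ n ∈ Ioc x (x + l), ‖g n‖ * GG (mn P F i0) y (n + h i0) ≤
      l * (Real.exp (-(Dw (mn P F i0) y z / 2)) + 16 / Dw (mn P F i0) y z + 1 / y) + z := by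
    refine le_trans ?_ (short_mean ha0 ha1 y z (x + h i0) l hy hz hE)
    rw [← sum_shift x l (h i0) (fun m => GG (mn P F i0) y m)]
    exact Finset.sum_le_sum fun n _ =>
      mul_le_of_le_one_left ((mult01_GG ha0 ha1 y).nonneg _) (hg n)
  refine le_trans (measureReal_mono ?_) (key.trans ?_)
  · intro ω hω
    simp only [Set.mem_setOf_eq] at hω ⊢
    have e : (∑ n ∈ Ioc x (x + l), ‖g n‖ * GG (fun p => ‖∫ ω, F i0 p ω ∂P‖) y (n + h i0)) =
        ∑ n ∈ Ioc x (x + l), ‖g n‖ * GG (mn P F i0) y (n + h i0) := rfl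
    rw [e]
    linarith
  · refine mul_le_mul_of_nonneg_left (Real.exp_le_exp.mpr (le_of_eq ?_)) (by norm_num)
    field_simp
    ring

/-- all short intervals at the scale `N`, up to `ε` -/
theorem short_eps (hF : RandMult P F) (i0 : Fin k)
    (hdiv : ∀ η : ℝ, 0 < η → Tendsto (fun N : ℕ => Dw (mn P F i0) (Real.log N) ⌊(N : ℝ) ^ η⌋₊)
      atTop atTop) {η : ℝ} (hη : 0 < η) (A : ℕ)
    {𝒢 : ℕ → Finset (ℕ → ℂ)} (hcard : ∀ᶠ N : ℕ in atTop, (𝒢 N).card ≤ N ^ A)
    (hg : ∀ N, ∀ g ∈ 𝒢 N, ∀ n, ‖g n‖ ≤ 1) {ε : ℝ} (hε : 0 < ε) :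
    ∀ᵐ ω ∂P, ∀ᶠ N : ℕ in atTop, ∀ x l : ℕ, x ≤ N → (N : ℝ) ^ η ≤ l → l ≤ N →
      ∀ h : Fin k → ℕ, Injective h → (∀ i, (h i : ℝ) ≤ Real.log N) → ∀ g ∈ 𝒢 N,
      ‖∑ n ∈ Ioc x (x + l), g n * ∏ i, F i (n + h i) ω‖ < 2 * ε * l := by
  classical
  have hk : 0 < k := lt_of_le_of_lt (Nat.zero_le _) i0.2
  have hk0 : (0 : ℝ) < k := by exact_mod_cast hk
  set K : ℝ := 256 * k ^ 2 * (A + k + 4) / ε ^ 2 + 1 with hK
  have hK1 : 1 ≤ K := by
    rw [hK]
    have : 0 < 256 * (k : ℝ) ^ 2 * (A + k + 4) / ε ^ 2 := by positivity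
    linarith
  have hK0 : 0 < K := by linarith
  set y : ℕ → ℕ := fun N => ⌈K * Real.log N⌉₊ with hy
  set z : ℕ → ℕ := fun N => ⌊(N : ℝ) ^ (η / 2)⌋₊ with hz
  set E : ℕ → ℝ := fun N => Dw (mn P F i0) (y N : ℕ) (z N) with hE
  -- growth of the quantities
  have hlogt : Tendsto (fun N : ℕ => Real.log (N : ℝ)) atTop atTop :=
    Real.tendsto_log_atTop.comp tendsto_natCast_atTop_atTop
  have hyle : ∀ᶠ N : ℕ in atTop, ((y N : ℕ) : ℝ) ≤ (K + 1) * Real.log N := by
    filter_upwards [hlogt.eventually_ge_atTop 1] with N hN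
    have h4 := (Nat.ceil_lt_add_one (mul_nonneg hK0.le (by linarith : 0 ≤ Real.log (N : ℝ)))).le
    simp only [hy]
    nlinarith
  have hEt : Tendsto E atTop atTop := by
    have h1 : ∀ᶠ N : ℕ in atTop, Dw (mn P F i0) (Real.log N) (z N) - (K + 1) ≤ E N := by
      filter_upwards [hyle, hlogt.eventually_ge_atTop 1] with N hN hN1
      have := Dw_window (a := mn P F i0) (mn_nonneg i0) (mn_le_one hF i0)
        (by linarith : 0 < Real.log (N : ℝ)) (by linarith : 0 ≤ K + 1) hN (z N)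
      simp only [hE]
      linarith
    refine tendsto_atTop_mono' atTop h1 ?_
    exact tendsto_atTop_add_const_right _ (-(K + 1)) (hdiv (η / 2) (by linarith))
  have hyt : Tendsto (fun N : ℕ => ((y N : ℕ) : ℝ)) atTop atTop := by
    refine tendsto_atTop_mono (fun N => Nat.le_ceil _) ?_
    exact hlogt.const_mul_atTop hK0
  have hpow : ∀ θ : ℝ, 0 < θ → Tendsto (fun N : ℕ => (N : ℝ) ^ θ) atTop atTop := fun θ hθ =>
    (tendsto_rpow_atTop hθ).comp tendsto_natCast_atTop_atTop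
  have hzt : Tendsto (fun N : ℕ => ((z N : ℕ) : ℝ)) atTop atTop :=
    tendsto_natCast_atTop_atTop.comp (tendsto_nat_floor_atTop.comp (hpow (η / 2) (by linarith)))
  -- the mean is small
  have hmean : ∀ᶠ N : ℕ in atTop, Real.exp (-(E N / 2)) + 16 / E N + 1 / ((y N : ℕ) : ℝ) +
      1 / ((z N : ℕ) : ℝ) < ε := by
    have h1 : Tendsto (fun N => Real.exp (-(E N / 2))) atTop (𝓝 0) := by
      refine Real.tendsto_exp_atBot.comp (tendsto_neg_atTop_atBot.comp ?_)
      exact hEt.atTop_div_const (by norm_num)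
    have h2 : Tendsto (fun N => 16 / E N) atTop (𝓝 0) := hEt.const_div_atTop 16
    have h3 : Tendsto (fun N => 1 / ((y N : ℕ) : ℝ)) atTop (𝓝 0) := hyt.const_div_atTop 1
    have h4 : Tendsto (fun N => 1 / ((z N : ℕ) : ℝ)) atTop (𝓝 0) := hzt.const_div_atTop 1
    have h5 := ((h1.add h2).add h3).add h4
    simp only [add_zero] at h5
    exact h5.eventually (gt_mem_nhds hε)
  -- the logarithmic condition
  have hlogc : ∀ᶠ N : ℕ in atTop, ((K + 1) * Real.log N) * (4 * Real.log N) ≤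
      2 * (N : ℝ) ^ η := by
    have h1 := (isLittleO_log_rpow_atTop (r := η / 2) (by linarith)).comp_tendsto
      tendsto_natCast_atTop_atTop
    have h2 := h1.def (c := 1 / (2 * (K + 1))) (by positivity)
    filter_upwards [h2, hlogt.eventually_ge_atTop 1] with N hN hN1
    simp only [Function.comp_apply, Real.norm_eq_abs] at hN
    rw [abs_of_nonneg (by linarith), abs_of_nonneg (by positivity)] at hN
    have h3 : ((N : ℝ) ^ (η / 2)) * ((N : ℝ) ^ (η / 2)) = (N : ℝ) ^ η := by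
      rw [← Real.rpow_add_of_nonneg (Nat.cast_nonneg _) (by linarith) (by linarith)]
      congr 1; ring
    have h4 : Real.log N * Real.log N ≤
        (1 / (2 * (K + 1)) * (N : ℝ) ^ (η / 2)) * (1 / (2 * (K + 1)) * (N : ℝ) ^ (η / 2)) :=
      mul_self_le_mul_self (by linarith) hN
    have h5 : (1 / (2 * (K + 1)) * (N : ℝ) ^ (η / 2)) * (1 / (2 * (K + 1)) * (N : ℝ) ^ (η / 2)) =
        (1 / (4 * (K + 1) ^ 2)) * (N : ℝ) ^ η := by
      rw [← h3]; field_simp; ring
    rw [h5] at h4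
    have h6 : 4 * (K + 1) * (Real.log N * Real.log N) ≤
        4 * (K + 1) * ((1 / (4 * (K + 1) ^ 2)) * (N : ℝ) ^ η) :=
      mul_le_mul_of_nonneg_left h4 (by positivity)
    have h7 : 4 * (K + 1) * ((1 / (4 * (K + 1) ^ 2)) * (N : ℝ) ^ η) =
        (1 / (K + 1)) * (N : ℝ) ^ η := by
      field_simp
    rw [h7] at h6
    have h8 : (1 / (K + 1)) * (N : ℝ) ^ η ≤ 2 * (N : ℝ) ^ η := by
      refine mul_le_mul_of_nonneg_right ?_ (by positivity)
      rw [div_le_iff₀ (by linarith)]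
      linarith
    calc _ = 4 * (K + 1) * (Real.log N * Real.log N) := by ring
      _ ≤ _ := h6.trans h8
  -- the bad events
  set B : ℕ → ℕ × ℕ × (Fin k → ℕ) × (ℕ → ℂ) → Set Ω := fun N q =>
    {ω | q.2.1 * (Real.exp (-(E N / 2)) + 16 / E N + 1 / ((y N : ℕ) : ℝ)) + ((z N : ℕ) : ℝ) +
      ε * q.2.1 ≤ ‖∑ n ∈ Ioc q.1 (q.1 + q.2.1), q.2.2.2 n * ∏ i, F i (n + q.2.2.1 i) ω‖} with hB
  set 𝓗 : ℕ → Finset (Fin k → ℕ) := fun N =>
    (Fintype.piFinset fun _ : Fin k => Finset.range (⌊Real.log N⌋₊ + 1)).filter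
    (fun h => Injective h) with h𝓗
  set S : ℕ → Finset (ℕ × ℕ × (Fin k → ℕ) × (ℕ → ℂ)) := fun N =>
    (Finset.range (N + 1)) ×ˢ (((Finset.range (N + 1)).filter fun l : ℕ => (N : ℝ) ^ η ≤ l) ×ˢ
      (𝓗 N ×ˢ 𝒢 N)) with hS
  set Bad : ℕ → Set Ω := fun N => ⋃ q ∈ S N, B N q with hBad
  have hevB : ∀ᶠ N : ℕ in atTop, P.real (Bad N) ≤ 16 * (1 / (N : ℝ) ^ 2) := by
    filter_upwards [hcard, hyle, hEt.eventually_ge_atTop 1, hlogc,
      hlogt.eventually_ge_atTop (Real.log 3 + 1), eventually_ge_atTop 3] with N hcN hyN hEN hlN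
      hlog3 hN3
    have hN3' : (3 : ℝ) ≤ N := by exact_mod_cast hN3
    have hN0 : (0 : ℝ) < N := by linarith
    have hl3 : 0 < Real.log 3 := Real.log_pos (by norm_num)
    have hlog1 : 1 ≤ Real.log N := by linarith
    have hfl : ((⌊Real.log (N : ℝ)⌋₊ : ℕ) : ℝ) ≤ Real.log N := Nat.floor_le (by linarith)
    have hyge : K * Real.log N ≤ ((y N : ℕ) : ℝ) := Nat.le_ceil _
    have hylog : Real.log N ≤ ((y N : ℕ) : ℝ) := by nlinarith
    have hlogN : Real.log N ≤ N - 1 := Real.log_le_sub_one_of_pos hN0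
    -- each event
    have heach : ∀ q ∈ S N, P.real (B N q) ≤
        4 * Real.exp (-(ε ^ 2 * (y N : ℕ) / (256 * k ^ 2))) := by
      rintro ⟨x, l, h, g⟩ hq
      rw [hS] at hq
      simp only [Finset.mem_product, Finset.mem_range, Finset.mem_filter] at hq
      obtain ⟨hx, ⟨hlN', hηl⟩, hh, hgg⟩ := hq
      rw [h𝓗] at hh
      simp only [Finset.mem_filter, Fintype.mem_piFinset, Finset.mem_range] at hh
      have hl1 : (1 : ℝ) ≤ l := by
        refine le_trans ?_ hηl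
        exact Real.one_le_rpow (by linarith) hη.le
      have hzl : (z N) ^ 2 ≤ l := by
        have h1 : ((z N : ℕ) : ℝ) ≤ (N : ℝ) ^ (η / 2) := Nat.floor_le (by positivity)
        have h2 : ((z N : ℕ) : ℝ) ^ 2 ≤ (N : ℝ) ^ η := by
          calc ((z N : ℕ) : ℝ) ^ 2 ≤ ((N : ℝ) ^ (η / 2)) ^ 2 :=
                pow_le_pow_left₀ (Nat.cast_nonneg _) h1 2
            _ = (N : ℝ) ^ η := by
                rw [sq, ← Real.rpow_add hN0]; congr 1; ring
        exact_mod_cast h2.trans hηl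
      have hloge : (y N) * Nat.log 2 (x + l + ⌊Real.log (N : ℝ)⌋₊) ≤ 2 * l := by
        have h1 : x + l + ⌊Real.log (N : ℝ)⌋₊ ≤ 3 * N := by
          have : ⌊Real.log (N : ℝ)⌋₊ ≤ N := by
            have : ((⌊Real.log (N : ℝ)⌋₊ : ℕ) : ℝ) ≤ N := by linarith
            exact_mod_cast this
          omega
        have h2 : Nat.log 2 (x + l + ⌊Real.log (N : ℝ)⌋₊) ≤ Nat.log 2 (3 * N) :=
          Nat.log_mono_right h1
        have h3 : (Nat.log 2 (3 * N) : ℝ) ≤ 4 * Real.log N := by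
          have h4 : (2 : ℝ) ^ Nat.log 2 (3 * N) ≤ 3 * N := by
            have := Nat.pow_log_le_self 2 (x := 3 * N) (by omega)
            exact_mod_cast this
          have h5 : (Nat.log 2 (3 * N) : ℝ) * Real.log 2 ≤ Real.log 3 + Real.log N := by
            rw [← Real.log_pow, ← Real.log_mul (by norm_num) hN0.ne']
            exact Real.log_le_log (by positivity) h4
          have h6 : (1 : ℝ) / 2 ≤ Real.log 2 := by
            have := Real.log_two_gt_d9
            linarith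
          have h7 : (0 : ℝ) ≤ (Nat.log 2 (3 * N) : ℝ) := Nat.cast_nonneg _
          nlinarith
        have h4 : ((y N * Nat.log 2 (x + l + ⌊Real.log (N : ℝ)⌋₊) : ℕ) : ℝ) ≤ ((2 * l : ℕ) : ℝ) := by
          push_cast
          calc ((y N : ℕ) : ℝ) * (Nat.log 2 (x + l + ⌊Real.log (N : ℝ)⌋₊) : ℝ)
              ≤ ((K + 1) * Real.log N) * (4 * Real.log N) := by
                refine mul_le_mul hyN ?_ (Nat.cast_nonneg _) (by positivity)
                refine le_trans ?_ h3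
                exact_mod_cast h2
            _ ≤ 2 * (N : ℝ) ^ η := hlN
            _ ≤ 2 * l := by linarith
        exact_mod_cast h4
      have := one_interval hF hh.2 (H := ⌊Real.log (N : ℝ)⌋₊) (fun i => by
          have := hh.1 i; omega) i0 (hg N g hgg) x l (y N) (z N) (by exact_mod_cast hl1)
          (by
            have : (1 : ℝ) ≤ ((y N : ℕ) : ℝ) := by linarith
            exact_mod_cast this)
          (by exact_mod_cast hfl.trans hylog) hzl hloge hEN hε.le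
      exact this
    have hcardS : ((S N).card : ℝ) ≤ 4 * (N : ℝ) ^ (2 + k + A) := by
      rw [hS]
      simp only [Finset.card_product, Finset.card_range]
      have h1 : (((Finset.range (N + 1)).filter fun l : ℕ => (N : ℝ) ^ η ≤ l).card : ℝ) ≤
          2 * N := by
        calc _ ≤ (((Finset.range (N + 1)).card : ℕ) : ℝ) := by
              exact_mod_cast Finset.card_filter_le _ _
          _ ≤ 2 * N := by rw [Finset.card_range]; push_cast; linarith
      have h2 : ((𝓗 N).card : ℝ) ≤ (N : ℝ) ^ k := by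
        have h3 : (𝓗 N).card ≤
            (Fintype.piFinset fun _ : Fin k => Finset.range (⌊Real.log (N : ℝ)⌋₊ + 1)).card :=
          Finset.card_filter_le _ _
        rw [Fintype.card_piFinset, Finset.prod_const, Finset.card_range, Finset.card_univ,
          Fintype.card_fin] at h3
        have h4 : ((⌊Real.log (N : ℝ)⌋₊ : ℝ) + 1) ^ k ≤ (N : ℝ) ^ k :=
          pow_le_pow_left₀ (by positivity) (by linarith) k
        calc ((𝓗 N).card : ℝ) ≤ (((⌊Real.log (N : ℝ)⌋₊ + 1) ^ k : ℕ) : ℝ) := by exact_mod_cast h3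
          _ = ((⌊Real.log (N : ℝ)⌋₊ : ℝ) + 1) ^ k := by push_cast; ring
          _ ≤ _ := h4
      have h3 : ((𝒢 N).card : ℝ) ≤ (N : ℝ) ^ A := by exact_mod_cast hcN
      push_cast
      have hx2 : ((N : ℝ) + 1) ≤ 2 * N := by linarith
      calc ((N : ℝ) + 1) * ((((Finset.range (N + 1)).filter fun l : ℕ => (N : ℝ) ^ η ≤ l).card : ℝ) *
            (((𝓗 N).card : ℝ) * ((𝒢 N).card : ℝ)))
          ≤ (2 * N) * ((2 * N) * ((N : ℝ) ^ k * (N : ℝ) ^ A)) := by
            refine mul_le_mul hx2 ?_ (by positivity) (by positivity)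
            refine mul_le_mul h1 ?_ (by positivity) (by positivity)
            exact mul_le_mul h2 h3 (Nat.cast_nonneg _) (by positivity)
        _ = 4 * (N : ℝ) ^ (2 + k + A) := by ring
    have hexp : Real.exp (-(ε ^ 2 * (y N : ℕ) / (256 * k ^ 2))) ≤
        1 / (N : ℝ) ^ (A + k + 4) := by
      have h2 : (1 : ℝ) / (N : ℝ) ^ (A + k + 4) = Real.exp (-(((A + k + 4 : ℕ) : ℝ) * Real.log N)) := by
        rw [Real.exp_neg, Real.exp_nat_mul, Real.exp_log hN0, one_div]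
      rw [h2, Real.exp_le_exp]
      refine neg_le_neg ?_
      rw [le_div_iff₀ (by positivity)]
      have h5 : ε ^ 2 * (K * Real.log N) ≤ ε ^ 2 * ((y N : ℕ) : ℝ) :=
        mul_le_mul_of_nonneg_left hyge (by positivity)
      have h6 : ε ^ 2 * (K * Real.log N) = ((A : ℝ) + k + 4) * Real.log N * (256 * k ^ 2) +
          ε ^ 2 * Real.log N := by
        rw [hK]; field_simp
      have h7 : 0 ≤ ε ^ 2 * Real.log N := by positivity
      push_cast
      linarith
    calc P.real (Bad N) ≤ ∑ q ∈ S N, P.real (B N q) := measureReal_biUnion_finset_le _ _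
      _ ≤ ∑ _q ∈ S N, 4 * Real.exp (-(ε ^ 2 * (y N : ℕ) / (256 * k ^ 2))) :=
          Finset.sum_le_sum heach
      _ = ((S N).card : ℝ) * (4 * Real.exp (-(ε ^ 2 * (y N : ℕ) / (256 * k ^ 2)))) := by
          rw [Finset.sum_const, nsmul_eq_mul]
      _ ≤ (4 * (N : ℝ) ^ (2 + k + A)) * (4 * (1 / (N : ℝ) ^ (A + k + 4))) := by
          refine mul_le_mul hcardS ?_ (by positivity) (by positivity)
          linarith
      _ = 16 * (1 / (N : ℝ) ^ 2) := by
          have : (N : ℝ) ^ (A + k + 4) = (N : ℝ) ^ (2 + k + A) * (N : ℝ) ^ 2 := by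
            rw [← pow_add]; congr 1; ring
          rw [this]
          field_simp
          ring
  obtain ⟨N0, hN0⟩ := eventually_atTop.mp hevB
  have hsum : ∑' N, P (Bad (N + N0)) ≠ ⊤ := by
    have h1 : ∀ N, P (Bad (N + N0)) ≤ ENNReal.ofReal (16 * (1 / ((N + N0 : ℕ) : ℝ) ^ 2)) := by
      intro N
      rw [← ENNReal.ofReal_toReal (measure_ne_top P (Bad (N + N0)))]
      exact ENNReal.ofReal_le_ofReal (hN0 _ (Nat.le_add_left _ _))
    refine ne_top_of_le_ne_top ?_ (ENNReal.tsum_le_tsum h1)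
    have hs : Summable (fun N : ℕ => 16 * (1 / ((N + N0 : ℕ) : ℝ) ^ 2)) := by
      have h2 : Summable (fun n : ℕ => 1 / (n : ℝ) ^ 2) :=
        Real.summable_one_div_nat_pow.2 (by norm_num)
      exact ((summable_nat_add_iff N0).mpr h2).mul_left 16
    exact hs.tsum_ofReal_ne_top
  have hbc := ae_eventually_notMem hsum
  filter_upwards [hbc] with ω hω
  have hω' : ∀ᶠ N : ℕ in atTop, ω ∉ Bad N := by
    obtain ⟨N1, hN1⟩ := eventually_atTop.mp hω
    refine eventually_atTop.mpr ⟨N1 + N0, fun N hN => ?_⟩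
    have := hN1 (N - N0) (by omega)
    rwa [Nat.sub_add_cancel (by omega)] at this
  filter_upwards [hω', hmean, hlogt.eventually_ge_atTop 0, eventually_ge_atTop 1,
    hzt.eventually_ge_atTop 1] with N hN hN' hlN0 hN1 hz1
  intro x l hx hηl hlN h hinj hh g hg'
  by_contra hcon
  push Not at hcon
  refine hN ?_
  simp only [hBad, Set.mem_iUnion, exists_prop]
  refine ⟨(x, l, h, g), ?_, ?_⟩
  · rw [hS]
    simp only [Finset.mem_product, Finset.mem_range, Finset.mem_filter]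
    refine ⟨by omega, ⟨by omega, hηl⟩, ?_, hg'⟩
    rw [h𝓗]
    simp only [Finset.mem_filter, Fintype.mem_piFinset, Finset.mem_range]
    exact ⟨fun i => Nat.lt_succ_of_le (Nat.le_floor (hh i)), hinj⟩
  · simp only [hB, Set.mem_setOf_eq]
    refine le_trans ?_ hcon
    have hN0' : (0 : ℝ) < N := by exact_mod_cast hN1
    have hl0 : (0 : ℝ) ≤ l := Nat.cast_nonneg _
    have hzle : ((z N : ℕ) : ℝ) ≤ l * (1 / ((z N : ℕ) : ℝ)) := by
      have hz0 : (0 : ℝ) < ((z N : ℕ) : ℝ) := by linarith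
      have h1 : ((z N : ℕ) : ℝ) ≤ (N : ℝ) ^ (η / 2) := Nat.floor_le (by positivity)
      have h2 : ((z N : ℕ) : ℝ) * ((z N : ℕ) : ℝ) ≤ (N : ℝ) ^ η := by
        calc ((z N : ℕ) : ℝ) * ((z N : ℕ) : ℝ) ≤ ((N : ℝ) ^ (η / 2)) * ((N : ℝ) ^ (η / 2)) :=
              mul_self_le_mul_self (Nat.cast_nonneg _) h1
          _ = (N : ℝ) ^ η := by
              rw [← Real.rpow_add hN0']; congr 1; ring
      rw [mul_one_div, le_div_iff₀ hz0]
      exact h2.trans hηl
    have h3 : l * (Real.exp (-(E N / 2)) + 16 / E N + 1 / ((y N : ℕ) : ℝ) +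
        1 / ((z N : ℕ) : ℝ)) ≤ l * ε := mul_le_mul_of_nonneg_left hN'.le hl0
    calc (l : ℝ) * (Real.exp (-(E N / 2)) + 16 / E N + 1 / ((y N : ℕ) : ℝ)) + ((z N : ℕ) : ℝ) +
          ε * l ≤ l * (Real.exp (-(E N / 2)) + 16 / E N + 1 / ((y N : ℕ) : ℝ) +
        1 / ((z N : ℕ) : ℝ)) + ε * l := by linarith
      _ ≤ 2 * ε * l := by linarith

/-- **Almost sure decay in all short intervals, uniformly over shifts and weights.** -/
theorem short_as (hF : RandMult P F) (i0 : Fin k)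
    (hdiv : ∀ η : ℝ, 0 < η → Tendsto (fun N : ℕ => Dw (mn P F i0) (Real.log N) ⌊(N : ℝ) ^ η⌋₊)
      atTop atTop) (A : ℕ)
    {𝒢 : ℕ → Finset (ℕ → ℂ)} (hcard : ∀ᶠ N : ℕ in atTop, (𝒢 N).card ≤ N ^ A)
    (hg : ∀ N, ∀ g ∈ 𝒢 N, ∀ n, ‖g n‖ ≤ 1) :
    ∀ᵐ ω ∂P, ∀ η : ℝ, 0 < η → ∀ ε : ℝ, 0 < ε → ∀ᶠ N : ℕ in atTop, ∀ x l : ℕ, x ≤ N →
      (N : ℝ) ^ η ≤ l → l ≤ N →
      ∀ h : Fin k → ℕ, Injective h → (∀ i, (h i : ℝ) ≤ Real.log N) → ∀ g ∈ 𝒢 N,
      ‖∑ n ∈ Ioc x (x + l), g n * ∏ i, F i (n + h i) ω‖ ≤ ε * l := by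
  have h1 : ∀ᵐ ω ∂P, ∀ j m : ℕ, ∀ᶠ N : ℕ in atTop, ∀ x l : ℕ, x ≤ N →
      (N : ℝ) ^ (1 / ((j : ℝ) + 1)) ≤ l → l ≤ N →
      ∀ h : Fin k → ℕ, Injective h → (∀ i, (h i : ℝ) ≤ Real.log N) → ∀ g ∈ 𝒢 N,
      ‖∑ n ∈ Ioc x (x + l), g n * ∏ i, F i (n + h i) ω‖ < 2 * (1 / ((m : ℝ) + 1)) * l := by
    rw [ae_all_iff]
    intro j
    rw [ae_all_iff]
    intro m
    exact short_eps hF i0 hdiv (by positivity) A hcard hg (by positivity)
  filter_upwards [h1] with ω hω η hη ε hε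
  obtain ⟨m, hm⟩ := exists_nat_one_div_lt (half_pos hε)
  obtain ⟨j, hj⟩ := exists_nat_one_div_lt hη
  filter_upwards [hω j m, eventually_ge_atTop 1] with N hN hN1 x l hx hηl hlN h hinj hh g hg'
  have hN1' : (1 : ℝ) ≤ N := by exact_mod_cast hN1
  have h2 : (N : ℝ) ^ (1 / ((j : ℝ) + 1)) ≤ (N : ℝ) ^ η :=
    Real.rpow_le_rpow_of_exponent_le hN1' hj.le
  have h3 := hN x l hx (h2.trans hηl) hlN h hinj hh g hg'
  have h4 : 2 * (1 / ((m : ℝ) + 1)) * l ≤ ε * l :=
    mul_le_mul_of_nonneg_right (by linarith) (Nat.cast_nonneg _)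
  linarith

end

end Pool.Agent.W5h23.CP
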